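import Pool.Agent.H345R2.A2.EFa

/-! The explicit formula for a subinterval, with known coefficients. -/

open Complex Filter Topology Set MeasureTheory
open scoped BigOperators ComplexConjugate

namespace H370.A2

open H370.SI H370.AS

/-- the explicit formula for a subinterval -/
theorem ef_sub2 {F : ℂ → ℂ} (hF : GoodL F) {a : ℕ → ℂ}
    (ha : ∀ n, ‖a n‖ ≤ ArithmeticFunction.vonMangoldt n)
    (hld : ∀ s : ℂ, 1 < s.re → 1 ≤ s.im → deriv F s / F s = - ∑' n : ℕ, a n * (n : ℂ) ^ (-s)) :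
    ∃ C T0 : ℝ, 0 < C ∧ 10 ≤ T0 ∧ ∀ T : ℝ, T0 ≤ T → ∀ A B : ℝ, T + 1 ≤ A → B ≤ 2 * T - 1 →
      ∀ u t : ℝ, 0 ≤ u → u ≤ Real.log T → A + Real.log T ≤ t → t ≤ B - Real.log T →
        ‖AA F A B u t -
          (1 / Real.sqrt (2 * Real.pi) : ℝ) * (Real.log T * cexp (I * u * t) *
              Real.exp (-u ^ 2 / 2) - PP a u t)‖ ≤ C := by
  classical
  obtain ⟨C, T0, hC, hT0, hEF⟩ := ef_known hF ha hld
  obtain ⟨C2, hC2, hN⟩ := NN_crude hF
  refine ⟨C + 4 * C2, max T0 (Real.exp 4), by positivity, hT0.trans (le_max_left _ _),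
    fun T hT A B hA hB u t hu huL ht1 ht2 => ?_⟩
  have hTT0 : T0 ≤ T := (le_max_left _ _).trans hT
  have hT10 : 10 ≤ T := hT0.trans hTT0
  have hTpos : 0 < T := by linarith
  obtain ⟨U1, U2, hU1, hU1', hU2', hU2, hmain⟩ := hEF T hTT0
  have hU : 1 ≤ U1 := by linarith
  have hUA : 1 ≤ A := by linarith
  set L := Real.log T with hL
  have hL4 : 4 ≤ L := by
    rw [hL, Real.le_log_iff_exp_le hTpos]
    exact (le_max_right _ _).trans hT
  have h1 := hmain u t hu huL (by linarith) (by linarith)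
  have hexp1 : Real.exp (-u) ≤ 1 := Real.exp_le_one_iff.mpr (by linarith)
  -- the zeros outside
  have hsub : Zf F A B ⊆ Zf F U1 U2 := by
    intro s hs
    rw [mem_Zf hF hUA] at hs
    rw [mem_Zf hF hU]
    exact ⟨hs.1, hs.2.1, by linarith [hs.2.2.1], by linarith [hs.2.2.2.1], hs.2.2.2.2⟩
  have hdiff : AA F U1 U2 u t - AA F A B u t =
      ∑ s ∈ Zf F U1 U2 \ Zf F A B, (mult F s : ℂ) * hh u t s := by
    rw [AA_eq hF hU, AA_eq hF hUA, ← Finset.sum_sdiff hsub]
    ring
  have hnorm : ‖AA F U1 U2 u t - AA F A B u t‖ ≤ 4 * C2 := by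
    rw [hdiff]
    have h2 : ∀ s ∈ Zf F U1 U2 \ Zf F A B, ‖(mult F s : ℂ) * hh u t s‖ ≤
        (mult F s : ℝ) * (2 * Real.exp (u / 2) * Real.exp (-L ^ 2 / 2)) := by
      intro s hs
      rw [Finset.mem_sdiff, mem_Zf hF hU, mem_Zf hF hUA] at hs
      obtain ⟨hs1, hs2⟩ := hs
      rw [norm_mul, Complex.norm_natCast]
      apply mul_le_mul_of_nonneg_left _ (Nat.cast_nonneg _)
      refine (norm_hh_le hs1 u t hu).trans ?_
      have h3 : L ^ 2 ≤ (s.im - t) ^ 2 := by
        have h4 : s.im ≤ A ∨ B < s.im := by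
          by_contra hcon
          push Not at hcon
          exact hs2 ⟨hs1.1, hs1.2.1, hcon.1, hcon.2, hs1.2.2.2.2⟩
        rcases h4 with h4 | h4
        · nlinarith
        · nlinarith
      apply mul_le_mul_of_nonneg_left _ (by positivity)
      apply Real.exp_le_exp.mpr
      linarith
    refine (norm_sum_le _ _).trans ((Finset.sum_le_sum h2).trans ?_)
    rw [← Finset.sum_mul]
    have h3 : ∑ s ∈ Zf F U1 U2 \ Zf F A B, (mult F s : ℝ) ≤ C2 * (T * L) := by
      refine le_trans ?_ (hN T (by linarith) U1 U2 hU1 hU2)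
      rw [NN_eq hF hU, Nat.cast_sum]
      exact Finset.sum_le_sum_of_subset_of_nonneg Finset.sdiff_subset fun _ _ _ => by positivity
    have h4 : Real.exp (u / 2) ≤ Real.exp (L / 2) := Real.exp_le_exp.mpr (by linarith)
    have h5 : T ^ 2 * Real.exp (-L ^ 2 / 2) ≤ 1 := by
      have h6 : T ^ 2 = Real.exp (2 * L) := by
        rw [mul_comm, Real.exp_mul, hL, Real.exp_log hTpos]; norm_cast
      rw [h6, ← Real.exp_add]
      apply Real.exp_le_one_iff.mpr
      nlinarith
    have h6 : L ≤ 2 * Real.exp (L / 2) := by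
      have := Real.add_one_le_exp (L / 2)
      linarith
    have h7 : Real.exp (L / 2) * Real.exp (L / 2) = T := by
      rw [← Real.exp_add, add_halves, hL, Real.exp_log hTpos]
    have h8 : 0 < Real.exp (L / 2) := Real.exp_pos _
    calc (∑ s ∈ Zf F U1 U2 \ Zf F A B, (mult F s : ℝ)) *
          (2 * Real.exp (u / 2) * Real.exp (-L ^ 2 / 2))
        ≤ (C2 * (T * (2 * Real.exp (L / 2)))) *
          (2 * Real.exp (L / 2) * Real.exp (-L ^ 2 / 2)) := by
          apply mul_le_mul _ _ (by positivity) (by positivity)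
          · refine h3.trans ?_
            gcongr
          · gcongr
      _ = 4 * C2 * (T * (Real.exp (L / 2) * Real.exp (L / 2)) * Real.exp (-L ^ 2 / 2)) := by ring
      _ = 4 * C2 * (T ^ 2 * Real.exp (-L ^ 2 / 2)) := by rw [h7]; ring
      _ ≤ 4 * C2 * 1 := by gcongr
      _ = 4 * C2 := by ring
  calc ‖AA F A B u t - (1 / Real.sqrt (2 * Real.pi) : ℝ) * (Real.log T * cexp (I * u * t) *
              Real.exp (-u ^ 2 / 2) - PP a u t)‖
      = ‖(AA F U1 U2 u t - (1 / Real.sqrt (2 * Real.pi) : ℝ) * (Real.log T * cexp (I * u * t) *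
              Real.exp (-u ^ 2 / 2) - PP a u t)) - (AA F U1 U2 u t - AA F A B u t)‖ := by
        congr 1; ring
    _ ≤ _ := norm_sub_le _ _
    _ ≤ C + 4 * C2 := by
        refine add_le_add (h1.trans ?_) hnorm
        nlinarith


/-- the coefficients for zeta -/
noncomputable def lamC (n : ℕ) : ℂ := (ArithmeticFunction.vonMangoldt n : ℂ)

lemma lamC_norm (n : ℕ) : ‖lamC n‖ = ArithmeticFunction.vonMangoldt n := by
  unfold lamC
  rw [Complex.norm_real, Real.norm_of_nonneg ArithmeticFunction.vonMangoldt_nonneg]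

theorem ld_zeta (s : ℂ) (hs : 1 < s.re) :
    deriv riemannZeta s / riemannZeta s = - ∑' n : ℕ, lamC n * (n : ℂ) ^ (-s) := by
  have h := ArithmeticFunction.LSeries_vonMangoldt_eq_deriv_riemannZeta_div hs
  have h2 : ∑' n : ℕ, lamC n * (n : ℂ) ^ (-s) =
      LSeries (fun n => (ArithmeticFunction.vonMangoldt n : ℂ)) s := by
    unfold LSeries
    refine tsum_congr fun n => ?_
    rcases Nat.eq_zero_or_pos n with rfl | hn
    · simp [lamC]
    · rw [LSeries.term_of_ne_zero hn.ne', Complex.cpow_neg, ← div_eq_mul_inv]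
      rfl
  rw [h2, h]
  ring

end H370.A2
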