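import Pool.Agent.H345R2.A2.Smooth

/-! The main term in terms of the transform of the test function. -/

open Complex Filter Topology Set MeasureTheory
open scoped BigOperators ComplexConjugate FourierTransform

namespace H370.A2

/-- the even part -/
noncomputable def evp (ψ : ℝ → ℝ) (α : ℝ) : ℝ := (ψ α + ψ (-α)) / 2

lemma evp_even (ψ : ℝ → ℝ) (α : ℝ) : evp ψ (-α) = evp ψ α := by
  unfold evp
  rw [neg_neg]; ring

lemma evp_cont {ψ : ℝ → ℝ} (h : Continuous ψ) : Continuous (evp ψ) := by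
  unfold evp; fun_prop

lemma evp_zero {ψ : ℝ → ℝ} {μ : ℝ} (hz : ∀ x, μ ≤ |x| → ψ x = 0) {x : ℝ} (h : μ ≤ |x|) :
    evp ψ x = 0 := by
  unfold evp
  rw [hz x h, hz (-x) (by rw [abs_neg]; exact h)]
  simp

lemma evp_int {ψ c : ℝ → ℝ} (hψ : Continuous ψ) (hc : Continuous c) (hce : ∀ x, c (-x) = c x)
    (μ : ℝ) : ∫ α in (-μ)..μ, ψ α * c α = ∫ α in (-μ)..μ, evp ψ α * c α := by
  rw [int_sym (fun α => ψ α * c α) (hψ.mul hc) μ, int_sym (fun α => evp ψ α * c α)
    ((evp_cont hψ).mul hc) μ]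
  refine intervalIntegral.integral_congr fun α _ => ?_
  simp only [hce, evp_even]
  unfold evp
  ring

lemma evp_int_R {ψ c : ℝ → ℝ} {μ : ℝ} (hz : ∀ x, μ ≤ |x| → ψ x = 0) {ν : ℝ} (hν : μ ≤ ν) :
    ∫ α in (-ν)..ν, evp ψ α * c α = ∫ α, evp ψ α * c α := by
  apply intervalIntegral.integral_eq_integral_of_support_subset
  intro α hα
  by_contra h
  apply hα
  have : μ ≤ |α| := by
    by_contra h2
    push Not at h2
    obtain ⟨h3, h4⟩ := abs_lt.1 h2
    exact h ⟨by linarith, by linarith⟩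
  show evp ψ α * c α = 0
  rw [evp_zero hz this, zero_mul]

lemma evp_integrable {ψ : ℝ → ℝ} {μ : ℝ} (hψ : Continuous ψ) (hz : ∀ x, μ ≤ |x| → ψ x = 0) :
    Integrable (evp ψ) := by
  apply (evp_cont hψ).integrable_of_hasCompactSupport
  apply HasCompactSupport.intro (isCompact_Icc (a := -μ) (b := μ))
  intro x hx
  apply evp_zero hz
  by_contra h
  push Not at h
  obtain ⟨h3, h4⟩ := abs_lt.1 h
  exact hx ⟨h3.le, h4.le⟩

lemma RR_eq {ψ : ℝ → ℝ} {μ : ℝ} (hψ : Continuous ψ) (hz : ∀ x, μ ≤ |x| → ψ x = 0) (x : ℝ) :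
    RR ψ μ x = ∫ α, evp ψ α * Real.cos (2 * Real.pi * α * x) := by
  unfold RR
  rw [evp_int hψ (c := fun α => Real.cos (2 * Real.pi * α * x)) (by fun_prop) (by
    intro y
    show Real.cos (2 * Real.pi * (-y) * x) = Real.cos (2 * Real.pi * y * x)
    have : 2 * Real.pi * (-y) * x = -(2 * Real.pi * y * x) := by ring
    rw [this, Real.cos_neg])]
  exact evp_int_R hz le_rfl

lemma RR_even {ψ : ℝ → ℝ} {μ : ℝ} (x : ℝ) : RR ψ μ (-x) = RR ψ μ x := by
  unfold RR
  refine intervalIntegral.integral_congr fun α _ => ?_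
  show ψ α * Real.cos (2 * Real.pi * α * (-x)) = ψ α * Real.cos (2 * Real.pi * α * x)
  have : 2 * Real.pi * α * (-x) = -(2 * Real.pi * α * x) := by ring
  rw [this, Real.cos_neg]

lemma RR_cont {ψ : ℝ → ℝ} {μ : ℝ} (hψ : Continuous ψ) : Continuous (RR ψ μ) := by
  unfold RR
  exact intervalIntegral.continuous_parametric_intervalIntegral_of_continuous' (by
    show Continuous (Function.uncurry fun x α => ψ α * Real.cos (2 * Real.pi * α * x))
    unfold Function.uncurry
    fun_prop) _ _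

lemma RR_bound {ψ : ℝ → ℝ} {μ : ℝ} (hψ : Continuous ψ) (hz : ∀ x, μ ≤ |x| → ψ x = 0) (x : ℝ) :
    |RR ψ μ x| ≤ ∫ α, |evp ψ α| := by
  rw [RR_eq hψ hz, ← Real.norm_eq_abs]
  refine (norm_integral_le_integral_norm _).trans ?_
  refine integral_mono_of_nonneg (Filter.Eventually.of_forall fun _ => norm_nonneg _)
    (evp_integrable hψ hz).norm (Filter.Eventually.of_forall fun α => ?_)
  show ‖evp ψ α * Real.cos (2 * Real.pi * α * x)‖ ≤ ‖evp ψ α‖
  rw [norm_mul]
  have := Real.abs_cos_le_one (2 * Real.pi * α * x)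
  rw [Real.norm_eq_abs (Real.cos _)]
  exact mul_le_of_le_one_right (norm_nonneg _) this

lemma RR_integrable {ψ : ℝ → ℝ} {μ : ℝ} (hψ : Continuous ψ) (hz : ∀ x, μ ≤ |x| → ψ x = 0)
    {C : ℝ} (hC : ∀ x, |RR ψ μ x| * x ^ 2 ≤ C) : Integrable (RR ψ μ) := by
  refine (integrable_inv_one_add_sq.const_mul ((∫ α, |evp ψ α|) + C)).mono'
    (RR_cont hψ).aestronglyMeasurable (Filter.Eventually.of_forall fun x => ?_)
  have h1 := RR_bound hψ hz x
  have h2 := hC x
  rw [Real.norm_eq_abs, ← div_eq_mul_inv, le_div_iff₀ (by positivity)]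
  linarith

/-- Fourier inversion -/
lemma RR_inv {ψ : ℝ → ℝ} {μ : ℝ} (hψ : Continuous ψ) (hz : ∀ x, μ ≤ |x| → ψ x = 0)
    {C : ℝ} (hC : ∀ x, |RR ψ μ x| * x ^ 2 ≤ C) (β : ℝ) :
    ∫ x, RR ψ μ x * Real.cos (2 * Real.pi * x * β) = evp ψ β := by
  set f : ℝ → ℂ := fun α => (evp ψ α : ℂ) with hf
  have hfi : Integrable f := (evp_integrable hψ hz).ofReal
  have hfc : Continuous f := Complex.continuous_ofReal.comp (evp_cont hψ)
  have hF : 𝓕 f = fun x => (RR ψ μ x : ℂ) := by
    funext x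
    rw [Real.fourier_real_eq_integral_exp_smul]
    set G : ℝ → ℂ := fun v => Complex.exp (↑(-2 * Real.pi * v * x) * Complex.I) • f v with hG
    have hGi : Integrable G := by
      refine hfi.norm.mono' (by
        apply Continuous.aestronglyMeasurable
        simp only [hG]
        fun_prop) (Filter.Eventually.of_forall fun v => ?_)
      simp only [hG]
      rw [norm_smul, Complex.norm_exp_ofReal_mul_I, one_mul]
    have h1 : ∫ v, G (-v) = ∫ v, G v := integral_neg_eq_self G volume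
    have h2 : ∫ v, G v = ∫ v, (G v + G (-v)) / 2 := by
      rw [integral_div, integral_add hGi hGi.comp_neg, h1]
      ring
    show ∫ v, G v = (RR ψ μ x : ℂ)
    have h3 : ((∫ α, evp ψ α * Real.cos (2 * Real.pi * α * x) : ℝ) : ℂ) =
        ∫ α, ((evp ψ α * Real.cos (2 * Real.pi * α * x) : ℝ) : ℂ) := integral_ofReal.symm
    rw [h2, RR_eq hψ hz, h3]
    refine integral_congr_ae (Filter.Eventually.of_forall fun v => ?_)
    simp only [hG, hf, smul_eq_mul]
    rw [evp_even]
    push_cast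
    rw [Complex.cos]
    have e1 : cexp (-2 * (Real.pi : ℂ) * v * x * I) = cexp (-(2 * (Real.pi : ℂ) * v * x) * I) := by
      congr 1; ring
    have e2 : cexp (-2 * (Real.pi : ℂ) * (-v) * x * I) = cexp ((2 * (Real.pi : ℂ) * v * x) * I) := by
      congr 1; ring
    rw [e1, e2]
    ring
  have hRi := RR_integrable hψ hz hC
  have hFi : Integrable (𝓕 f) := by rw [hF]; exact hRi.ofReal
  have hinv := hfi.fourierInv_fourier_eq hFi (v := β) hfc.continuousAt
  rw [hF, Real.fourierInv_eq'] at hinv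
  have h3 := congrArg Complex.re hinv
  have hint : Integrable fun v : ℝ => Complex.exp (↑(2 * Real.pi * inner ℝ v β) * Complex.I) •
      (RR ψ μ v : ℂ) := by
    refine hRi.norm.mono' (by
      apply Continuous.aestronglyMeasurable
      have := RR_cont (μ := μ) hψ
      fun_prop) (Filter.Eventually.of_forall fun v => ?_)
    rw [norm_smul, Complex.norm_exp_ofReal_mul_I, one_mul, Complex.norm_real]
  have h4 := (Complex.reCLM.integral_comp_comm hint).symm
  simp only [Complex.reCLM_apply] at h4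
  rw [h4] at h3
  simp only [hf, Complex.ofReal_re] at h3
  rw [← h3]
  refine integral_congr_ae (Filter.Eventually.of_forall fun v => ?_)
  show RR ψ μ v * Real.cos (2 * Real.pi * v * β) =
    (cexp (↑(2 * Real.pi * inner ℝ v β) * I) • (RR ψ μ v : ℂ)).re
  rw [smul_eq_mul, mul_comm (cexp _), Complex.re_ofReal_mul, Complex.exp_ofReal_mul_I_re]
  have : (2 * Real.pi * inner ℝ v β : ℝ) = 2 * Real.pi * v * β := by
    simp [inner]
    ring
  rw [this]

/-- the Fejér kernel -/
lemma fejer {x : ℝ} (hx : x ≠ 0) :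
    ∫ β in (-1 : ℝ)..1, (1 - |β|) * Real.cos (2 * Real.pi * x * β) =
      (Real.sin (Real.pi * x) / (Real.pi * x)) ^ 2 := by
  have hpi := Real.pi_pos
  rw [int_sym (fun β => (1 - |β|) * Real.cos (2 * Real.pi * x * β)) (by fun_prop) 1]
  have hk : 2 * Real.pi * x ≠ 0 := by positivity
  have h1 : ∀ β ∈ Set.uIcc (0 : ℝ) 1, (1 - |β|) * Real.cos (2 * Real.pi * x * β) +
      (1 - |-β|) * Real.cos (2 * Real.pi * x * -β) =
      2 * ((1 - β) * Real.cos (2 * Real.pi * x * β)) := by
    intro β hβ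
    rw [Set.uIcc_of_le zero_le_one] at hβ
    rw [abs_neg, abs_of_nonneg hβ.1, mul_neg, Real.cos_neg]
    ring
  rw [intervalIntegral.integral_congr h1]
  set k := 2 * Real.pi * x with hkdef
  have h2 : ∀ β ∈ Set.uIcc (0 : ℝ) 1, HasDerivAt (fun β : ℝ => 2 * ((1 - β) * Real.sin (k * β) / k -
      Real.cos (k * β) / k ^ 2)) (2 * ((1 - β) * Real.cos (k * β))) β := by
    intro β _
    have h3 : HasDerivAt (fun β : ℝ => k * β) k β := by
      simpa using (hasDerivAt_id β).const_mul k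
    have h4 := h3.sin
    have h5 := h3.cos
    have h6 : HasDerivAt (fun β : ℝ => 1 - β) (-1) β := by
      simpa using (hasDerivAt_id β).const_sub 1
    have h7 := (((h6.mul h4).div_const k).sub (h5.div_const (k ^ 2))).const_mul 2
    refine h7.congr_deriv ?_
    field_simp
    ring
  rw [intervalIntegral.integral_eq_sub_of_hasDerivAt h2
    ((by fun_prop : Continuous fun β : ℝ => 2 * ((1 - β) * Real.cos (k * β))).intervalIntegrable _ _)]
  have h8 : Real.cos (k * 1) = 1 - 2 * Real.sin (Real.pi * x) ^ 2 := by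
    have : k * 1 = 2 * (Real.pi * x) := by rw [hkdef]; ring
    rw [this, Real.cos_two_mul, Real.cos_sq']
    ring
  rw [h8]
  simp only [mul_zero, Real.sin_zero, Real.cos_zero, sub_self, zero_mul, zero_div, sub_zero, mul_one]
  rw [hkdef]
  field_simp
  ring

/-- the main term in terms of the transform -/
theorem main_term {ψ : ℝ → ℝ} {μ : ℝ} (hψ : Continuous ψ) (hz : ∀ x, μ ≤ |x| → ψ x = 0)
    (hμ1 : μ ≤ 1) {C : ℝ} (hC : ∀ x, |RR ψ μ x| * x ^ 2 ≤ C) :
    RR ψ μ 0 + ∫ x, RR ψ μ x * (1 - (Real.sin (Real.pi * x) / (Real.pi * x)) ^ 2) =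
      ψ 0 + ∫ α in (-μ)..μ, |α| * ψ α := by
  have hRi := RR_integrable hψ hz hC
  have hRc := RR_cont (μ := μ) hψ
  have hev : Continuous (evp ψ) := evp_cont hψ
  -- the integral against the Fejér kernel
  have hK : ∫ x, RR ψ μ x * (Real.sin (Real.pi * x) / (Real.pi * x)) ^ 2 =
      ∫ β in (-1 : ℝ)..1, (1 - |β|) * evp ψ β := by
    have h1 : ∫ x, RR ψ μ x * (Real.sin (Real.pi * x) / (Real.pi * x)) ^ 2 =
        ∫ x, ∫ β in Set.Ioc (-1 : ℝ) 1, RR ψ μ x * ((1 - |β|) * Real.cos (2 * Real.pi * x * β)) := by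
      refine integral_congr_ae ?_
      have h0 : ∀ᵐ x : ℝ, x ≠ 0 := by
        rw [ae_iff]
        simp
      filter_upwards [h0] with x hx
      rw [← fejer hx, intervalIntegral.integral_of_le (by norm_num), integral_const_mul]
    have hint : Integrable (Function.uncurry fun x β : ℝ =>
        RR ψ μ x * ((1 - |β|) * Real.cos (2 * Real.pi * x * β)))
        (volume.prod (volume.restrict (Set.Ioc (-1 : ℝ) 1))) := by
      have hc1 : Integrable (fun β : ℝ => 1 - |β|) (volume.restrict (Set.Ioc (-1 : ℝ) 1)) :=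
        ((by fun_prop : Continuous fun β : ℝ => 1 - |β|).integrableOn_Icc).mono_set
          Set.Ioc_subset_Icc_self
      refine (hRi.norm.mul_prod hc1.norm).mono' ?_ (Filter.Eventually.of_forall fun z => ?_)
      · apply Continuous.aestronglyMeasurable
        unfold Function.uncurry
        fun_prop
      · simp only [Function.uncurry]
        rw [norm_mul, norm_mul]
        have := Real.abs_cos_le_one (2 * Real.pi * z.1 * z.2)
        rw [← Real.norm_eq_abs] at this
        calc ‖RR ψ μ z.1‖ * (‖1 - |z.2|‖ * ‖Real.cos (2 * Real.pi * z.1 * z.2)‖) ≤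
            ‖RR ψ μ z.1‖ * (‖1 - |z.2|‖ * 1) := by gcongr
          _ = _ := by ring
    rw [h1, integral_integral_swap hint, intervalIntegral.integral_of_le (by norm_num)]
    refine integral_congr_ae (Filter.Eventually.of_forall fun β => ?_)
    show ∫ x, RR ψ μ x * ((1 - |β|) * Real.cos (2 * Real.pi * x * β)) = (1 - |β|) * evp ψ β
    rw [← RR_inv hψ hz hC β, ← integral_const_mul]
    refine integral_congr_ae (Filter.Eventually.of_forall fun x => ?_)
    show RR ψ μ x * ((1 - |β|) * Real.cos (2 * Real.pi * x * β)) = _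
    ring
  have h0 : ∫ x, RR ψ μ x = ψ 0 := by
    have h1 := RR_inv hψ hz hC 0
    simp only [mul_zero, Real.cos_zero, mul_one] at h1
    rw [h1]
    unfold evp
    simp
  have hsi : Integrable fun x => RR ψ μ x * (Real.sin (Real.pi * x) / (Real.pi * x)) ^ 2 := by
    refine hRi.norm.mono' ?_ (Filter.Eventually.of_forall fun x => ?_)
    · apply hRc.aestronglyMeasurable.mul
      apply Measurable.aestronglyMeasurable
      fun_prop
    · rw [norm_mul, norm_pow]
      have : ‖Real.sin (Real.pi * x) / (Real.pi * x)‖ ≤ 1 := by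
        rw [norm_div, Real.norm_eq_abs, Real.norm_eq_abs]
        exact div_le_one_of_le₀ Real.abs_sin_le_abs (abs_nonneg _)
      have h2 : ‖Real.sin (Real.pi * x) / (Real.pi * x)‖ ^ 2 ≤ 1 := pow_le_one₀ (norm_nonneg _) this
      exact mul_le_of_le_one_right (norm_nonneg _) h2
  have hsplit : ∫ x, RR ψ μ x * (1 - (Real.sin (Real.pi * x) / (Real.pi * x)) ^ 2) =
      ψ 0 - ∫ β in (-1 : ℝ)..1, (1 - |β|) * evp ψ β := by
    rw [← h0, ← hK, ← integral_sub hRi hsi]
    refine integral_congr_ae (Filter.Eventually.of_forall fun x => ?_)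
    show RR ψ μ x * (1 - (Real.sin (Real.pi * x) / (Real.pi * x)) ^ 2) = _
    ring
  have hcut : ∫ β in (-1 : ℝ)..1, (1 - |β|) * evp ψ β = ∫ β in (-μ)..μ, (1 - |β|) * evp ψ β := by
    have e1 := evp_int_R (c := fun β => 1 - |β|) hz hμ1
    have e2 := evp_int_R (c := fun β => 1 - |β|) hz (le_refl μ)
    have e3 : ∀ ν : ℝ, ∫ β in (-ν)..ν, (1 - |β|) * evp ψ β = ∫ β in (-ν)..ν, evp ψ β * (1 - |β|) :=
      fun ν => intervalIntegral.integral_congr fun β _ => mul_comm _ _
    rw [e3, e3, e1, e2]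
  have hR0 : RR ψ μ 0 = ∫ β in (-μ)..μ, evp ψ β := by
    unfold RR
    have e1 := evp_int hψ (c := fun _ => (1 : ℝ)) continuous_const (fun _ => rfl) μ
    simp only [mul_zero, Real.cos_zero, mul_one] at e1 ⊢
    exact e1
  have habs : ∫ α in (-μ)..μ, |α| * ψ α = ∫ α in (-μ)..μ, |α| * evp ψ α := by
    have e1 := evp_int hψ (c := fun α => |α|) continuous_abs abs_neg μ
    have e3 : ∀ g : ℝ → ℝ, ∫ β in (-μ)..μ, |β| * g β = ∫ β in (-μ)..μ, g β * |β| :=
      fun g => intervalIntegral.integral_congr fun β _ => mul_comm _ _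
    rw [e3, e3, e1]
  rw [hsplit, hcut, hR0, habs]
  have e4 : ∫ β in (-μ)..μ, (1 - |β|) * evp ψ β =
      (∫ β in (-μ)..μ, evp ψ β) - ∫ β in (-μ)..μ, |β| * evp ψ β := by
    have q : Continuous fun β : ℝ => |β| * evp ψ β := continuous_abs.mul hev
    rw [← intervalIntegral.integral_sub (hev.intervalIntegrable _ _)
      (q.intervalIntegrable _ _)]
    refine intervalIntegral.integral_congr fun β _ => ?_
    show (1 - |β|) * evp ψ β = evp ψ β - |β| * evp ψ β
    ring
  rw [e4]
  ring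

end H370.A2
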