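import Pool.Agent.H345R2.AS.Local

/-! Lower bound for the mean square over an interval. -/

open Complex Filter Topology Set MeasureTheory
open scoped BigOperators ComplexConjugate

namespace H370.A2

open H370.AS

/-- the Gaussian average of the square, from below -/
theorem gauss_DP_lower (b : ℕ → ℂ) (X : ℕ) (σ x : ℝ) (hσ : 0 < σ) :
    ∑ n ∈ Finset.Icc 1 X, ‖b n‖ ^ 2 - ‖EE b X σ x‖ ≤
      ∫ y : ℝ, Gs σ (y - x) * ‖DP b X y‖ ^ 2 := by
  classical
  obtain ⟨h1, h2⟩ := gauss_ms (Finset.Icc 1 X) b (fun n => Real.log n) σ x hσ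
  have h3 : ∑ j ∈ Finset.Icc 1 X, ∑ k ∈ Finset.Icc 1 X, b j * conj (b k) *
      (cexp (-(I * x * ((Real.log j - Real.log k : ℝ) : ℂ))) *
        Real.exp (-(σ ^ 2 * (Real.log j - Real.log k) ^ 2) / 2)) =
      ((∑ n ∈ Finset.Icc 1 X, ‖b n‖ ^ 2 : ℝ) : ℂ) + EE b X σ x := by
    rw [← Finset.sum_product' (f := fun j k => b j * conj (b k) *
      (cexp (-(I * x * ((Real.log j - Real.log k : ℝ) : ℂ))) *
        Real.exp (-(σ ^ 2 * (Real.log j - Real.log k) ^ 2) / 2)))]
    have h4 : (Finset.Icc 1 X ×ˢ Finset.Icc 1 X : Finset (ℕ × ℕ)) = H370.AS.sq X := rfl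
    rw [h4, ← Finset.sum_filter_add_sum_filter_not (H370.AS.sq X) (fun p => p.1 = p.2)]
    congr 1
    · have h5 : (H370.AS.sq X).filter (fun p => p.1 = p.2) =
          (Finset.Icc 1 X).image (fun n => (n, n)) := by
        ext p
        rw [Finset.mem_filter, mem_sq, Finset.mem_image]
        constructor
        · rintro ⟨⟨⟨a1, a2⟩, -⟩, a3⟩
          exact ⟨p.1, Finset.mem_Icc.mpr ⟨a1, a2⟩, Prod.ext rfl a3⟩
        · rintro ⟨n, hn, rfl⟩
          rw [Finset.mem_Icc] at hn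
          exact ⟨⟨hn, hn⟩, rfl⟩
      rw [h5, Finset.sum_image (fun a _ b _ h => (Prod.mk.inj h).1)]
      push_cast
      refine Finset.sum_congr rfl fun n _ => ?_
      simp only [sub_self]
      rw [Complex.mul_conj, Complex.normSq_eq_norm_sq]
      simp
    · unfold EE off cf ld
      refine Finset.sum_congr rfl fun p _ => ?_
      ring
  rw [h3] at h2
  have h6 := congrArg Complex.re h2
  rw [Complex.ofReal_re, Complex.add_re, Complex.ofReal_re] at h6
  have h7 : ∫ y : ℝ, Gs σ (y - x) * ‖DP b X y‖ ^ 2 =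
      ∑ n ∈ Finset.Icc 1 X, ‖b n‖ ^ 2 + (EE b X σ x).re := h6
  rw [h7]
  have h8 := Complex.abs_re_le_norm (EE b X σ x)
  have h9 := neg_abs_le (EE b X σ x).re
  linarith

lemma DP_le (b : ℕ → ℂ) (X : ℕ) (t : ℝ) : ‖DP b X t‖ ≤ ∑ n ∈ Finset.Icc 1 X, ‖b n‖ := by
  unfold DP
  refine (norm_sum_le _ _).trans (Finset.sum_le_sum fun n _ => ?_)
  rw [norm_mul]
  have : ‖cexp (-(I * t * Real.log n))‖ = 1 := by
    have e : -(I * t * Real.log n) = ((-(t * Real.log n) : ℝ) : ℂ) * I := by push_cast; ring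
    rw [e, Complex.norm_exp_ofReal_mul_I]
  rw [this, mul_one]

/-- lower bound for the mean square over an interval -/
theorem local_lower (b : ℕ → ℂ) (X : ℕ) (σ w A B : ℝ) (hσ : 0 < σ) (hw : 0 ≤ w)
    (hAB : A + w ≤ B - w)
    (hsm : (∑ n ∈ Finset.Icc 1 X, ‖b n‖) ^ 2 *
      (Real.sqrt 2 * Real.exp (-w ^ 2 / (4 * σ ^ 2))) ≤ 1) :
    (B - A - 2 * w) * (∑ n ∈ Finset.Icc 1 X, ‖b n‖ ^ 2 - 1) -
      ∫ x in (A + w)..(B - w), ‖EE b X σ x‖ ≤ ∫ t in A..B, ‖DP b X t‖ ^ 2 := by
  have hm := Gs_mass hσ hw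
  have hDc := DP_cont b X
  have hEc := EE_cont b X σ
  have hGc := Gs_cont σ
  set D0 : ℝ := ∑ n ∈ Finset.Icc 1 X, ‖b n‖ with hD0
  have hF : Continuous (fun p : ℝ × ℝ => Gs σ (p.1 - p.2) * ‖DP b X p.1‖ ^ 2) := by
    apply Continuous.mul
    · exact hGc.comp (by fun_prop)
    · exact (hDc.comp continuous_fst).norm.pow 2
  have hpt : ∀ t ∈ Set.Icc A B, ∫ x in (A + w)..(B - w), Gs σ (t - x) * ‖DP b X t‖ ^ 2 ≤
      ‖DP b X t‖ ^ 2 := by
    intro t _
    rw [intervalIntegral.integral_mul_const]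
    have h1 : ∫ x in (A + w)..(B - w), Gs σ (t - x) ≤ 1 := by
      rw [intervalIntegral.integral_of_le hAB, ← Gs_total hσ,
        ← integral_sub_left_eq_self (Gs σ) volume t]
      exact setIntegral_le_integral ((Gs_integrable hσ).comp_sub_left t)
        (Eventually.of_forall fun x => Gs_nonneg hσ _)
    have h3 : 0 ≤ ‖DP b X t‖ ^ 2 := by positivity
    nlinarith
  have hswap : ∫ t in A..B, ∫ x in (A + w)..(B - w), Gs σ (t - x) * ‖DP b X t‖ ^ 2 =
      ∫ x in (A + w)..(B - w), ∫ t in A..B, Gs σ (t - x) * ‖DP b X t‖ ^ 2 := by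
    apply intervalIntegral_intervalIntegral_swap
    have h1 : IsCompact (Set.uIcc A B ×ˢ Set.uIcc (A + w) (B - w)) :=
      isCompact_uIcc.prod isCompact_uIcc
    exact (hF.continuousOn.integrableOn_compact h1).mono_set
      (Set.prod_mono Set.uIoc_subset_uIcc Set.uIoc_subset_uIcc)
  have hinner : ∀ x ∈ Set.Icc (A + w) (B - w),
      (∑ n ∈ Finset.Icc 1 X, ‖b n‖ ^ 2 - 1) - ‖EE b X σ x‖ ≤
      ∫ t in A..B, Gs σ (t - x) * ‖DP b X t‖ ^ 2 := by
    intro x hx
    have h1 := gauss_DP_lower b X σ x hσ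
    have h2 := (gauss_DP b X σ x hσ).1
    have hAB' : A ≤ B := by linarith
    have h3 := integral_add_compl (measurableSet_Ioc (a := A) (b := B)) h2
    rw [intervalIntegral.integral_of_le hAB']
    have h4 : ∫ t in (Set.Ioc A B)ᶜ, Gs σ (t - x) * ‖DP b X t‖ ^ 2 ≤ 1 := by
      have h5 : ∫ t in (Set.Ioc A B)ᶜ, Gs σ (t - x) * ‖DP b X t‖ ^ 2 ≤
          ∫ t in (Set.Ioc A B)ᶜ, D0 ^ 2 * Gs σ (t - x) := by
        refine setIntegral_mono_on h2.integrableOn
          (((Gs_integrable hσ).comp_sub_right x).const_mul _).integrableOn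
          measurableSet_Ioc.compl fun t _ => ?_
        have h6 := DP_le b X t
        have h7 := Gs_nonneg hσ (t - x)
        have h8 : ‖DP b X t‖ ^ 2 ≤ D0 ^ 2 := by gcongr
        rw [mul_comm]
        gcongr
      refine h5.trans ?_
      rw [integral_const_mul]
      have h9 : ∫ t in (Set.Ioc A B)ᶜ, Gs σ (t - x) ≤
          Real.sqrt 2 * Real.exp (-w ^ 2 / (4 * σ ^ 2)) := by
        have h10 : ∫ t in (Set.Ioc A B)ᶜ, Gs σ (t - x) ≤
            ∫ t in (Set.Ioc (x - w) (x + w))ᶜ, Gs σ (t - x) := by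
          apply setIntegral_mono_set ((Gs_integrable hσ).comp_sub_right x).integrableOn
          · exact Eventually.of_forall fun t => Gs_nonneg hσ _
          · apply LE.le.eventuallyLE
            intro t ht
            rw [Set.mem_compl_iff, Set.mem_Ioc] at ht ⊢
            intro h
            exact ht ⟨by linarith [hx.1, h.1], by linarith [hx.2, h.2]⟩
        have h11 := integral_add_compl (measurableSet_Ioc (a := x - w) (b := x + w))
          ((Gs_integrable hσ).comp_sub_right x)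
        have e0 : ∫ t : ℝ, Gs σ (t - x) = 1 := by
          rw [integral_sub_right_eq_self (Gs σ) x, Gs_total hσ]
        rw [e0, ← intervalIntegral.integral_of_le (by linarith),
          intervalIntegral.integral_comp_sub_right (fun y => Gs σ y)] at h11
        have e1 : x - w - x = -w := by ring
        have e2 : x + w - x = w := by ring
        rw [e1, e2] at h11
        linarith
      have h12 : 0 ≤ D0 ^ 2 := by positivity
      calc D0 ^ 2 * ∫ t in (Set.Ioc A B)ᶜ, Gs σ (t - x) ≤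
          D0 ^ 2 * (Real.sqrt 2 * Real.exp (-w ^ 2 / (4 * σ ^ 2))) := by gcongr
        _ ≤ 1 := hsm
    linarith
  have hcont2 : Continuous fun t => ∫ x in (A + w)..(B - w), Gs σ (t - x) * ‖DP b X t‖ ^ 2 :=
    intervalIntegral.continuous_parametric_intervalIntegral_of_continuous' hF _ _
  have hcont3 : Continuous fun x => ∫ t in A..B, Gs σ (t - x) * ‖DP b X t‖ ^ 2 := by
    have hF' : Continuous (Function.uncurry fun x t : ℝ => Gs σ (t - x) * ‖DP b X t‖ ^ 2) :=
      hF.comp (continuous_snd.prodMk continuous_fst)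
    exact intervalIntegral.continuous_parametric_intervalIntegral_of_continuous' hF' _ _
  calc (B - A - 2 * w) * (∑ n ∈ Finset.Icc 1 X, ‖b n‖ ^ 2 - 1) -
      ∫ x in (A + w)..(B - w), ‖EE b X σ x‖ =
      ∫ x in (A + w)..(B - w), ((∑ n ∈ Finset.Icc 1 X, ‖b n‖ ^ 2 - 1) - ‖EE b X σ x‖) := by
        rw [intervalIntegral.integral_sub (continuous_const.intervalIntegrable _ _)
          (hEc.norm.intervalIntegrable _ _), intervalIntegral.integral_const, smul_eq_mul]
        ring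
    _ ≤ ∫ x in (A + w)..(B - w), ∫ t in A..B, Gs σ (t - x) * ‖DP b X t‖ ^ 2 := by
        refine intervalIntegral.integral_mono_on hAB ?_ (hcont3.intervalIntegrable _ _) hinner
        exact (continuous_const.sub hEc.norm).intervalIntegrable _ _
    _ = ∫ t in A..B, ∫ x in (A + w)..(B - w), Gs σ (t - x) * ‖DP b X t‖ ^ 2 := hswap.symm
    _ ≤ ∫ t in A..B, ‖DP b X t‖ ^ 2 := by
        refine intervalIntegral.integral_mono_on (by linarith) (hcont2.intervalIntegrable _ _) ?_ hpt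
        exact (hDc.norm.pow 2).intervalIntegrable _ _

end H370.A2
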