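import Pool.Agent.H345R2.A2.EFb
import Pool.Agent.H345R2.A2.Local2
import Pool.Agent.H345R2.AS.Exc1

/-! The mean square of the zero sum, from below. -/

open Complex Filter Topology Set MeasureTheory
open scoped BigOperators ComplexConjugate

namespace H370.A2

open H370.AS

/-- truncation of the diagonal sum -/
lemma VV_trunc {a : ℕ → ℂ} (han : ∀ n, ‖a n‖ = ArithmeticFunction.vonMangoldt n) (u K : ℝ) (X : ℕ)
    (hK : 0 ≤ K) (hX : u + K ≤ Real.log (X + 1)) :
    VV u ≤ ∑ n ∈ Finset.Icc 1 X, ‖bb a u n‖ ^ 2 +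
      4 * (∑' n : ℕ, 1 / (n : ℝ) ^ 2) * (Real.exp (2 + 2 * u) * Real.exp (-K ^ 2 / 2)) := by
  classical
  have hterm : ∀ n ∈ Finset.Icc 1 X, ‖bb a u n‖ ^ 2 = (ArithmeticFunction.vonMangoldt n) ^ 2 / n *
      Real.exp (-(u - Real.log n) ^ 2) := by
    intro n hn
    have hn1 : 1 ≤ n := (Finset.mem_Icc.mp hn).1
    have hn0 : (0 : ℝ) < n := by exact_mod_cast hn1
    rw [norm_bb, mul_pow, mul_pow, inv_pow, Real.sq_sqrt hn0.le, ← Real.exp_nat_mul,
      ← div_eq_mul_inv, han]
    congr 2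
    push_cast; ring
  rw [Finset.sum_congr rfl hterm]
  set f : ℕ → ℝ := fun n => (ArithmeticFunction.vonMangoldt n) ^ 2 / n *
      Real.exp (-(u - Real.log n) ^ 2) with hf
  set E : ℝ := Real.exp (2 + 2 * u) * Real.exp (-K ^ 2 / 2) with hE
  have hE0 : 0 < E := by positivity
  have hfs : Summable f := VV_summable u
  have hgs : Summable fun n : ℕ => 4 * E * (1 / (n : ℝ) ^ 2) := sum_inv_sq.mul_left _
  have hkey : ∀ n, f n ≤ (if n ∈ Finset.Icc 1 X then f n else 0) + 4 * E * (1 / (n : ℝ) ^ 2) := by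
    intro n
    by_cases hn : n ∈ Finset.Icc 1 X
    · rw [if_pos hn]
      have : 0 ≤ 4 * E * (1 / (n : ℝ) ^ 2) := by positivity
      linarith
    · rw [if_neg hn, zero_add]
      rcases Nat.eq_zero_or_pos n with rfl | hn0
      · simp [hf]
      · have hnX : X + 1 ≤ n := by
          rw [Finset.mem_Icc] at hn
          omega
        have hn' : (0 : ℝ) < n := by exact_mod_cast hn0
        have hn1 : (1 : ℝ) ≤ n := by exact_mod_cast hn0
        have h1 : Real.log (X + 1) ≤ Real.log n :=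
          Real.log_le_log (by positivity) (by exact_mod_cast hnX)
        have h2 : K ≤ Real.log n - u := by linarith
        have h3 : Real.exp (-(u - Real.log n) ^ 2) ≤ E / (n : ℝ) ^ 2 := by
          have h4 : (n : ℝ) ^ 2 = Real.exp (2 * Real.log n) := by
            rw [mul_comm, Real.exp_mul, Real.exp_log hn']; norm_cast
          rw [h4, hE, ← Real.exp_add, ← Real.exp_sub]
          apply Real.exp_le_exp.2
          nlinarith [sq_nonneg (Real.log n - u - 2), mul_self_le_mul_self hK h2]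
        have h5 : (ArithmeticFunction.vonMangoldt n) ^ 2 / n ≤ 4 := by
          rw [div_le_iff₀ hn']
          have h6 : ArithmeticFunction.vonMangoldt n ≤ 2 * (n : ℝ) ^ (1 / 2 : ℝ) := by
            refine ArithmeticFunction.vonMangoldt_le_log.trans ?_
            have := Real.log_le_rpow_div hn'.le (ε := 1 / 2) (by norm_num)
            linarith
          calc (ArithmeticFunction.vonMangoldt n) ^ 2 ≤ (2 * (n : ℝ) ^ (1 / 2 : ℝ)) ^ 2 :=
                pow_le_pow_left₀ ArithmeticFunction.vonMangoldt_nonneg h6 2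
            _ = 4 * n := by
                rw [mul_pow, ← Real.rpow_natCast ((n : ℝ) ^ (1 / 2 : ℝ)), ← Real.rpow_mul hn'.le]
                norm_num
        calc f n ≤ 4 * (E / (n : ℝ) ^ 2) := by
              simp only [hf]
              gcongr
          _ = 4 * E * (1 / (n : ℝ) ^ 2) := by ring
  have hfin : Summable fun n : ℕ => (if n ∈ Finset.Icc 1 X then f n else 0) :=
    summable_of_ne_finset_zero (s := Finset.Icc 1 X) fun n hn => if_neg hn
  calc VV u = ∑' n, f n := rfl
    _ ≤ ∑' n : ℕ, ((if n ∈ Finset.Icc 1 X then f n else 0) + 4 * E * (1 / (n : ℝ) ^ 2)) :=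
        hfs.tsum_le_tsum hkey (hfin.add hgs)
    _ = ∑ n ∈ Finset.Icc 1 X, f n + 4 * E * ∑' n : ℕ, 1 / (n : ℝ) ^ 2 := by
        rw [hfin.tsum_add hgs, tsum_mul_left]
        congr 1
        rw [tsum_eq_sum (s := Finset.Icc 1 X) fun n hn => if_neg hn]
        exact Finset.sum_congr rfl fun n hn => if_pos hn
    _ = _ := by ring

/-- the mean square of the zero sum, from below -/
theorem JJ_lower {F : ℂ → ℂ} (hF : GoodL F) {a : ℕ → ℂ}
    (han : ∀ n, ‖a n‖ = ArithmeticFunction.vonMangoldt n)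
    (hld : ∀ s : ℂ, 1 < s.re → 1 ≤ s.im → deriv F s / F s = - ∑' n : ℕ, a n * (n : ℂ) ^ (-s)) :
    ∀ lam κ η : ℝ, 0 < lam → lam ≤ 1 → 0 < κ → 0 < η → η ≤ 1 →
    ∃ K1 K2 T0 : ℝ, 0 < K1 ∧ 0 < K2 ∧ 10 ≤ T0 ∧ ∀ T : ℝ, T0 ≤ T →
    ∀ A B : ℝ, T + 1 ≤ A → B ≤ 2 * T - 1 → 4 * Real.log T ≤ η * (B - A) →
      ∀ σ w : ℝ, ∀ X : ℕ, 0 < σ → 0 ≤ w → w ≤ η / 4 * (B - A) →
      (X : ℝ) ^ 4 * (Real.sqrt 2 * Real.exp (-w ^ 2 / (4 * σ ^ 2))) ≤ 1 →
      (lam + κ) * Real.log T ≤ Real.log (X + 1) →
      ∀ u : ℝ, 0 ≤ u → u ≤ lam * Real.log T →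
      1 / (2 * Real.pi * (1 + η)) * ((1 - η) * (B - A) * (Real.log T) ^ 2 * Real.exp (-u ^ 2) -
        K1 * ((B - A) * Real.log T) * Real.exp (2 * u - u ^ 2 / 2) +
          (1 - η) / (1 + η) * (B - A) * VV u -
          ∫ x in (A - w)..(B + w), ‖EE (bb a u) X σ x‖ ^ 2) - K2 * (B - A) ≤ JJ F A B u := by
  have ha : ∀ n, ‖a n‖ ≤ ArithmeticFunction.vonMangoldt n := fun n => (han n).le
  obtain ⟨C, T0, hC, hT0, hEF⟩ := ef_sub2 hF ha hld
  intro lam κ η hlam hlam1 hκ hη hη1
  set S := ∑' n : ℕ, 1 / (n : ℝ) ^ 2 with hS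
  have hS0 : 0 < S := sum_inv_sq.tsum_pos (fun n => by positivity) 1 (by norm_num)
  have ev : ∀ c : ℝ, 0 < c → ∀ᶠ T : ℝ in atTop, c * (Real.exp (4 + 2 * Real.log T) *
      Real.exp (-(κ * Real.log T) ^ 2 / 4)) ≤ 1 := by
    intro c hc
    have h1 : ∀ᶠ L : ℝ in atTop, Real.log c + 4 + 2 * L -
        (κ * L) ^ 2 / 4 ≤ 0 := by
      have h2 : ∀ᶠ L : ℝ in atTop, 3 * 4 / κ ^ 2 ≤ L := eventually_ge_atTop _
      have h3 : ∀ᶠ L : ℝ in atTop, Real.log c + 4 ≤ L := eventually_ge_atTop _
      filter_upwards [h2, h3, eventually_ge_atTop 0] with L h2 h3 h4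
      have h5 : 3 * L ≤ (κ * L) ^ 2 / 4 := by
        rw [div_le_iff₀ (by positivity)] at h2
        nlinarith
      linarith
    filter_upwards [Real.tendsto_log_atTop.eventually h1] with T hT
    have h6 : c = Real.exp (Real.log c) := (Real.exp_log hc).symm
    rw [h6, ← Real.exp_add, ← Real.exp_add]
    apply Real.exp_le_one_iff.mpr
    linarith
  obtain ⟨T2, hT2⟩ := ((ev (2 * S) (by positivity)).and (ev (4 * S) (by positivity))).exists_forall_of_atTop
  set CP := 2 * S with hCP
  refine ⟨2 * CP * Real.exp 2, 1 / (2 * Real.pi * (1 + η)) * (5 + 1 / η) + 1 / η * C ^ 2,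
    max T0 T2, by positivity, by positivity, hT0.trans (le_max_left _ _), fun T hT => ?_⟩
  have hTT0 : T0 ≤ T := (le_max_left _ _).trans hT
  obtain ⟨e2, e3⟩ := hT2 T ((le_max_right _ _).trans hT)
  intro A B hA hB hAB σ w X hσ hw0 hw1 hmass hXlog0 u hu hu1
  have hmain := hEF T hTT0 A B hA hB
  have hT10 : 10 ≤ T := hT0.trans hTT0
  have hTpos : 0 < T := by linarith
  have hU : 1 ≤ A := by linarith
  set H : ℝ := B - A with hHdef
  set L := Real.log T with hL
  have hL1 : 1 ≤ L := by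
    rw [hL, Real.le_log_iff_exp_le hTpos]
    have := Real.exp_one_lt_d9
    linarith
  have hH0 : 0 < H := by
    by_contra h
    push Not at h
    nlinarith
  have huL : u ≤ L := by nlinarith
  have hHH : η * H ≤ H := by nlinarith
  have hab : A + L ≤ B - L := by linarith
  have hlen : B - L - (A + L) ≤ H := by linarith
  have hlen2 : (1 - η) * H ≤ B - L - (A + L) - 2 * w := by linarith
  have hlen3 : (1 - η) * H ≤ B - L - (A + L) := by linarith
  -- restrict
  have hint := AA_sq_int hF (U2 := B) hU u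
  have hsplit : (∫ t in (A + L)..(B - L), ‖AA F A B u t‖ ^ 2) ≤ JJ F A B u := by
    unfold JJ
    rw [intervalIntegral.integral_of_le hab]
    exact setIntegral_le_integral hint (Eventually.of_forall fun t => by positivity)
  -- inner pointwise
  set c0 : ℝ := 1 / Real.sqrt (2 * Real.pi) with hc0
  have hc02 : c0 ^ 2 = 1 / (2 * Real.pi) := by
    rw [hc0, div_pow, one_pow, Real.sq_sqrt (by positivity)]
  have hc00 : 0 < c0 := by positivity
  have hpt : ∀ t ∈ Set.Icc (A + L) (B - L),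
      1 / (2 * Real.pi * (1 + η)) * (L ^ 2 * Real.exp (-u ^ 2) -
        2 * CP * Real.exp 2 * L * Real.exp (2 * u - u ^ 2 / 2) + ‖PP a u t‖ ^ 2) -
        1 / η * C ^ 2 ≤ ‖AA F A B u t‖ ^ 2 := by
    intro t ht
    have h1 := hmain u t hu huL ht.1 ht.2
    set M : ℂ := (c0 : ℂ) * (L * cexp (I * u * t) * Real.exp (-u ^ 2 / 2) - PP a u t) with hM
    have h2 := sq_young (x := AA F A B u t) (y := M - AA F A B u t) hη
    rw [add_sub_cancel] at h2
    have h3 : ‖M - AA F A B u t‖ ^ 2 ≤ C ^ 2 := by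
      have h4 : ‖M - AA F A B u t‖ ≤ C := by rw [norm_sub_rev]; exact h1
      gcongr
    have h5 : c0 * |L * Real.exp (-u ^ 2 / 2) - ‖PP a u t‖| ≤ ‖M‖ := by
      rw [hM, norm_mul, Complex.norm_real, Real.norm_of_nonneg hc00.le]
      apply mul_le_mul_of_nonneg_left _ hc00.le
      refine le_trans (le_of_eq ?_) (abs_norm_sub_norm_le _ _)
      rw [norm_mul, norm_mul, Complex.norm_real, Complex.norm_real,
        Real.norm_of_nonneg (by linarith), Real.norm_of_nonneg (Real.exp_pos _).le,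
        show (I * u * t : ℂ) = ((u * t : ℝ) : ℂ) * I by push_cast; ring,
        Complex.norm_exp_ofReal_mul_I, mul_one]
    have hPPb := PP_bound ha u t
    have h6 : 1 / (2 * Real.pi) * (L ^ 2 * Real.exp (-u ^ 2) -
        2 * CP * Real.exp 2 * L * Real.exp (2 * u - u ^ 2 / 2) + ‖PP a u t‖ ^ 2) ≤ ‖M‖ ^ 2 := by
      have h7 : (c0 * |L * Real.exp (-u ^ 2 / 2) - ‖PP a u t‖|) ^ 2 ≤ ‖M‖ ^ 2 :=
        pow_le_pow_left₀ (by positivity) h5 2
      refine le_trans ?_ h7
      rw [mul_pow, sq_abs, hc02]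
      apply mul_le_mul_of_nonneg_left _ (by positivity)
      have e5 : (Real.exp (-u ^ 2 / 2)) ^ 2 = Real.exp (-u ^ 2) := by
        rw [← Real.exp_nat_mul]; congr 1; push_cast; ring
      have e6 : Real.exp (-u ^ 2 / 2) * Real.exp (2 + 2 * u) =
          Real.exp 2 * Real.exp (2 * u - u ^ 2 / 2) := by
        rw [← Real.exp_add, ← Real.exp_add]; congr 1; ring
      have e7 : 2 * (L * Real.exp (-u ^ 2 / 2)) * ‖PP a u t‖ ≤
          2 * (L * Real.exp (-u ^ 2 / 2)) * (2 * S * Real.exp (2 + 2 * u)) := by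
        apply mul_le_mul_of_nonneg_left hPPb (by positivity)
      have e8 : 2 * (L * Real.exp (-u ^ 2 / 2)) * (2 * S * Real.exp (2 + 2 * u)) =
          2 * CP * Real.exp 2 * L * Real.exp (2 * u - u ^ 2 / 2) := by
        rw [hCP]
        linear_combination (2 * L * (2 * S)) * e6
      have e9 : (L * Real.exp (-u ^ 2 / 2) - ‖PP a u t‖) ^ 2 =
          L ^ 2 * (Real.exp (-u ^ 2 / 2)) ^ 2 -
            2 * (L * Real.exp (-u ^ 2 / 2)) * ‖PP a u t‖ + ‖PP a u t‖ ^ 2 := by ring
      rw [e9, e5]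
      linarith
    have h8 : 1 / (2 * Real.pi) * (L ^ 2 * Real.exp (-u ^ 2) -
        2 * CP * Real.exp 2 * L * Real.exp (2 * u - u ^ 2 / 2) + ‖PP a u t‖ ^ 2) ≤
        (1 + η) * ‖AA F A B u t‖ ^ 2 + (1 + 1 / η) * C ^ 2 := by
      refine h6.trans (h2.trans ?_)
      gcongr
    have h9 : 1 / (2 * Real.pi * (1 + η)) * (L ^ 2 * Real.exp (-u ^ 2) -
        2 * CP * Real.exp 2 * L * Real.exp (2 * u - u ^ 2 / 2) + ‖PP a u t‖ ^ 2) =
        (1 / (2 * Real.pi) * (L ^ 2 * Real.exp (-u ^ 2) -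
        2 * CP * Real.exp 2 * L * Real.exp (2 * u - u ^ 2 / 2) + ‖PP a u t‖ ^ 2)) / (1 + η) := by
      field_simp
    rw [h9, sub_le_iff_le_add, div_le_iff₀ (by linarith)]
    refine h8.trans (le_of_eq ?_)
    field_simp
    ring
  have hPPc := PP_cont ha u
  -- mean square of PP
  set Etl : ℝ := 2 * S * (Real.exp (4 + 2 * u) * Real.exp (-(κ * L) ^ 2 / 4)) with hEtl
  have hEtl0 : 0 ≤ Etl := by positivity
  have hEtl1 : Etl ≤ 1 := by
    refine le_trans ?_ e2
    rw [hEtl]
    gcongr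
  have hXlog : u + κ * L ≤ Real.log (X + 1) := by
    refine le_trans ?_ hXlog0
    have h0 : (lam + κ) * L = lam * L + κ * L := add_mul _ _ _
    rw [h0]
    linarith
  set IE : ℝ := ∫ x in (A - w)..(B + w), ‖EE (bb a u) X σ x‖ ^ 2 with hIE
  have hDc := DP_cont (bb a u) X
  have hEc := EE_cont (bb a u) X σ
  set V : ℝ := VV u with hV
  have hV0 : 0 ≤ V := VV_nonneg u
  have hVs : V - 1 ≤ ∑ n ∈ Finset.Icc 1 X, ‖bb a u n‖ ^ 2 := by
    have h1 := VV_trunc han u (κ * L) X (by positivity) hXlog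
    have h2 : 4 * S * (Real.exp (2 + 2 * u) * Real.exp (-(κ * L) ^ 2 / 2)) ≤ 1 := by
      refine le_trans ?_ e3
      have : 0 ≤ (κ * L) ^ 2 := sq_nonneg _
      have e1 : Real.exp (2 + 2 * u) ≤ Real.exp (4 + 2 * L) := Real.exp_le_exp.2 (by linarith)
      have e4 : Real.exp (-(κ * L) ^ 2 / 2) ≤ Real.exp (-(κ * L) ^ 2 / 4) :=
        Real.exp_le_exp.2 (by linarith)
      gcongr
    linarith
  -- the trivial bound
  have hD0 : (∑ n ∈ Finset.Icc 1 X, ‖bb a u n‖) ^ 2 ≤ (X : ℝ) ^ 4 := by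
    have h1 : ∑ n ∈ Finset.Icc 1 X, ‖bb a u n‖ ≤ (X : ℝ) * X := by
      calc ∑ n ∈ Finset.Icc 1 X, ‖bb a u n‖ ≤ ∑ n ∈ Finset.Icc 1 X, (X : ℝ) := by
            refine Finset.sum_le_sum fun n hn => ?_
            refine (bb_le ha u X n hn).trans ?_
            have hn1 : (1 : ℝ) ≤ n := by exact_mod_cast (Finset.mem_Icc.1 hn).1
            have hX1 : (1 : ℝ) ≤ X := by
              have : (n : ℝ) ≤ X := by exact_mod_cast (Finset.mem_Icc.1 hn).2
              linarith
            have h2 : 1 ≤ Real.sqrt n := Real.one_le_sqrt.2 hn1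
            rw [div_le_iff₀ (by linarith)]
            have h3 : Real.log X ≤ X := by
              have := Real.log_le_sub_one_of_pos (x := (X : ℝ)) (by linarith)
              linarith
            nlinarith
        _ = (X : ℝ) * X := by rw [Finset.sum_const, Nat.card_Icc, nsmul_eq_mul]; simp
    calc (∑ n ∈ Finset.Icc 1 X, ‖bb a u n‖) ^ 2 ≤ ((X : ℝ) * X) ^ 2 := by gcongr
      _ = (X : ℝ) ^ 4 := by ring
  have hms2 : (1 - η) / (1 + η) * H * V - 4 * H - IE - 1 / η * H ≤
      ∫ t in (A + L)..(B - L), ‖PP a u t‖ ^ 2 := by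
    have hterm : ∀ t : ℝ, ‖∑ n ∈ Finset.Icc 1 X, pterm a u t n‖ = ‖DP (bb a u) X t‖ := by
      intro t
      have h1 : ∑ n ∈ Finset.Icc 1 X, pterm a u t n = cexp (((t * u : ℝ) : ℂ) * I) *
          DP (bb a u) X t := by
        unfold DP
        rw [Finset.mul_sum]
        refine Finset.sum_congr rfl fun n _ => ?_
        unfold pterm bb
        have h3 : cexp (I * t * (u - Real.log n)) = cexp (((t * u : ℝ) : ℂ) * I) *
            cexp (-(I * t * Real.log n)) := by
          rw [← Complex.exp_add]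
          congr 1
          push_cast
          ring
        rw [h3]; ring
      rw [h1, norm_mul, Complex.norm_exp_ofReal_mul_I, one_mul]
    have h1 : ∫ t in (A + L)..(B - L), (1 / (1 + η) * ‖DP (bb a u) X t‖ ^ 2 - 1 / η) ≤
        ∫ t in (A + L)..(B - L), ‖PP a u t‖ ^ 2 := by
      refine intervalIntegral.integral_mono_on hab ?_ ((hPPc.norm.pow 2).intervalIntegrable _ _)
        fun t _ => ?_
      · exact ((continuous_const.mul (hDc.norm.pow 2)).sub continuous_const).intervalIntegrable _ _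
      · have h5 := sq_young (x := PP a u t)
          (y := ∑ n ∈ Finset.Icc 1 X, pterm a u t n - PP a u t) hη
        rw [add_sub_cancel, hterm] at h5
        have h6 := PP_trunc ha u t (κ * L) X (by positivity) hXlog
        have h7 : ‖∑ n ∈ Finset.Icc 1 X, pterm a u t n - PP a u t‖ ^ 2 ≤ 1 := by
          rw [norm_sub_rev]
          have h8 : ‖PP a u t - ∑ n ∈ Finset.Icc 1 X, pterm a u t n‖ ≤ 1 := h6.trans hEtl1
          exact pow_le_one₀ (norm_nonneg _) h8
        have h8 : ‖DP (bb a u) X t‖ ^ 2 ≤ (1 + η) * ‖PP a u t‖ ^ 2 + (1 + 1 / η) * 1 := by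
          refine h5.trans ?_
          gcongr
        rw [sub_le_iff_le_add, one_div_mul_eq_div, div_le_iff₀ (by linarith)]
        refine h8.trans (le_of_eq ?_)
        field_simp
        ring
    have hc2 : Continuous fun t => ‖DP (bb a u) X t‖ ^ 2 := hDc.norm.pow 2
    have h2 : ∫ t in (A + L)..(B - L), (1 / (1 + η) * ‖DP (bb a u) X t‖ ^ 2 - 1 / η) =
        1 / (1 + η) * (∫ t in (A + L)..(B - L), ‖DP (bb a u) X t‖ ^ 2) -
          (B - L - (A + L)) * (1 / η) := by
      rw [intervalIntegral.integral_sub (f := fun t => 1 / (1 + η) * ‖DP (bb a u) X t‖ ^ 2)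
        (g := fun _ => 1 / η) ((continuous_const.mul hc2).intervalIntegrable _ _)
        (continuous_const.intervalIntegrable _ _), intervalIntegral.integral_const_mul,
        intervalIntegral.integral_const, smul_eq_mul]
    have hww : A + L + w ≤ B - L - w := by
      have : 0 ≤ (1 - η) * H := mul_nonneg (by linarith) hH0.le
      linarith
    have h4 := local_lower (bb a u) X σ w (A + L) (B - L) hσ hw0 hww (by
      refine le_trans ?_ hmass
      gcongr)
    have h5 : ∫ x in (A + L + w)..(B - L - w), ‖EE (bb a u) X σ x‖ ≤ 2 * H + IE := by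
      calc ∫ x in (A + L + w)..(B - L - w), ‖EE (bb a u) X σ x‖ ≤
          ∫ x in (A - w)..(B + w), ‖EE (bb a u) X σ x‖ := by
            apply intervalIntegral.integral_mono_interval (by linarith) hww (by linarith)
            · exact Eventually.of_forall fun x => norm_nonneg _
            · exact hEc.norm.intervalIntegrable _ _
        _ ≤ ∫ x in (A - w)..(B + w), (1 + ‖EE (bb a u) X σ x‖ ^ 2) := by
            refine intervalIntegral.integral_mono_on (by linarith)
              (hEc.norm.intervalIntegrable _ _)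
              ((continuous_const.add (hEc.norm.pow 2)).intervalIntegrable _ _) fun x _ => ?_
            nlinarith [sq_nonneg (‖EE (bb a u) X σ x‖ - 1), norm_nonneg (EE (bb a u) X σ x)]
        _ = (H + 2 * w) + IE := by
            have hc2 : Continuous fun x => ‖EE (bb a u) X σ x‖ ^ 2 := hEc.norm.pow 2
            rw [intervalIntegral.integral_add (continuous_const.intervalIntegrable _ _)
              (hc2.intervalIntegrable _ _), intervalIntegral.integral_const,
              smul_eq_mul, hIE, hHdef]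
            ring
        _ ≤ 2 * H + IE := by linarith
    have h6 : (1 - η) * H * V - 2 * H ≤
        (B - L - (A + L) - 2 * w) * (∑ n ∈ Finset.Icc 1 X, ‖bb a u n‖ ^ 2 - 1) := by
      set ℓ := B - L - (A + L) - 2 * w with hℓ
      have hℓ0 : 0 ≤ ℓ := le_trans (mul_nonneg (by linarith) hH0.le) hlen2
      have hℓ1 : ℓ ≤ H := by linarith
      calc (1 - η) * H * V - 2 * H ≤ ℓ * V - 2 * ℓ := by
            have := mul_le_mul_of_nonneg_right hlen2 hV0
            linarith
        _ = ℓ * (V - 1 - 1) := by ring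
        _ ≤ _ := mul_le_mul_of_nonneg_left (by linarith) hℓ0
    have h7 : (1 - η) * H * V - 4 * H - IE ≤ ∫ t in (A + L)..(B - L), ‖DP (bb a u) X t‖ ^ 2 := by
      linarith
    have hIE0 : 0 ≤ IE := by
      rw [hIE]
      exact intervalIntegral.integral_nonneg (by linarith) fun x _ => by positivity
    have h8 : (1 - η) / (1 + η) * H * V - 4 * H - IE ≤
        1 / (1 + η) * (∫ t in (A + L)..(B - L), ‖DP (bb a u) X t‖ ^ 2) := by
      have h9 := mul_le_mul_of_nonneg_left h7 (show 0 ≤ 1 / (1 + η) by positivity)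
      refine le_trans ?_ h9
      have h10 : 1 / (1 + η) * ((1 - η) * H * V - 4 * H - IE) =
          (1 - η) / (1 + η) * H * V - 1 / (1 + η) * (4 * H + IE) := by ring
      rw [h10]
      have h11 : 1 / (1 + η) ≤ 1 := by
        rw [div_le_one (by linarith)]; linarith
      have h12 : 1 / (1 + η) * (4 * H + IE) ≤ 1 * (4 * H + IE) := by gcongr
      linarith
    refine le_trans ?_ h1
    rw [h2]
    have h13 : (B - L - (A + L)) * (1 / η) ≤ 1 / η * H := by
      rw [mul_comm]
      gcongr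
    linarith
  -- inner integral
  have hcP : Continuous fun t => ‖PP a u t‖ ^ 2 := hPPc.norm.pow 2
  set Mn : ℝ := L ^ 2 * Real.exp (-u ^ 2) with hMn
  set Cr : ℝ := 2 * CP * Real.exp 2 * L * Real.exp (2 * u - u ^ 2 / 2) with hCr
  have hMn0 : 0 ≤ Mn := by positivity
  have hCr0 : 0 ≤ Cr := by positivity
  set k : ℝ := 1 / (2 * Real.pi * (1 + η)) with hk
  have hk0 : 0 < k := by positivity
  have hinner : k * (((1 - η) * H) * Mn - H * Cr +
        ((1 - η) / (1 + η) * H * V - 4 * H - IE - 1 / η * H)) - H * (1 / η * C ^ 2) ≤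
      ∫ t in (A + L)..(B - L), ‖AA F A B u t‖ ^ 2 := by
    calc _ ≤ k * ((B - L - (A + L)) * Mn - (B - L - (A + L)) * Cr +
          ∫ t in (A + L)..(B - L), ‖PP a u t‖ ^ 2) - (B - L - (A + L)) * (1 / η * C ^ 2) := by
          have a1 : (1 - η) * H * Mn ≤ (B - L - (A + L)) * Mn :=
            mul_le_mul_of_nonneg_right hlen3 hMn0
          have a2 : (B - L - (A + L)) * Cr ≤ H * Cr := mul_le_mul_of_nonneg_right hlen hCr0
          have a3 : (B - L - (A + L)) * (1 / η * C ^ 2) ≤ H * (1 / η * C ^ 2) :=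
            mul_le_mul_of_nonneg_right hlen (by positivity)
          have a4 := mul_le_mul_of_nonneg_left (show ((1 - η) * H) * Mn - H * Cr +
            ((1 - η) / (1 + η) * H * V - 4 * H - IE - 1 / η * H) ≤
            (B - L - (A + L)) * Mn - (B - L - (A + L)) * Cr +
            ∫ t in (A + L)..(B - L), ‖PP a u t‖ ^ 2 by linarith) hk0.le
          linarith
      _ = ∫ t in (A + L)..(B - L), (k * (Mn - Cr + ‖PP a u t‖ ^ 2) - 1 / η * C ^ 2) := by
          rw [intervalIntegral.integral_sub (f := fun t => k * (Mn - Cr + ‖PP a u t‖ ^ 2))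
            (g := fun _ => 1 / η * C ^ 2)
            ((continuous_const.mul (continuous_const.add hcP)).intervalIntegrable _ _)
            (continuous_const.intervalIntegrable _ _), intervalIntegral.integral_const_mul,
            intervalIntegral.integral_add (f := fun _ => Mn - Cr) (g := fun t => ‖PP a u t‖ ^ 2)
            (continuous_const.intervalIntegrable _ _)
            (hcP.intervalIntegrable _ _), intervalIntegral.integral_const,
            intervalIntegral.integral_const, smul_eq_mul, smul_eq_mul]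
          ring
      _ ≤ _ := by
          refine intervalIntegral.integral_mono_on hab ?_ ?_ hpt
          · exact ((continuous_const.mul (continuous_const.add hcP)).sub
              continuous_const).intervalIntegrable _ _
          · exact ((AA_cont hF hU u).norm.pow 2).intervalIntegrable _ _
  refine le_trans ?_ (hinner.trans hsplit)
  have hfin : k * (((1 - η) * H) * Mn - H * Cr +
        ((1 - η) / (1 + η) * H * V - 4 * H - IE - 1 / η * H)) - H * (1 / η * C ^ 2) =
      k * ((1 - η) * H * L ^ 2 * Real.exp (-u ^ 2) -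
        2 * CP * Real.exp 2 * (H * L) * Real.exp (2 * u - u ^ 2 / 2) +
          (1 - η) / (1 + η) * H * V - IE) - (k * (4 + 1 / η) + 1 / η * C ^ 2) * H := by
    rw [hMn, hCr]; ring
  rw [hfin]
  have hk1 : k * (4 + 1 / η) * H ≤ k * (5 + 1 / η) * H := by
    have : 0 ≤ k * H := by positivity
    nlinarith
  nlinarith

end H370.A2
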