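import Pool.Agent.H345R2.A2.Main2

/-! Almost all short intervals: the pair sum against a Lipschitz test function. -/

open Complex Filter Topology Set MeasureTheory
open scoped BigOperators ComplexConjugate

namespace H370.A2

open H370.AS H295SI

/-- the hat function -/
noncomputable def hatf (β : ℝ) : ℝ := max 0 (1 - |β|)

lemma hatf_nonneg (β : ℝ) : 0 ≤ hatf β := le_max_left _ _

lemma hatf_lip (x y : ℝ) : |hatf x - hatf y| ≤ |x - y| := by
  unfold hatf
  have h1 := abs_max_sub_max_le_abs (1 - |x|) (1 - |y|) 0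
  rw [max_comm, max_comm 0 (1 - |y|)]
  refine h1.trans ?_
  have : 1 - |x| - (1 - |y|) = |y| - |x| := by ring
  rw [this]
  refine (abs_abs_sub_abs_le_abs_sub y x).trans ?_
  rw [abs_sub_comm]

lemma hatf_even (β : ℝ) : hatf (-β) = hatf β := by unfold hatf; rw [abs_neg]

lemma hatf_zero {β : ℝ} (h : 1 ≤ |β|) : hatf β = 0 := max_eq_left (by linarith)

lemma hatf_eq {β : ℝ} (h0 : 0 ≤ β) (h1 : β ≤ 1) : hatf β = 1 - β := by
  unfold hatf
  rw [abs_of_nonneg h0]
  exact max_eq_right (by linarith)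

/-- adding a multiple of the hat function makes a test function decreasing -/
lemma conv_add {φ : ℝ → ℝ} {K K' : ℝ} (hK : 0 ≤ K) (hK' : K ≤ K') (hK0 : 0 < K')
    (hlip : ∀ x y, |φ x - φ y| ≤ K * |x - y|) (heven : ∀ x, φ (-x) = φ x)
    (hz : ∀ x, 1 ≤ |x| → φ x = 0) : Conv (fun β => φ β + K' * hatf β) := by
  have hb : ∀ x, |φ x| ≤ K * hatf x := by
    have h0 : ∀ x, 0 ≤ x → |φ x| ≤ K * hatf x := by
      intro x hx
      rcases le_or_gt 1 x with h | h
      · rw [hz x (by rw [abs_of_nonneg hx]; exact h), hatf_zero (by rw [abs_of_nonneg hx]; exact h)]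
        simp
      · rw [hatf_eq hx h.le]
        have h1 := hlip x 1
        rw [hz 1 (by simp), sub_zero, abs_sub_comm x 1, abs_of_pos (by linarith : (0 : ℝ) < 1 - x)] at h1
        exact h1
    intro x
    rcases le_total 0 x with h | h
    · exact h0 x h
    · have h1 := h0 (-x) (by linarith)
      rw [heven, hatf_even] at h1
      exact h1
  refine ⟨?_, ?_, ?_, ?_, ?_⟩
  · intro α
    have h1 := neg_abs_le (φ α)
    have h2 := hb α
    have h3 := hatf_nonneg α
    show 0 ≤ φ α + K' * hatf α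
    nlinarith
  · intro x hx y hy hxy
    simp only [Set.mem_Ici] at hx hy
    show φ y + K' * hatf y ≤ φ x + K' * hatf x
    rcases le_or_gt y 1 with h | h
    · rw [hatf_eq hx (hxy.trans h), hatf_eq hy h]
      have h1 := (abs_le.1 (hlip x y)).1
      rw [abs_sub_comm x y, abs_of_nonneg (sub_nonneg.2 hxy)] at h1
      nlinarith
    · have hy1 : 1 ≤ |y| := by rw [abs_of_nonneg hy]; exact h.le
      rw [hz y hy1, hatf_zero hy1]
      have h1 := neg_abs_le (φ x)
      have h2 := hb x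
      have h3 := hatf_nonneg x
      nlinarith
  · refine ⟨K + K', by linarith, fun x y => ?_⟩
    have h1 := hlip x y
    have h2 := hatf_lip x y
    have e : (φ x + K' * hatf x) - (φ y + K' * hatf y) = (φ x - φ y) + K' * (hatf x - hatf y) := by
      ring
    show |(φ x + K' * hatf x) - (φ y + K' * hatf y)| ≤ (K + K') * |x - y|
    rw [e]
    calc |(φ x - φ y) + K' * (hatf x - hatf y)| ≤ |φ x - φ y| + |K' * (hatf x - hatf y)| :=
          abs_add_le _ _
      _ = |φ x - φ y| + K' * |hatf x - hatf y| := by rw [abs_mul, abs_of_pos hK0]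
      _ ≤ K * |x - y| + K' * |x - y| := by gcongr
      _ = _ := by ring
  · intro α
    show φ (-α) + K' * hatf (-α) = φ α + K' * hatf α
    rw [heven, hatf_even]
  · intro α hα
    have h1 : 1 ≤ |α| := by rw [abs_of_pos (by linarith)]; exact hα.le
    show φ α + K' * hatf α = 0
    rw [hz α h1, hatf_zero h1]
    ring

lemma abs_sub_le_add (x y : ℝ) : |x - y| ≤ |x| + |y| := by
  rw [sub_eq_add_neg, ← abs_neg y]
  exact abs_add_le _ _

lemma int_sym (g : ℝ → ℝ) (hg : Continuous g) (μ : ℝ) :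
    ∫ α in (-μ)..μ, g α = ∫ α in (0 : ℝ)..μ, (g α + g (-α)) := by
  rw [← intervalIntegral.integral_add_adjacent_intervals (b := 0) (hg.intervalIntegrable _ _)
    (hg.intervalIntegrable _ _)]
  have h5 : ∫ α in (-μ)..0, g α = ∫ α in (0 : ℝ)..μ, g (-α) := by
    have := intervalIntegral.integral_comp_neg (a := (0 : ℝ)) (b := μ) g
    rw [neg_zero] at this
    exact this.symm
  have hg2 : Continuous fun α : ℝ => g (-α) := hg.comp continuous_neg
  rw [h5, intervalIntegral.integral_add (hg.intervalIntegrable _ _)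
    (hg2.intervalIntegrable _ _)]
  ring

/-- the integral against an even function, in terms of the symmetrised test function -/
lemma int_even {ψ f : ℝ → ℝ} (hψ : Continuous ψ) (hf : Continuous f) (hfe : ∀ x, f (-x) = f x)
    (μ : ℝ) : ∫ α in (-μ)..μ, ψ α * f α =
      2 * ∫ β in (0 : ℝ)..1, (μ * ((ψ (μ * β) + ψ (-(μ * β))) / 2)) * f (μ * β) := by
  rw [int_sym (fun α => ψ α * f α) (hψ.mul hf) μ]
  have h1 : ∀ α : ℝ, ψ α * f α + ψ (-α) * f (-α) = 2 * ((ψ α + ψ (-α)) / 2 * f α) := by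
    intro α
    rw [hfe]; ring
  simp_rw [h1]
  rw [intervalIntegral.integral_const_mul]
  congr 1
  have h2 := intervalIntegral.mul_integral_comp_mul_left (a := (0 : ℝ)) (b := 1)
    (f := fun α => (ψ α + ψ (-α)) / 2 * f α) μ
  rw [mul_zero, mul_one] at h2
  rw [← h2, ← intervalIntegral.integral_const_mul]
  refine intervalIntegral.integral_congr fun β _ => ?_
  show μ * ((ψ (μ * β) + ψ (-(μ * β))) / 2 * f (μ * β)) = _
  ring

/-- the normalised pair function at `u`, the sum over pairs of zeros with Gaussian weight -/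
noncomputable def JN (F : ℂ → ℂ) (A B u : ℝ) : ℝ := JJ F A B u / Real.sqrt Real.pi

theorem almost_psi {F : ℂ → ℂ} (hF : GoodL F) {a : ℕ → ℂ}
    (han : ∀ n, ‖a n‖ = ArithmeticFunction.vonMangoldt n)
    (hld : ∀ s : ℂ, 1 < s.re → 1 ≤ s.im → deriv F s / F s = - ∑' n : ℕ, a n * (n : ℂ) ^ (-s))
    {τ : ℝ} (hτ : 0 ≤ τ) (hB : BZt F τ) (η0 μ ε : ℝ) (hη0 : 0 < η0)
    (hη1 : η0 < 1) (hμ : 0 < μ) (hgap : 2 * μ < 1 + η0) (hgap2 : 2 * τ * μ < η0)
    (hε : 0 < ε) (ψ : ℝ → ℝ) (K : ℝ) (hlip : ∀ x y, |ψ x - ψ y| ≤ K * |x - y|)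
    (hz : ∀ x, μ ≤ |x| → ψ x = 0) :
    ∃ δ : ℝ, 0 < δ ∧ ∃ T0 : ℝ, 10 ≤ T0 ∧ ∀ T : ℝ, T0 ≤ T → ∀ H : ℝ,
      T ^ η0 ≤ H → H ≤ T / 8 →
      volume {t : ℝ | t ∈ Set.Icc T (2 * T) ∧
        ¬ (|(NN F t (t + H) : ℝ) - H * Real.log T / (2 * Real.pi)| ≤
            ε * (H * Real.log T / (2 * Real.pi)) ∧
          |(∫ α in (-μ)..μ, ψ α * JN F t (t + H) (α * Real.log T)) -
            (H * Real.log T / (2 * Real.pi)) * (ψ 0 + ∫ α in (-μ)..μ, |α| * ψ α)| ≤
            ε * (H * Real.log T / (2 * Real.pi)))} ≤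
        ENNReal.ofReal (T ^ (1 - δ)) := by
  have hK : 0 ≤ K := by
    have h1 := hlip 1 0
    have h2 := abs_nonneg (ψ 1 - ψ 0)
    simp at h1
    linarith
  have hψc : Continuous ψ := by
    have : LipschitzWith K.toNNReal ψ := by
      refine LipschitzWith.of_dist_le_mul fun x y => ?_
      rw [Real.dist_eq, Real.dist_eq, Real.coe_toNNReal _ hK]
      exact hlip x y
    exact this.continuous
  set φ : ℝ → ℝ := fun β => μ * ((ψ (μ * β) + ψ (-(μ * β))) / 2) with hφ
  set K2 : ℝ := K * μ ^ 2 + 1 with hK2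
  have hK20 : 0 < K2 := by positivity
  have hφlip : ∀ x y, |φ x - φ y| ≤ (K * μ ^ 2) * |x - y| := by
    intro x y
    have h1 := hlip (μ * x) (μ * y)
    have h2 := hlip (-(μ * x)) (-(μ * y))
    have e1 : |μ * x - μ * y| = μ * |x - y| := by
      rw [← mul_sub, abs_mul, abs_of_pos hμ]
    have e2 : |-(μ * x) - -(μ * y)| = μ * |x - y| := by
      rw [neg_sub_neg, ← mul_sub, abs_mul, abs_of_pos hμ, abs_sub_comm]
    rw [e1] at h1
    rw [e2] at h2
    have e3 : φ x - φ y = μ / 2 * ((ψ (μ * x) - ψ (μ * y)) + (ψ (-(μ * x)) - ψ (-(μ * y)))) := by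
      simp only [hφ]; ring
    rw [e3, abs_mul, abs_of_pos (by positivity : 0 < μ / 2)]
    calc μ / 2 * |(ψ (μ * x) - ψ (μ * y)) + (ψ (-(μ * x)) - ψ (-(μ * y)))| ≤
        μ / 2 * (|ψ (μ * x) - ψ (μ * y)| + |ψ (-(μ * x)) - ψ (-(μ * y))|) := by
          gcongr; exact abs_add_le _ _
      _ ≤ μ / 2 * (K * (μ * |x - y|) + K * (μ * |x - y|)) := by gcongr
      _ = _ := by ring
  have hφe : ∀ x, φ (-x) = φ x := by
    intro x
    simp only [hφ]
    rw [mul_neg, neg_neg]
    ring
  have hφz : ∀ x, 1 ≤ |x| → φ x = 0 := by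
    intro x hx
    simp only [hφ]
    have h1 : μ ≤ |μ * x| := by
      rw [abs_mul, abs_of_pos hμ]
      nlinarith
    rw [hz _ h1, hz (-(μ * x)) (by rw [abs_neg]; exact h1)]
    ring
  have hc1 := conv_add (by positivity) (by rw [hK2]; linarith : K * μ ^ 2 ≤ K2) hK20 hφlip hφe hφz
  have hc2 : Conv (fun β => (fun _ => (0 : ℝ)) β + K2 * hatf β) :=
    conv_add (K := 0) le_rfl hK20.le hK20 (by intro x y; simp) (by intro x; rfl) (by intro x _; rfl)
  set R1 : ℝ → ℝ := fun β => φ β + K2 * hatf β with hR1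
  set R2 : ℝ → ℝ := fun β => (fun _ => (0 : ℝ)) β + K2 * hatf β with hR2
  obtain ⟨δ1, hδ1, T1, hT1, h1⟩ := almost_pairs hc1 hF han hld hτ hB η0 μ (ε / 2) hη0 hη1 hμ hgap
    hgap2 (by positivity)
  obtain ⟨δ2, hδ2, T2, hT2, h2⟩ := almost_pairs hc2 hF han hld hτ hB η0 μ (ε / 2) hη0 hη1 hμ hgap
    hgap2 (by positivity)
  set δ : ℝ := min δ1 δ2 / 2 with hδ
  have hδ0 : 0 < δ := by rw [hδ]; have := lt_min hδ1 hδ2; positivity
  have hδa : 2 * δ ≤ δ1 := by rw [hδ]; have := min_le_left δ1 δ2; linarith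
  have hδb : 2 * δ ≤ δ2 := by rw [hδ]; have := min_le_right δ1 δ2; linarith
  obtain ⟨T3, hT3⟩ := ((tendsto_rpow_atTop hδ0).eventually_ge_atTop 2).exists_forall_of_atTop
  refine ⟨δ, hδ0, max T1 (max T2 T3), hT1.trans (le_max_left _ _), fun T hT H hH1 hH2 => ?_⟩
  have hTT1 : T1 ≤ T := (le_max_left _ _).trans hT
  have hTT2 : T2 ≤ T := ((le_max_left _ _).trans (le_max_right _ _)).trans hT
  have hTT3 : T3 ≤ T := ((le_max_right _ _).trans (le_max_right _ _)).trans hT
  have e3 := hT3 T hTT3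
  have hT10 : 10 ≤ T := hT1.trans hTT1
  have hTpos : 0 < T := by linarith
  have hLpos : 0 < Real.log T := Real.log_pos (by linarith)
  have hHpos : 0 < H := lt_of_lt_of_le (Real.rpow_pos_of_pos hTpos _) hH1
  have hM0 : 0 < H * Real.log T / (2 * Real.pi) := by positivity
  -- the constants
  have hconst : cR R1 μ - cR R2 μ = ψ 0 + ∫ α in (-μ)..μ, |α| * ψ α := by
    have hφc : Continuous φ := by simp only [hφ]; fun_prop
    have hhc : Continuous hatf := by unfold hatf; fun_prop
    have e1 : ∫ α in (0 : ℝ)..1, α * R1 α = (∫ α in (0 : ℝ)..1, α * φ α) +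
        ∫ α in (0 : ℝ)..1, α * (K2 * hatf α) := by
      have q1 : Continuous fun α : ℝ => α * φ α := continuous_id.mul hφc
      have q2 : Continuous fun α : ℝ => α * (K2 * hatf α) :=
        continuous_id.mul (continuous_const.mul hhc)
      rw [← intervalIntegral.integral_add (q1.intervalIntegrable _ _)
        (q2.intervalIntegrable _ _)]
      refine intervalIntegral.integral_congr fun α _ => ?_
      simp only [hR1]
      ring
    have e2 : ∫ α in (0 : ℝ)..1, α * R2 α = ∫ α in (0 : ℝ)..1, α * (K2 * hatf α) := by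
      refine intervalIntegral.integral_congr fun α _ => ?_
      simp only [hR2]
      ring
    have e3 : ∫ α in (-μ)..μ, |α| * ψ α = 2 * μ * ∫ α in (0 : ℝ)..1, α * φ α := by
      have h3 := int_even hψc continuous_abs (fun x => abs_neg x) μ
      have h4 : ∫ α in (-μ)..μ, |α| * ψ α = ∫ α in (-μ)..μ, ψ α * |α| :=
        intervalIntegral.integral_congr fun α _ => mul_comm _ _
      rw [h4, h3, mul_assoc, ← intervalIntegral.integral_const_mul (μ : ℝ)]
      congr 1
      refine intervalIntegral.integral_congr fun β hβ => ?_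
      rw [Set.uIcc_of_le zero_le_one] at hβ
      simp only [hφ]
      rw [abs_mul, abs_of_pos hμ, abs_of_nonneg hβ.1]
      ring
    have e4 : R1 0 - R2 0 = μ * ψ 0 := by
      simp only [hR1, hR2, hφ]
      rw [mul_zero, neg_zero]
      ring
    unfold cR
    rw [e1, e2, e3]
    have e5 : R1 0 = R2 0 + μ * ψ 0 := by linarith
    rw [e5]
    have e6 : (R2 0 + μ * ψ 0) / μ = R2 0 / μ + ψ 0 := by field_simp
    rw [e6]
    ring
  have hsub : {t : ℝ | t ∈ Set.Icc T (2 * T) ∧
        ¬ (|(NN F t (t + H) : ℝ) - H * Real.log T / (2 * Real.pi)| ≤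
            ε * (H * Real.log T / (2 * Real.pi)) ∧
          |(∫ α in (-μ)..μ, ψ α * JN F t (t + H) (α * Real.log T)) -
            (H * Real.log T / (2 * Real.pi)) * (ψ 0 + ∫ α in (-μ)..μ, |α| * ψ α)| ≤
            ε * (H * Real.log T / (2 * Real.pi)))} ⊆
      {t : ℝ | t ∈ Set.Icc T (2 * T) ∧
        ¬ (|(NN F t (t + H) : ℝ) - H * Real.log T / (2 * Real.pi)| ≤
            ε / 2 * (H * Real.log T / (2 * Real.pi)) ∧
          |PS R1 F t (t + H) (μ * Real.log T) - (H * Real.log T / (2 * Real.pi)) * cR R1 μ| ≤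
            ε / 2 * (H * Real.log T / (2 * Real.pi)))} ∪
      {t : ℝ | t ∈ Set.Icc T (2 * T) ∧
        ¬ (|(NN F t (t + H) : ℝ) - H * Real.log T / (2 * Real.pi)| ≤
            ε / 2 * (H * Real.log T / (2 * Real.pi)) ∧
          |PS R2 F t (t + H) (μ * Real.log T) - (H * Real.log T / (2 * Real.pi)) * cR R2 μ| ≤
            ε / 2 * (H * Real.log T / (2 * Real.pi)))} := by
    intro t ht
    obtain ⟨ht1, ht2⟩ := ht
    by_contra hcon
    rw [Set.mem_union, not_or] at hcon
    obtain ⟨hc3, hc4⟩ := hcon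
    have g12 : |(NN F t (t + H) : ℝ) - H * Real.log T / (2 * Real.pi)| ≤
            ε / 2 * (H * Real.log T / (2 * Real.pi)) ∧
          |PS R1 F t (t + H) (μ * Real.log T) - (H * Real.log T / (2 * Real.pi)) * cR R1 μ| ≤
            ε / 2 * (H * Real.log T / (2 * Real.pi)) := by
      by_contra h
      exact hc3 ⟨ht1, h⟩
    have g13 : |(NN F t (t + H) : ℝ) - H * Real.log T / (2 * Real.pi)| ≤
            ε / 2 * (H * Real.log T / (2 * Real.pi)) ∧
          |PS R2 F t (t + H) (μ * Real.log T) - (H * Real.log T / (2 * Real.pi)) * cR R2 μ| ≤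
            ε / 2 * (H * Real.log T / (2 * Real.pi)) := by
      by_contra h
      exact hc4 ⟨ht1, h⟩
    obtain ⟨g1, g2⟩ := g12
    obtain ⟨-, g3⟩ := g13
    apply ht2
    have hU : 1 ≤ t := by linarith [ht1.1]
    have hJc := JJ_cont hF (U2 := t + H) hU
    have hkey : ∫ α in (-μ)..μ, ψ α * JN F t (t + H) (α * Real.log T) =
        PS R1 F t (t + H) (μ * Real.log T) - PS R2 F t (t + H) (μ * Real.log T) := by
      have hfc : Continuous fun α : ℝ => JN F t (t + H) (α * Real.log T) := by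
        unfold JN
        exact (hJc.comp (by fun_prop)).div_const _
      have hfe : ∀ α : ℝ, JN F t (t + H) (-α * Real.log T) = JN F t (t + H) (α * Real.log T) := by
        intro α
        unfold JN
        rw [neg_mul, JJ_even hF hU]
      rw [int_even hψc hfc hfe μ]
      have hi1 : IntervalIntegrable (fun α : ℝ => R1 α *
          JJ F t (t + H) (μ * Real.log T * α)) volume 0 1 :=
        ((H613SI.conv_cont hc1).mul (hJc.comp (by fun_prop))).intervalIntegrable _ _
      have hi2 : IntervalIntegrable (fun α : ℝ => R2 α *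
          JJ F t (t + H) (μ * Real.log T * α)) volume 0 1 :=
        ((H613SI.conv_cont hc2).mul (hJc.comp (by fun_prop))).intervalIntegrable _ _
      unfold PS
      rw [← mul_sub, ← intervalIntegral.integral_sub hi1 hi2]
      have h5 : (2 : ℝ) / Real.sqrt Real.pi = 2 * (1 / Real.sqrt Real.pi) := by ring
      rw [h5, mul_assoc, ← intervalIntegral.integral_const_mul (1 / Real.sqrt Real.pi)]
      congr 1
      refine intervalIntegral.integral_congr fun β _ => ?_
      simp only [hR1, hR2, hφ, JN]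
      have h6 : μ * Real.log T * β = μ * β * Real.log T := by ring
      rw [h6]
      ring
    constructor
    · have : 0 ≤ ε / 2 * (H * Real.log T / (2 * Real.pi)) := by positivity
      linarith
    · rw [hkey, ← hconst]
      have h7 : PS R1 F t (t + H) (μ * Real.log T) - PS R2 F t (t + H) (μ * Real.log T) -
          (H * Real.log T / (2 * Real.pi)) * (cR R1 μ - cR R2 μ) =
          (PS R1 F t (t + H) (μ * Real.log T) - (H * Real.log T / (2 * Real.pi)) * cR R1 μ) -
          (PS R2 F t (t + H) (μ * Real.log T) - (H * Real.log T / (2 * Real.pi)) * cR R2 μ) := by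
        ring
      rw [h7]
      refine (abs_sub_le_add _ _).trans ?_
      linarith
  refine (measure_mono hsub).trans ((measure_union_le _ _).trans ?_)
  refine (add_le_add (h1 T hTT1 H hH1 hH2) (h2 T hTT2 H hH1 hH2)).trans ?_
  rw [← ENNReal.ofReal_add (by positivity) (by positivity)]
  apply ENNReal.ofReal_le_ofReal
  have hp : ∀ x : ℝ, 2 * δ ≤ x → T ^ (1 - x) ≤ T ^ (1 - 2 * δ) := fun x hx =>
    Real.rpow_le_rpow_of_exponent_le (by linarith) (by linarith)
  have p1 := hp δ1 hδa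
  have p2 := hp δ2 hδb
  have h3 : T ^ (1 - δ) = T ^ δ * T ^ (1 - 2 * δ) := by
    rw [← Real.rpow_add hTpos]; congr 1; ring
  have h4 : 0 < T ^ (1 - 2 * δ) := Real.rpow_pos_of_pos hTpos _
  rw [h3]
  nlinarith

end H370.A2
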