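import Pool.Agent.H345R2.A2.PC2
import Pool.Agent.H345R2.AS.BZ

/-! Almost all short intervals: the pair sum. -/

open Complex Filter Topology Set MeasureTheory
open scoped BigOperators ComplexConjugate

namespace H370.A2

open H370.AS H295SI

/-- density hypothesis: few points are near a zero with real part above `1/2 + τ` -/
def BZt (F : ℂ → ℂ) (τ : ℝ) : Prop := ∃ δ : ℝ, 0 < δ ∧ ∃ T0 : ℝ, ∀ T : ℝ, T0 ≤ T →
  ∀ H : ℝ, 0 ≤ H → H ≤ T →
  volume {t : ℝ | t ∈ Set.Icc T (2 * T) ∧ ∃ s : ℂ, F s = 0 ∧ 1 / 2 + τ < s.re ∧ s.re < 1 ∧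
    (|s.im - t| ≤ 3 * Real.log T ∨ |s.im - (t + H)| ≤ 3 * Real.log T)} ≤
      ENNReal.ofReal (T ^ (1 - δ))

theorem almost_pairs {R : ℝ → ℝ} (hR : Conv R) {F : ℂ → ℂ} (hF : GoodL F) {a : ℕ → ℂ}
    (han : ∀ n, ‖a n‖ = ArithmeticFunction.vonMangoldt n)
    (hld : ∀ s : ℂ, 1 < s.re → 1 ≤ s.im → deriv F s / F s = - ∑' n : ℕ, a n * (n : ℂ) ^ (-s))
    {τ : ℝ} (hτ : 0 ≤ τ) (hB : BZt F τ) (η0 μ ε : ℝ) (hη0 : 0 < η0)
    (hη1 : η0 < 1) (hμ : 0 < μ) (hgap : 2 * μ < 1 + η0) (hgap2 : 2 * τ * μ < η0)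
    (hε : 0 < ε) : ∃ δ : ℝ, 0 < δ ∧ ∃ T0 : ℝ, 10 ≤ T0 ∧ ∀ T : ℝ, T0 ≤ T → ∀ H : ℝ,
      T ^ η0 ≤ H → H ≤ T / 8 →
      volume {t : ℝ | t ∈ Set.Icc T (2 * T) ∧
        ¬ (|(NN F t (t + H) : ℝ) - H * Real.log T / (2 * Real.pi)| ≤
            ε * (H * Real.log T / (2 * Real.pi)) ∧
          |PS R F t (t + H) (μ * Real.log T) - (H * Real.log T / (2 * Real.pi)) * cR R μ| ≤
            ε * (H * Real.log T / (2 * Real.pi)))} ≤
        ENNReal.ofReal (T ^ (1 - δ)) := by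
  have ha : ∀ n, ‖a n‖ ≤ ArithmeticFunction.vonMangoldt n := fun n => (han n).le
  -- choose `lam`
  obtain ⟨lam, hlam1, hlam2, hlam3⟩ : ∃ lam : ℝ, μ < lam ∧ 2 * lam < 1 + η0 ∧
      2 * τ * lam < η0 := by
    have e1 : ∀ᶠ x : ℝ in 𝓝[>] μ, μ < x := self_mem_nhdsWithin
    have e2 : ∀ᶠ x : ℝ in 𝓝[>] μ, 2 * x < 1 + η0 := nhdsWithin_le_nhds
      ((continuous_const.mul continuous_id).continuousAt.eventually (gt_mem_nhds hgap))
    have e3 : ∀ᶠ x : ℝ in 𝓝[>] μ, 2 * τ * x < η0 := nhdsWithin_le_nhds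
      ((continuous_const.mul continuous_id).continuousAt.eventually (gt_mem_nhds hgap2))
    obtain ⟨x, ⟨h1, h2⟩, h3⟩ := ((e1.and e2).and e3).exists
    exact ⟨x, h1, h2, h3⟩
  have hlam0 : 0 < lam := hμ.trans hlam1
  have hlamle : lam ≤ 1 := by linarith
  obtain ⟨κ, hκ, hexc⟩ := exc_set hR η0 lam hη0 hη1 hlam0 hlam2
  obtain ⟨T1, hT1, hexc⟩ := hexc κ hκ le_rfl
  set r : ℝ := (2 * τ * lam + η0) / 2 with hr
  have hr0 : 0 < r := by positivity
  have hr1 : r < 1 := by rw [hr]; linarith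
  have hrgap : 2 * τ * lam < r := by rw [hr]; linarith
  have hrη : r < η0 := by rw [hr]; linarith
  obtain ⟨θ, hθ0, hθ1, T2, hT2, hm⟩ := pair_two hR hF han hld hτ r μ lam (κ / 2) ε hr0 hr1 hμ
    hlam1 hlamle hrgap (by positivity) hε
  obtain ⟨δ1, hδ1, T3, hBZ⟩ := hB
  set δ : ℝ := min κ δ1 / 2 with hδ
  have hδ0 : 0 < δ := by rw [hδ]; have := lt_min hκ hδ1; positivity
  have hδκ : 2 * δ ≤ κ := by rw [hδ]; have := min_le_left κ δ1; linarith
  have hδδ : 2 * δ ≤ δ1 := by rw [hδ]; have := min_le_right κ δ1; linarith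
  -- eventual facts
  have ev1 : ∀ᶠ T : ℝ in atTop, (2 * T) ^ r ≤ T ^ η0 := by
    have h1 : ∀ᶠ T : ℝ in atTop, (2 : ℝ) ^ r ≤ T ^ (η0 - r) :=
      (tendsto_rpow_atTop (by linarith)).eventually_ge_atTop _
    filter_upwards [h1, eventually_gt_atTop 0] with T h1 h2
    calc (2 * T) ^ r = 2 ^ r * T ^ r := Real.mul_rpow (by norm_num) h2.le
      _ ≤ T ^ (η0 - r) * T ^ r := by gcongr
      _ = T ^ η0 := by rw [← Real.rpow_add h2]; congr 1; ring
  have ev2 : ∀ᶠ T : ℝ in atTop, (lam + κ / 2) * Real.log 2 / (κ / 2) ≤ Real.log T :=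
    Real.tendsto_log_atTop.eventually_ge_atTop _
  have ev3 : ∀ᶠ T : ℝ in atTop,
      Real.sqrt 2 * Real.exp (-((θ / 4) ^ 2 * T ^ (2 * κ)) / 4) ≤ θ / (1 + θ) := by
    have h1 : Tendsto (fun T : ℝ => Real.sqrt 2 * Real.exp (-((θ / 4) ^ 2 * T ^ (2 * κ)) / 4))
        atTop (𝓝 (Real.sqrt 2 * 0)) := by
      apply Tendsto.const_mul
      apply Real.tendsto_exp_atBot.comp
      have h2 : Tendsto (fun T : ℝ => (θ / 4) ^ 2 / 4 * T ^ (2 * κ)) atTop atTop :=
        (tendsto_rpow_atTop (by positivity)).const_mul_atTop (by positivity)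
      refine (tendsto_neg_atTop_atBot.comp h2).congr fun T => ?_
      simp only [Function.comp]
      ring
    rw [mul_zero] at h1
    exact h1.eventually (ge_mem_nhds (by positivity))
  have ev4 : ∀ᶠ T : ℝ in atTop, 3 ≤ T ^ δ := (tendsto_rpow_atTop hδ0).eventually_ge_atTop _
  have ev5 : ∀ᶠ T : ℝ in atTop, 2 * Real.log 2 ≤ Real.log T :=
    Real.tendsto_log_atTop.eventually_ge_atTop _
  have ev6 : ∀ᶠ T : ℝ in atTop,
      (4 * (lam + κ) + 1) * Real.log T ≤ (θ / 4) ^ 2 / 4 * T ^ (2 * κ) := by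
    have hpos : 0 < 4 * (lam + κ) + 1 := by positivity
    have h1 := (isLittleO_log_rpow_atTop (show (0 : ℝ) < 2 * κ by positivity)).bound
      (show (0 : ℝ) < (θ / 4) ^ 2 / 4 / (4 * (lam + κ) + 1) by positivity)
    filter_upwards [h1, eventually_ge_atTop 1] with T hT hT1
    have hl : 0 ≤ Real.log T := Real.log_nonneg hT1
    rw [Real.norm_of_nonneg hl, Real.norm_of_nonneg (by positivity)] at hT
    calc (4 * (lam + κ) + 1) * Real.log T ≤ (4 * (lam + κ) + 1) *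
        ((θ / 4) ^ 2 / 4 / (4 * (lam + κ) + 1) * T ^ (2 * κ)) := by gcongr
      _ = _ := by field_simp
  obtain ⟨T4, hT4⟩ := (((((ev1.and ev2).and ev3).and ev4).and ev5).and ev6).exists_forall_of_atTop
  refine ⟨δ, hδ0, max (max 100 T1) (max (2 * T2) (max T3 T4)),
    le_trans (by norm_num) ((le_max_left _ _).trans (le_max_left _ _)),
    fun T hT H hH1 hH2 => ?_⟩
  have hT100 : 100 ≤ T := ((le_max_left _ _).trans (le_max_left _ _)).trans hT
  have hTT1 : T1 ≤ T := ((le_max_right _ _).trans (le_max_left _ _)).trans hT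
  have hTT2 : 2 * T2 ≤ T := ((le_max_left _ _).trans (le_max_right _ _)).trans hT
  have hTT3 : T3 ≤ T := ((le_max_left _ _).trans ((le_max_right _ _).trans
    (le_max_right _ _))).trans hT
  obtain ⟨⟨⟨⟨⟨e1, e2⟩, e3⟩, e4⟩, e5⟩, e6⟩ := hT4 T (((le_max_right _ _).trans
    ((le_max_right _ _).trans (le_max_right _ _))).trans hT)
  have hTpos : 0 < T := by linarith
  have hHpos : 0 < H := lt_of_lt_of_le (Real.rpow_pos_of_pos hTpos _) hH1
  have hlogT : 0 < Real.log T := Real.log_pos (by linarith)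
  set X : ℕ := ⌊T ^ (lam + κ)⌋₊ with hX
  set σ : ℝ := H * T ^ (-κ) with hσ
  have hTκ : 0 < T ^ (-κ) := Real.rpow_pos_of_pos hTpos _
  have hσ0 : 0 < σ := by positivity
  set w : ℝ := θ / 4 * H with hw
  have hw0 : 0 ≤ w := by positivity
  have hw2 : w ≤ H / 2 := by rw [hw]; nlinarith
  have hexpo : -w ^ 2 / (4 * σ ^ 2) = -((θ / 4) ^ 2 * T ^ (2 * κ)) / 4 := by
    have h1 : T ^ (2 * κ) * (T ^ (-κ)) ^ 2 = 1 := by
      rw [← Real.rpow_natCast, ← Real.rpow_mul hTpos.le, ← Real.rpow_add hTpos]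
      have : 2 * κ + -κ * ((2 : ℕ) : ℝ) = 0 := by push_cast; ring
      rw [this, Real.rpow_zero]
    rw [hw, hσ, div_eq_div_iff (by positivity) (by norm_num)]
    have h2 : ((θ / 4) ^ 2 * T ^ (2 * κ)) * (4 * (H * T ^ (-κ)) ^ 2) =
        (θ / 4) ^ 2 * 4 * H ^ 2 * (T ^ (2 * κ) * (T ^ (-κ)) ^ 2) := by ring
    linear_combination h2 + (θ / 4) ^ 2 * 4 * H ^ 2 * h1
  have hmass : Real.sqrt 2 * Real.exp (-w ^ 2 / (4 * σ ^ 2)) ≤ θ / (1 + θ) := by
    rw [hexpo]; exact e3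
  have hmass2 : (X : ℝ) ^ 4 * (Real.sqrt 2 * Real.exp (-w ^ 2 / (4 * σ ^ 2))) ≤ 1 := by
    rw [hexpo]
    have h1 : (X : ℝ) ≤ T ^ (lam + κ) := Nat.floor_le (by positivity)
    have h2 : (X : ℝ) ^ 4 ≤ Real.exp (4 * (lam + κ) * Real.log T) := by
      calc (X : ℝ) ^ 4 ≤ (T ^ (lam + κ)) ^ 4 := by gcongr
        _ = Real.exp (4 * (lam + κ) * Real.log T) := by
          rw [Real.rpow_def_of_pos hTpos, ← Real.exp_nat_mul]
          congr 1
          push_cast; ring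
    have h3 : Real.sqrt 2 ≤ Real.exp (Real.log T) := by
      rw [Real.exp_log hTpos]
      have : Real.sqrt 2 ≤ 2 := by
        rw [Real.sqrt_le_left (by norm_num)]; norm_num
      linarith
    calc (X : ℝ) ^ 4 * (Real.sqrt 2 * Real.exp (-((θ / 4) ^ 2 * T ^ (2 * κ)) / 4)) ≤
        Real.exp (4 * (lam + κ) * Real.log T) * (Real.exp (Real.log T) *
          Real.exp (-((θ / 4) ^ 2 * T ^ (2 * κ)) / 4)) := by gcongr
      _ = Real.exp (4 * (lam + κ) * Real.log T + (Real.log T +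
          -((θ / 4) ^ 2 * T ^ (2 * κ)) / 4)) := by rw [Real.exp_add, Real.exp_add]
      _ ≤ 1 := by
        rw [Real.exp_le_one_iff]
        linarith
  set E1 : Set ℝ := {t : ℝ | t ∈ Set.Icc T (2 * T) ∧ H ≤ ∫ x in (t - w)..(t + H + w),
        QE R a (μ * Real.log T) X σ x} with hE1
  set E3 : Set ℝ := {t : ℝ | t ∈ Set.Icc T (2 * T) ∧ ∃ s : ℂ, F s = 0 ∧ 1 / 2 + τ < s.re ∧
    s.re < 1 ∧ (|s.im - t| ≤ 3 * Real.log T ∨ |s.im - (t + H)| ≤ 3 * Real.log T)} with hE3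
  have key : ∀ t : ℝ, t ∈ Set.Icc T (2 * T) → t ∉ E3 → ∀ Tb : ℝ, T / 2 ≤ Tb → Tb ≤ 2 * T →
      Tb + 1 ≤ t → t + H ≤ 2 * Tb - 1 → t ∉ E1 →
      |(NN F t (t + H) : ℝ) - H * Real.log T / (2 * Real.pi)| ≤
            ε * (H * Real.log T / (2 * Real.pi)) ∧
          |PS R F t (t + H) (μ * Real.log T) - (H * Real.log T / (2 * Real.pi)) * cR R μ| ≤
            ε * (H * Real.log T / (2 * Real.pi)) := by
    intro t ht hE3t Tb hTb1 hTb2 hTb3 hTb4 hE1t
    have hTb0 : 0 < Tb := by linarith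
    have hlogb : Real.log Tb ≤ Real.log T + Real.log 2 := by
      rw [← Real.log_mul hTpos.ne' (by norm_num)]
      exact Real.log_le_log hTb0 (by linarith)
    have hlogb2 : Real.log T ≤ Real.log Tb + Real.log 2 := by
      rw [← Real.log_mul hTb0.ne' (by norm_num)]
      exact Real.log_le_log hTpos (by linarith)
    have hl2 : Real.log 2 ≤ 1 := by
      have := Real.log_two_lt_d9; linarith
    have hadd : t + H - t = H := by ring
    have h := hm Tb (by linarith) (Real.log T) (by rw [abs_le]; constructor <;> linarith)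
      t (t + H) hTb3 hTb4 ?_ ?_ σ w X hσ0 hw0 ?_ hmass hmass2 ?_ ?_
    · rw [hadd] at h
      exact h
    · rw [hadd]
      calc Tb ^ r ≤ (2 * T) ^ r := Real.rpow_le_rpow hTb0.le hTb2 hr0.le
        _ ≤ T ^ η0 := e1
        _ ≤ H := hH1
    · intro s hs hor
      by_contra hre
      push Not at hre
      apply hE3t
      obtain ⟨h1, h2, h3, h4, h5⟩ := hs
      refine ⟨ht, s, h5, hre, h2, ?_⟩
      rcases hor with hor | hor
      · left
        rw [abs_le]
        constructor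
        · linarith
        · linarith
      · right
        rw [abs_le]
        constructor
        · linarith
        · linarith
    · rw [hadd]
    · have h1 : T ^ (lam + κ) ≤ (X : ℝ) + 1 := (Nat.lt_floor_add_one _).le
      have h2 : (lam + κ) * Real.log T ≤ Real.log (X + 1) := by
        rw [← Real.log_rpow hTpos]
        exact Real.log_le_log (Real.rpow_pos_of_pos hTpos _) h1
      refine le_trans ?_ h2
      rw [div_le_iff₀ (by positivity)] at e2
      calc (lam + κ / 2) * Real.log Tb ≤ (lam + κ / 2) * (Real.log T + Real.log 2) := by gcongr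
        _ = (lam + κ / 2) * Real.log T + (lam + κ / 2) * Real.log 2 := by ring
        _ ≤ (lam + κ / 2) * Real.log T + Real.log T * (κ / 2) := by linarith
        _ = (lam + κ) * Real.log T := by ring
    · rw [hadd]
      by_contra hcon
      push Not at hcon
      exact hE1t ⟨ht, hcon.le⟩
  have hsub : {t : ℝ | t ∈ Set.Icc T (2 * T) ∧
        ¬ (|(NN F t (t + H) : ℝ) - H * Real.log T / (2 * Real.pi)| ≤
            ε * (H * Real.log T / (2 * Real.pi)) ∧
          |PS R F t (t + H) (μ * Real.log T) - (H * Real.log T / (2 * Real.pi)) * cR R μ| ≤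
            ε * (H * Real.log T / (2 * Real.pi)))} ⊆ E1 ∪ E3 := by
    intro t ht
    obtain ⟨ht1, ht2⟩ := ht
    by_contra hcon
    simp only [Set.mem_union, not_or] at hcon
    obtain ⟨h1, h3⟩ := hcon
    apply ht2
    rcases le_or_gt t (3 / 2 * T) with h4 | h4
    · exact key t ht1 h3 (9 / 10 * T) (by linarith) (by linarith) (by linarith [ht1.1])
        (by linarith) h1
    · exact key t ht1 h3 (27 / 20 * T) (by linarith) (by linarith) (by linarith)
        (by linarith [ht1.2]) h1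
  have hm1 : volume E1 ≤ ENNReal.ofReal (T ^ (1 - κ)) :=
    hexc T hTT1 H hH1 (by linarith) w hw0 hw2 a ha (μ * Real.log T)
  have hm3 : volume E3 ≤ ENNReal.ofReal (T ^ (1 - δ1)) := hBZ T hTT3 H hHpos.le (by linarith)
  have hp : ∀ x : ℝ, 2 * δ ≤ x → T ^ (1 - x) ≤ T ^ (1 - 2 * δ) := fun x hx =>
    Real.rpow_le_rpow_of_exponent_le (by linarith) (by linarith)
  calc _ ≤ volume (E1 ∪ E3) := measure_mono hsub
    _ ≤ volume E1 + volume E3 := measure_union_le _ _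
    _ ≤ ENNReal.ofReal (T ^ (1 - κ)) + ENNReal.ofReal (T ^ (1 - δ1)) := add_le_add hm1 hm3
    _ = ENNReal.ofReal (T ^ (1 - κ) + T ^ (1 - δ1)) := by
        rw [ENNReal.ofReal_add (by positivity) (by positivity)]
    _ ≤ ENNReal.ofReal (T ^ (1 - δ)) := by
        apply ENNReal.ofReal_le_ofReal
        have h1 := hp κ hδκ
        have h2 := hp δ1 hδδ
        have h3 : T ^ (1 - δ) = T ^ δ * T ^ (1 - 2 * δ) := by
          rw [← Real.rpow_add hTpos]; congr 1; ring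
        have h4 : 0 < T ^ (1 - 2 * δ) := Real.rpow_pos_of_pos hTpos _
        rw [h3]
        nlinarith

/-- the unconditional density bound gives `τ = 3/16` -/
theorem bz_zeta_t : BZt riemannZeta (3 / 16) := by
  obtain ⟨δ, hδ, T0, h⟩ := bz_zeta
  refine ⟨δ, hδ, T0, fun T hT H hH hHT => ?_⟩
  have h1 := h T hT H hH hHT
  have e : (1 / 2 + 3 / 16 : ℝ) = 11 / 16 := by norm_num
  rw [e]
  exact h1

/-- under the Riemann hypothesis one can take `τ = 0` -/
theorem bz_rh (hRH : RiemannHypothesis) : BZt riemannZeta 0 := by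
  refine ⟨1, one_pos, 100, fun T hT H hH hHT => ?_⟩
  have he : {t : ℝ | t ∈ Set.Icc T (2 * T) ∧ ∃ s : ℂ, riemannZeta s = 0 ∧ 1 / 2 + 0 < s.re ∧
      s.re < 1 ∧ (|s.im - t| ≤ 3 * Real.log T ∨ |s.im - (t + H)| ≤ 3 * Real.log T)} = ∅ := by
    rw [Set.eq_empty_iff_forall_notMem]
    rintro t ⟨ht, s, hs0, hs1, hs2, -⟩
    have hs : s.re = 1 / 2 := by
      apply hRH s hs0
      · rintro ⟨n, hn⟩
        have : s.re = -2 * (n + 1) := by rw [hn]; simp
        have hn0 : (0 : ℝ) ≤ n := Nat.cast_nonneg n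
        linarith
      · intro h1
        rw [h1] at hs2
        simp at hs2
    linarith
  rw [he]
  simp

end H370.A2
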