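import Pool.Agent.H345R2.AS.Outer

/-! The outer region when the zeros near the end points are not far to the right. -/

open Complex Filter Topology Set MeasureTheory
open scoped BigOperators ComplexConjugate

namespace H370.A2

open H370.SI H370.AS

section zeros

variable {F : ℂ → ℂ} (hF : GoodL F)

include hF in
/-- outer region, when no zero near the end points has real part above `1/2 + τ` -/
lemma outer_tau {τ : ℝ} (hτ : 0 ≤ τ) : ∃ C T1 : ℝ, 0 < C ∧ 4 ≤ T1 ∧ ∀ T : ℝ, T1 ≤ T → ∀ a b : ℝ, T ≤ a →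
    b ≤ 2 * T → (∀ s : ℂ, s ∈ zset F a b →
      (s.im ≤ a + 2 * Real.log T ∨ b - 2 * Real.log T ≤ s.im) → s.re ≤ 1 / 2 + τ) →
    ∀ u : ℝ, 0 ≤ u → u ≤ Real.log T →
    ∫ t in (Set.Icc (a + Real.log T) (b - Real.log T))ᶜ, ‖AA F a b u t‖ ^ 2 ≤
      C * Real.exp (2 * τ * u) * (Real.log T) ^ 3 := by
  obtain ⟨C1, T1, hC1, hT1, hout⟩ := Zg_outer hF
  obtain ⟨C2, hC2, hN⟩ := NN_crude hF
  have hlim : ∀ᶠ T : ℝ in atTop, T ^ 3 * Real.exp (-(Real.log T) ^ 2 / 2) ≤ 1 := by
    have h4 : ∀ᶠ T : ℝ in atTop, 6 ≤ Real.log T := Real.tendsto_log_atTop.eventually_ge_atTop 6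
    filter_upwards [h4, eventually_gt_atTop 0] with T hT hT0
    have : T ^ 3 = Real.exp (3 * Real.log T) := by
      rw [mul_comm, Real.exp_mul, Real.exp_log hT0]; norm_cast
    rw [this, ← Real.exp_add]
    apply Real.exp_le_one_iff.mpr
    nlinarith
  obtain ⟨T2, hT2⟩ := (hlim.and (Real.tendsto_log_atTop.eventually_ge_atTop 1)).exists_forall_of_atTop
  refine ⟨8 * C1 + 8 * (C2 ^ 2 * Real.sqrt (2 * Real.pi)), max T1 T2, by positivity,
    hT1.trans (le_max_left _ _), fun T hT a b hU1 hU2 hz u hu huL => ?_⟩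
  have hTT1 : T1 ≤ T := (le_max_left _ _).trans hT
  obtain ⟨e1, hL1⟩ := hT2 T ((le_max_right _ _).trans hT)
  have hT4 : 4 ≤ T := hT1.trans hTT1
  have hT0 : 0 < T := by linarith
  have hU : 1 ≤ a := by linarith
  have ho := hout T hTT1 a b hU1 hU2
  set L := Real.log T with hL
  set N : ℝ := (NN F a b : ℝ) with hNdef
  have hN0 : 0 ≤ N := by positivity
  have hNle : N ≤ C2 * (T * L) := hN T hT4 a b hU1 hU2
  have hpt : ∀ t ∈ (Set.Icc (a + L) (b - L))ᶜ, ‖AA F a b u t‖ ^ 2 ≤
      8 * Real.exp (2 * τ * u) * (Zg F a b t) ^ 2 +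
      8 * (Real.exp u * Real.exp (-L ^ 2 / 2)) * (N * Zg F a b t) := by
    intro t ht
    have h1 : ‖AA F a b u t‖ ≤ 2 * Real.exp (τ * u) * Zg F a b t +
        2 * (Real.exp (u / 2) * Real.exp (-L ^ 2 / 4)) * Z4 F a b t := by
      rw [AA_eq hF hU]
      unfold Zg Z4
      rw [Finset.mul_sum, Finset.mul_sum, ← Finset.sum_add_distrib]
      refine (norm_sum_le _ _).trans (Finset.sum_le_sum fun s hs => ?_)
      have hs' := (mem_Zf hF hU).mp hs
      rw [norm_mul, Complex.norm_natCast]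
      have hm0 : (0 : ℝ) ≤ mult F s := Nat.cast_nonneg _
      have key : ‖hh u t s‖ ≤ 2 * Real.exp (τ * u) * Real.exp (-(s.im - t) ^ 2 / 2) +
          2 * (Real.exp (u / 2) * Real.exp (-L ^ 2 / 4)) * Real.exp (-(s.im - t) ^ 2 / 4) := by
        by_cases hend : s.im ≤ a + 2 * L ∨ b - 2 * L ≤ s.im
        · have h2 := hz s hs' hend
          have h3 : ‖hh u t s‖ ≤ 2 * Real.exp (τ * u) * Real.exp (-(s.im - t) ^ 2 / 2) := by
            rw [pc_norm_hh]
            have h4 : Real.exp (u * (s.re - 1 / 2)) ≤ Real.exp (τ * u) := by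
              apply Real.exp_le_exp.mpr
              nlinarith
            have h5 : Real.exp (((s.re - 1 / 2) ^ 2 - (s.im - t) ^ 2) / 2) ≤
                2 * Real.exp (-(s.im - t) ^ 2 / 2) := by
              have h6 : (s.re - 1 / 2) ^ 2 ≤ 1 / 4 := by
                have := hs'.1
                have := hs'.2.1
                nlinarith
              have h7 : Real.exp (1 / 8) ≤ 2 := by
                have h8 := Real.exp_bound_div_one_sub_of_interval (x := 1 / 8) (by norm_num)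
                  (by norm_num)
                norm_num at h8 ⊢
                linarith
              calc Real.exp (((s.re - 1 / 2) ^ 2 - (s.im - t) ^ 2) / 2) ≤
                  Real.exp (1 / 8 + -(s.im - t) ^ 2 / 2) := by
                    apply Real.exp_le_exp.mpr; linarith
                _ = Real.exp (1 / 8) * Real.exp (-(s.im - t) ^ 2 / 2) := Real.exp_add _ _
                _ ≤ _ := by gcongr
            calc _ ≤ Real.exp (τ * u) * (2 * Real.exp (-(s.im - t) ^ 2 / 2)) := by gcongr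
              _ = _ := by ring
          have h9 : 0 ≤ 2 * (Real.exp (u / 2) * Real.exp (-L ^ 2 / 4)) *
              Real.exp (-(s.im - t) ^ 2 / 4) := by positivity
          linarith
        · push Not at hend
          have h2 := norm_hh_le hs' u t hu
          have h3 : L ^ 2 ≤ (s.im - t) ^ 2 := by
            rw [Set.mem_compl_iff, Set.mem_Icc, not_and_or, not_le, not_le] at ht
            rcases ht with ht | ht
            · nlinarith [hend.1]
            · nlinarith [hend.2]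
          have h4 : Real.exp (-(s.im - t) ^ 2 / 2) ≤
              Real.exp (-L ^ 2 / 4) * Real.exp (-(s.im - t) ^ 2 / 4) := by
            rw [← Real.exp_add]
            apply Real.exp_le_exp.mpr
            linarith
          have h9 : 0 ≤ 2 * Real.exp (τ * u) * Real.exp (-(s.im - t) ^ 2 / 2) := by
            positivity
          calc ‖hh u t s‖ ≤ 2 * Real.exp (u / 2) * Real.exp (-(s.im - t) ^ 2 / 2) := h2
            _ ≤ 2 * Real.exp (u / 2) * (Real.exp (-L ^ 2 / 4) * Real.exp (-(s.im - t) ^ 2 / 4)) := by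
              gcongr
            _ ≤ _ := by linarith
      calc (mult F s : ℝ) * ‖hh u t s‖ ≤ (mult F s : ℝ) *
          (2 * Real.exp (τ * u) * Real.exp (-(s.im - t) ^ 2 / 2) +
          2 * (Real.exp (u / 2) * Real.exp (-L ^ 2 / 4)) * Real.exp (-(s.im - t) ^ 2 / 4)) := by
            gcongr
        _ = _ := by ring
    have h2 := Zg_nonneg F a b t
    have h3 := Z4_sq hF hU (b := b) t
    have h5 : (Real.exp (τ * u)) ^ 2 = Real.exp (2 * τ * u) := by
      rw [← Real.exp_nat_mul]; congr 1; push_cast; ring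
    have h6 : (Real.exp (u / 2) * Real.exp (-L ^ 2 / 4)) ^ 2 =
        Real.exp u * Real.exp (-L ^ 2 / 2) := by
      rw [mul_pow, ← Real.exp_nat_mul, ← Real.exp_nat_mul]
      congr 2 <;> (push_cast; ring)
    calc ‖AA F a b u t‖ ^ 2 ≤ (2 * Real.exp (τ * u) * Zg F a b t +
        2 * (Real.exp (u / 2) * Real.exp (-L ^ 2 / 4)) * Z4 F a b t) ^ 2 := by gcongr
      _ ≤ 2 * (2 * Real.exp (τ * u) * Zg F a b t) ^ 2 +
        2 * (2 * (Real.exp (u / 2) * Real.exp (-L ^ 2 / 4)) * Z4 F a b t) ^ 2 := by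
          nlinarith [sq_nonneg (2 * Real.exp (τ * u) * Zg F a b t -
            2 * (Real.exp (u / 2) * Real.exp (-L ^ 2 / 4)) * Z4 F a b t)]
      _ = 8 * (Real.exp (τ * u)) ^ 2 * (Zg F a b t) ^ 2 +
        8 * (Real.exp (u / 2) * Real.exp (-L ^ 2 / 4)) ^ 2 * (Z4 F a b t) ^ 2 := by ring
      _ ≤ _ := by
        rw [h5, h6]
        gcongr
  have hZi := (Zg_int hF hU (b := b)).1
  have hZ2 := Zg_sq_int hF hU (b := b)
  have hΨ : Integrable fun t => 8 * Real.exp (2 * τ * u) * (Zg F a b t) ^ 2 +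
      8 * (Real.exp u * Real.exp (-L ^ 2 / 2)) * (N * Zg F a b t) :=
    (hZ2.const_mul _).add ((hZi.const_mul _).const_mul _)
  have h1 : ∫ t in (Set.Icc (a + L) (b - L))ᶜ, ‖AA F a b u t‖ ^ 2 ≤
      8 * Real.exp (2 * τ * u) * (C1 * L ^ 3) +
      8 * (Real.exp u * Real.exp (-L ^ 2 / 2)) * (N * (N * Real.sqrt (2 * Real.pi))) := by
    calc _ ≤ ∫ t in (Set.Icc (a + L) (b - L))ᶜ, (8 * Real.exp (2 * τ * u) * (Zg F a b t) ^ 2 +
      8 * (Real.exp u * Real.exp (-L ^ 2 / 2)) * (N * Zg F a b t)) :=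
          setIntegral_mono_on (AA_sq_int hF hU u).integrableOn hΨ.integrableOn
            measurableSet_Icc.compl hpt
      _ = 8 * Real.exp (2 * τ * u) * (∫ t in (Set.Icc (a + L) (b - L))ᶜ, (Zg F a b t) ^ 2) +
          8 * (Real.exp u * Real.exp (-L ^ 2 / 2)) *
            (N * ∫ t in (Set.Icc (a + L) (b - L))ᶜ, Zg F a b t) := by
          rw [integral_add (hZ2.const_mul _).integrableOn
            ((hZi.const_mul _).const_mul _).integrableOn, integral_const_mul, integral_const_mul,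
            integral_const_mul]
      _ ≤ _ := by
          have h2 : ∫ t in (Set.Icc (a + L) (b - L))ᶜ, Zg F a b t ≤
              N * Real.sqrt (2 * Real.pi) := by
            rw [hNdef, ← (Zg_int hF hU (b := b)).2]
            exact setIntegral_le_integral hZi (Eventually.of_forall fun t => Zg_nonneg F a b t)
          gcongr
  refine h1.trans ?_
  have h2 : Real.exp u * Real.exp (-L ^ 2 / 2) * (N * (N * Real.sqrt (2 * Real.pi))) ≤
      C2 ^ 2 * Real.sqrt (2 * Real.pi) * L ^ 3 := by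
    have h3 : Real.exp u ≤ T := by
      calc Real.exp u ≤ Real.exp L := Real.exp_le_exp.mpr huL
        _ = T := Real.exp_log hT0
    calc Real.exp u * Real.exp (-L ^ 2 / 2) * (N * (N * Real.sqrt (2 * Real.pi))) ≤
        T * Real.exp (-L ^ 2 / 2) * ((C2 * (T * L)) * ((C2 * (T * L)) * Real.sqrt (2 * Real.pi))) := by
          gcongr
      _ = C2 ^ 2 * Real.sqrt (2 * Real.pi) * L ^ 2 * (T ^ 3 * Real.exp (-L ^ 2 / 2)) := by ring
      _ ≤ C2 ^ 2 * Real.sqrt (2 * Real.pi) * L ^ 2 * 1 := by gcongr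
      _ ≤ C2 ^ 2 * Real.sqrt (2 * Real.pi) * L ^ 2 * L := by gcongr
      _ = _ := by ring
  have h4 : 1 ≤ Real.exp (2 * τ * u) := Real.one_le_exp (by positivity)
  calc 8 * Real.exp (2 * τ * u) * (C1 * L ^ 3) +
      8 * (Real.exp u * Real.exp (-L ^ 2 / 2)) * (N * (N * Real.sqrt (2 * Real.pi))) =
      8 * Real.exp (2 * τ * u) * (C1 * L ^ 3) +
      8 * (Real.exp u * Real.exp (-L ^ 2 / 2) * (N * (N * Real.sqrt (2 * Real.pi)))) := by ring
    _ ≤ 8 * Real.exp (2 * τ * u) * (C1 * L ^ 3) +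
      8 * (C2 ^ 2 * Real.sqrt (2 * Real.pi) * L ^ 3) * Real.exp (2 * τ * u) := by
        have h5 : 0 ≤ 8 * (C2 ^ 2 * Real.sqrt (2 * Real.pi) * L ^ 3) := by positivity
        nlinarith
    _ = _ := by ring

end zeros

end H370.A2
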