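import Pool.Agent.H613R2.PairShort
import Pool.Agent.H627R2.SI.LamSmooth

/-! Lower bounds for the sums over prime powers. -/

open Complex Filter Topology Set MeasureTheory
open scoped BigOperators ComplexConjugate

namespace H370.A2

open H295SI

/-- comparison of sums with a decreasing weight -/
lemma abel_compare (m c g : ℕ → ℝ) (hg0 : ∀ n, 0 ≤ g n) (hg : ∀ n, 1 ≤ n → g (n + 1) ≤ g n)
    (hS : ∀ n, 1 ≤ n → ∑ k ∈ Finset.Icc 1 n, m k ≤ ∑ k ∈ Finset.Icc 1 n, c k) (N : ℕ)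
    (hN : 1 ≤ N) : ∑ n ∈ Finset.Icc 1 N, m n * g n ≤ ∑ n ∈ Finset.Icc 1 N, c n * g n := by
  rw [nt_abel m g N hN, nt_abel c g N hN]
  have h1 := mul_le_mul_of_nonneg_right (hS N hN) (hg0 N)
  have h2 : ∑ n ∈ Finset.Ico 1 N, (∑ k ∈ Finset.Icc 1 n, c k) * (g (n + 1) - g n) ≤
      ∑ n ∈ Finset.Ico 1 N, (∑ k ∈ Finset.Icc 1 n, m k) * (g (n + 1) - g n) := by
    refine Finset.sum_le_sum fun n hn => ?_
    have hn1 := (Finset.mem_Ico.1 hn).1
    exact mul_le_mul_of_nonpos_right (hS n hn1) (sub_nonpos.2 (hg n hn1))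
  linarith

/-- von Mangoldt function off the primes -/
noncomputable def Dn (n : ℕ) : ℝ := if n.Prime then 0 else ArithmeticFunction.vonMangoldt n

lemma Dn_nonneg (n : ℕ) : 0 ≤ Dn n := by
  unfold Dn
  split_ifs
  · exact le_rfl
  · exact ArithmeticFunction.vonMangoldt_nonneg

/-- prime powers contribute boundedly -/
theorem Dn_sum : ∃ C : ℝ, 0 ≤ C ∧ ∀ N : ℕ, 1 ≤ N →
    ∑ n ∈ Finset.Icc 1 N, Dn n / n * Real.log n ≤ C := by
  obtain ⟨C0, hC0⟩ := Chebyshev.psi_sub_theta_le_mul_sqrt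
  set C : ℝ := max C0 0 with hC
  have hC1 : 0 ≤ C := le_max_right _ _
  have hC2 : C0 ≤ C := le_max_left _ _
  have hsum : Summable fun n : ℕ => 1 / (n : ℝ) ^ (5 / 4 : ℝ) :=
    Real.summable_one_div_nat_rpow.2 (by norm_num)
  refine ⟨4 * (C * ∑' n : ℕ, 1 / (n : ℝ) ^ (5 / 4 : ℝ)), by positivity, fun N hN => ?_⟩
  have hD : ∀ n : ℕ, 1 ≤ n → ∑ k ∈ Finset.Icc 1 n, Dn k ≤
      ∑ k ∈ Finset.Icc 1 n, C * (Real.sqrt k - Real.sqrt (k - 1)) := by
    intro n hn
    have h1 : ∑ k ∈ Finset.Icc 1 n, Dn k = Chebyshev.psi (n : ℝ) - Chebyshev.theta (n : ℝ) := by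
      rw [Chebyshev.psi_sub_theta_eq_sum_not_prime, Nat.floor_natCast, Finset.sum_filter]
      refine Finset.sum_congr rfl fun k _ => ?_
      unfold Dn
      by_cases hk : k.Prime <;> simp [hk]
    have h2 : ∑ k ∈ Finset.Icc 1 n, (Real.sqrt k - Real.sqrt (k - 1)) = Real.sqrt n := by
      clear h1
      induction n, hn using Nat.le_induction with
      | base => simp
      | succ n hn ih =>
        rw [Finset.sum_Icc_succ_top (by omega), ih]
        push_cast
        rw [add_sub_cancel_right]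
        ring
    rw [h1, ← Finset.mul_sum, h2]
    refine (hC0 n).trans ?_
    gcongr
  have h3 : ∑ n ∈ Finset.Icc 1 N, Dn n / n * Real.log n ≤
      4 * ∑ n ∈ Finset.Icc 1 N, Dn n * (n : ℝ) ^ (-(3 / 4) : ℝ) := by
    rw [Finset.mul_sum]
    refine Finset.sum_le_sum fun n hn => ?_
    have hn0 : (0 : ℝ) < n := by exact_mod_cast (Finset.mem_Icc.1 hn).1
    have h4 : Real.log n ≤ 4 * (n : ℝ) ^ (1 / 4 : ℝ) := by
      have := Real.log_le_rpow_div hn0.le (ε := 1 / 4) (by norm_num)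
      linarith
    have h5 := Dn_nonneg n
    calc Dn n / n * Real.log n ≤ Dn n / n * (4 * (n : ℝ) ^ (1 / 4 : ℝ)) := by gcongr
      _ = 4 * (Dn n * ((n : ℝ) ^ (1 / 4 : ℝ) * (n : ℝ)⁻¹)) := by ring
      _ = 4 * (Dn n * (n : ℝ) ^ (-(3 / 4) : ℝ)) := by
          rw [← Real.rpow_neg_one, ← Real.rpow_add hn0]
          norm_num
  refine h3.trans ?_
  refine mul_le_mul_of_nonneg_left ?_ (by norm_num)
  have h6 := abel_compare Dn (fun k => C * (Real.sqrt k - Real.sqrt (k - 1)))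
    (fun n => (n : ℝ) ^ (-(3 / 4) : ℝ)) (fun n => by positivity) (fun n hn => by
      have hn0 : (0 : ℝ) < n := by exact_mod_cast hn
      have : (n : ℝ) ≤ ((n + 1 : ℕ) : ℝ) := by push_cast; linarith
      exact Real.rpow_le_rpow_of_nonpos hn0 this (by norm_num)) hD N hN
  refine h6.trans ?_
  have h7 : ∑ n ∈ Finset.Icc 1 N, C * (Real.sqrt n - Real.sqrt (n - 1)) * (n : ℝ) ^ (-(3 / 4) : ℝ) ≤
      ∑ n ∈ Finset.Icc 1 N, C * (1 / (n : ℝ) ^ (5 / 4 : ℝ)) := by
    refine Finset.sum_le_sum fun n hn => ?_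
    have hn1 : (1 : ℝ) ≤ n := by exact_mod_cast (Finset.mem_Icc.1 hn).1
    have hn0 : (0 : ℝ) < n := by linarith
    have h8 : Real.sqrt n - Real.sqrt (n - 1) ≤ (n : ℝ) ^ (-(1 / 2) : ℝ) := by
      have e1 : (n : ℝ) ^ (-(1 / 2) : ℝ) = 1 / Real.sqrt n := by
        rw [Real.rpow_neg hn0.le, Real.sqrt_eq_rpow]
        exact (one_div _).symm
      rw [e1, le_div_iff₀ (Real.sqrt_pos.2 hn0)]
      have e2 := Real.mul_self_sqrt hn0.le
      have e3 := Real.mul_self_sqrt (show (0 : ℝ) ≤ n - 1 by linarith)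
      have e4 : Real.sqrt (n - 1) ≤ Real.sqrt n := Real.sqrt_le_sqrt (by linarith)
      have e5 := Real.sqrt_nonneg ((n : ℝ) - 1)
      nlinarith
    calc C * (Real.sqrt n - Real.sqrt (n - 1)) * (n : ℝ) ^ (-(3 / 4) : ℝ) ≤
        C * (n : ℝ) ^ (-(1 / 2) : ℝ) * (n : ℝ) ^ (-(3 / 4) : ℝ) := by gcongr
      _ = C * (1 / (n : ℝ) ^ (5 / 4 : ℝ)) := by
          rw [mul_assoc, ← Real.rpow_add hn0,
            show (-(1 / 2) : ℝ) + -(3 / 4) = -(5 / 4) by norm_num, Real.rpow_neg hn0.le, one_div]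
  refine h7.trans ?_
  rw [← Finset.mul_sum]
  refine mul_le_mul_of_nonneg_left ?_ hC1
  exact hsum.sum_le_tsum _ fun n _ => by positivity

theorem lam_sq_lower : ∃ C : ℝ, 0 ≤ C ∧ ∀ N : ℕ, 1 ≤ N →
    (Real.log N) ^ 2 / 2 - C * (Real.log N + 1) ≤
      ∑ n ∈ Finset.Icc 1 N, (ArithmeticFunction.vonMangoldt n) ^ 2 / n := by
  obtain ⟨C1, hC1, hD⟩ := Dn_sum
  refine ⟨C1 + 8, by linarith, fun N hN => ?_⟩
  have hN1 : (1 : ℝ) ≤ N := by exact_mod_cast hN
  have hlogN : 0 ≤ Real.log N := Real.log_nonneg hN1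
  have h1 : ∑ n ∈ Finset.Icc 1 N, (ArithmeticFunction.vonMangoldt n / n) * Real.log n -
      ∑ n ∈ Finset.Icc 1 N, Dn n / n * Real.log n ≤
      ∑ n ∈ Finset.Icc 1 N, (ArithmeticFunction.vonMangoldt n) ^ 2 / n := by
    rw [← Finset.sum_sub_distrib]
    refine Finset.sum_le_sum fun n hn => ?_
    have hn0 : (0 : ℝ) < n := by exact_mod_cast (Finset.mem_Icc.1 hn).1
    unfold Dn
    split_ifs with hp
    · rw [ArithmeticFunction.vonMangoldt_apply_prime hp]
      apply le_of_eq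
      ring
    · rw [sub_self]; positivity
  have h2 : (Real.log N) ^ 2 / 2 - 7 * Real.log N ≤
      ∑ n ∈ Finset.Icc 1 N, (ArithmeticFunction.vonMangoldt n / n) * Real.log n := by
    rw [nt_abel (fun n => ArithmeticFunction.vonMangoldt n / n) (fun n => Real.log n) N hN]
    have hlo := nt_mertens_lower N hN
    have h2 : (Real.log N - 1) * Real.log N ≤
        (∑ n ∈ Finset.Icc 1 N, ArithmeticFunction.vonMangoldt n / n) * Real.log N :=
      mul_le_mul_of_nonneg_right hlo hlogN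
    have h3 : ∑ n ∈ Finset.Ico 1 N, (∑ k ∈ Finset.Icc 1 n, ArithmeticFunction.vonMangoldt k / k) *
          (Real.log ((n + 1 : ℕ) : ℝ) - Real.log n) ≤ (Real.log N) ^ 2 / 2 + 6 * Real.log N := by
      have key : ∀ n ∈ Finset.Ico 1 N,
          (∑ k ∈ Finset.Icc 1 n, ArithmeticFunction.vonMangoldt k / k) *
          (Real.log ((n + 1 : ℕ) : ℝ) - Real.log n) ≤
          ((Real.log ((n + 1 : ℕ) : ℝ)) ^ 2 / 2 +
            6 * Real.log ((n + 1 : ℕ) : ℝ)) - ((Real.log (n : ℝ)) ^ 2 / 2 + 6 * Real.log n) := by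
        intro n hn
        have hn1 : 1 ≤ n := (Finset.mem_Ico.1 hn).1
        have hn1' : (1 : ℝ) ≤ n := by exact_mod_cast hn1
        have hup := nt_mertens_upper n hn1
        have hd0 : 0 ≤ Real.log ((n + 1 : ℕ) : ℝ) - Real.log n := by
          rw [sub_nonneg]; apply Real.log_le_log (by linarith); push_cast; linarith
        have h7 := mul_le_mul_of_nonneg_right hup hd0
        nlinarith
      have h4 := Finset.sum_le_sum key
      rw [Finset.sum_Ico_sub (fun n : ℕ => (Real.log (n : ℝ)) ^ 2 / 2 + 6 * Real.log n) hN] at h4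
      simpa using h4
    nlinarith
  have h5 := hD N hN
  nlinarith

/-- partial summation, from below -/
theorem abel_lower (w : ℕ → ℝ) (f : ℝ → ℝ) (C : ℝ) (hC : 0 ≤ C) (hf : AntitoneOn f (Set.Ici 0))
    (hfc : Continuous f) (hf0 : ∀ x, 0 ≤ f x)
    (hS : ∀ N : ℕ, 1 ≤ N → (Real.log N) ^ 2 / 2 - C * (Real.log N + 1) ≤ ∑ n ∈ Finset.Icc 1 N, w n)
    (N : ℕ) (hN : 1 ≤ N) :
    (∫ s in (0 : ℝ)..(Real.log N), f s * (s - C)) - (C + 1) * f 0 + f (Real.log N) ≤
      ∑ n ∈ Finset.Icc 1 N, w n * f (Real.log n) := by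
  have hint : ∀ a b : ℝ, IntervalIntegrable (fun s => f s * (s - C)) volume a b := fun a b =>
    (hfc.mul (continuous_id.sub continuous_const)).intervalIntegrable a b
  rw [nt_abel w (fun n => f (Real.log n)) N hN]
  have hmono : ∀ n : ℕ, 1 ≤ n → f (Real.log ((n + 1 : ℕ) : ℝ)) ≤ f (Real.log n) := by
    intro n hn
    have hn1 : (1 : ℝ) ≤ n := by exact_mod_cast hn
    have h1 : Real.log n ≤ Real.log ((n + 1 : ℕ) : ℝ) := by
      apply Real.log_le_log (by linarith); push_cast; linarith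
    exact hf (Real.log_nonneg hn1) (le_trans (Real.log_nonneg hn1) h1) h1
  have step1 : ((Real.log N) ^ 2 / 2 - C * (Real.log N + 1)) * f (Real.log N) +
        ∑ n ∈ Finset.Ico 1 N, ((Real.log n) ^ 2 / 2 - C * (Real.log n + 1)) *
          (f (Real.log n) - f (Real.log ((n + 1 : ℕ) : ℝ))) ≤
      (∑ n ∈ Finset.Icc 1 N, w n) * f (Real.log N) -
        ∑ n ∈ Finset.Ico 1 N, (∑ k ∈ Finset.Icc 1 n, w k) *
          (f (Real.log ((n + 1 : ℕ) : ℝ)) - f (Real.log n)) := by
    have h1 := mul_le_mul_of_nonneg_right (hS N hN) (hf0 (Real.log N))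
    have h2 : ∑ n ∈ Finset.Ico 1 N, ((Real.log n) ^ 2 / 2 - C * (Real.log n + 1)) *
          (f (Real.log n) - f (Real.log ((n + 1 : ℕ) : ℝ))) ≤
        ∑ n ∈ Finset.Ico 1 N, (∑ k ∈ Finset.Icc 1 n, w k) *
          (f (Real.log n) - f (Real.log ((n + 1 : ℕ) : ℝ))) := by
      refine Finset.sum_le_sum fun n hn => ?_
      have hn1 := (Finset.mem_Ico.1 hn).1
      exact mul_le_mul_of_nonneg_right (hS n hn1) (sub_nonneg.2 (hmono n hn1))
    have h3 : ∑ n ∈ Finset.Ico 1 N, (∑ k ∈ Finset.Icc 1 n, w k) *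
          (f (Real.log n) - f (Real.log ((n + 1 : ℕ) : ℝ))) =
        - ∑ n ∈ Finset.Ico 1 N, (∑ k ∈ Finset.Icc 1 n, w k) *
          (f (Real.log ((n + 1 : ℕ) : ℝ)) - f (Real.log n)) := by
      rw [← Finset.sum_neg_distrib]
      exact Finset.sum_congr rfl fun n _ => by ring
    linarith
  refine le_trans ?_ step1
  clear step1
  induction N, hN using Nat.le_induction with
  | base => simp; linarith
  | succ N hN ih =>
    have hN1 : (1 : ℝ) ≤ N := by exact_mod_cast hN
    have hl0 : 0 ≤ Real.log N := Real.log_nonneg hN1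
    have hl1 : Real.log N ≤ Real.log ((N + 1 : ℕ) : ℝ) := by
      apply Real.log_le_log (by linarith); push_cast; linarith
    rw [Finset.sum_Ico_succ_top hN,
      ← intervalIntegral.integral_add_adjacent_intervals (hint 0 (Real.log N))
        (hint (Real.log N) (Real.log ((N + 1 : ℕ) : ℝ)))]
    set l0 := Real.log N with hl0d
    set l1 := Real.log ((N + 1 : ℕ) : ℝ) with hl1d
    have hfm : f l1 ≤ f l0 := hmono N hN
    -- length of the step
    have hd : l1 - l0 ≤ 1 / N := by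
      rw [hl0d, hl1d, ← Real.log_div (by positivity) (by positivity)]
      have := Real.log_le_sub_one_of_pos (x := ((N + 1 : ℕ) : ℝ) / N) (by positivity)
      have h5 : ((N + 1 : ℕ) : ℝ) / N - 1 = 1 / N := by push_cast; field_simp; ring
      linarith
    have hl1N : l1 ≤ N := by
      have := Real.log_le_sub_one_of_pos (x := ((N + 1 : ℕ) : ℝ)) (by positivity)
      push_cast at this
      rw [hl1d]
      push_cast
      linarith
    have hstep : l1 * (l1 - l0) ≤ 1 := by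
      calc l1 * (l1 - l0) ≤ N * (1 / N) := by
            apply mul_le_mul hl1N hd (by linarith) (by linarith)
        _ = 1 := by field_simp
    have h4 : ∫ s in l0..l1, f s * (s - C) ≤
        ∫ s in l0..l1, (f l1 * (s - C) + (f l0 - f l1) * l1) := by
      apply intervalIntegral.integral_mono_on hl1
      · exact hint _ _
      · exact (by fun_prop : Continuous fun s : ℝ =>
          f l1 * (s - C) + (f l0 - f l1) * l1).intervalIntegrable _ _
      · intro s hs
        have a1 : f l1 ≤ f s := hf (le_trans hl0 hs.1) (le_trans hl0 hl1) hs.2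
        have a2 : f s ≤ f l0 := hf hl0 (le_trans hl0 hs.1) hs.1
        have a3 : (f s - f l1) * s ≤ (f l0 - f l1) * l1 := by
          apply mul_le_mul (by linarith) hs.2 (le_trans hl0 hs.1) (by linarith)
        have a4 : 0 ≤ (f s - f l1) * C := mul_nonneg (by linarith) hC
        nlinarith
    have h5 : ∫ s in l0..l1, (f l1 * (s - C) + (f l0 - f l1) * l1) = f l1 *
        ((l1 ^ 2 / 2 - C * (l1 + 1)) - (l0 ^ 2 / 2 - C * (l0 + 1))) +
          (f l0 - f l1) * (l1 * (l1 - l0)) := by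
      rw [intervalIntegral.integral_add (f := fun s : ℝ => f l1 * (s - C))
        (g := fun _ : ℝ => (f l0 - f l1) * l1)
        ((by fun_prop : Continuous fun s : ℝ => f l1 * (s - C)).intervalIntegrable _ _)
        (continuous_const.intervalIntegrable _ _), intervalIntegral.integral_const_mul,
        intervalIntegral.integral_sub
        (f := fun s : ℝ => s) (g := fun _ : ℝ => C)
        (continuous_id.intervalIntegrable _ _) (continuous_const.intervalIntegrable _ _),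
        integral_id, intervalIntegral.integral_const, intervalIntegral.integral_const, smul_eq_mul,
        smul_eq_mul]
      ring
    rw [h5] at h4
    have h6 : (f l0 - f l1) * (l1 * (l1 - l0)) ≤ (f l0 - f l1) * 1 :=
      mul_le_mul_of_nonneg_left hstep (by linarith)
    linarith


theorem In_lower {R : ℝ → ℝ} (hR : Conv R) (K : ℝ) (hK : 0 < K)
    (hlip : ∀ x y, |R x - R y| ≤ K * |x - y|) (Λ ℓ : ℝ) (hΛ : 0 < Λ) (hℓ : 0 ≤ ℓ) :
    Real.sqrt Real.pi * R (ℓ / Λ) - K / Λ * ntG -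
      R 0 * Real.sqrt (2 * Real.pi) * Real.exp (-ℓ ^ 2 / 2) ≤
    ∫ u in (0 : ℝ)..Λ, R (u / Λ) * Real.exp (-(u - ℓ) ^ 2) := by
  have hi0 : Integrable (fun u : ℝ => Real.exp (-(u - ℓ) ^ 2)) := nt_int0.comp_sub_right ℓ
  have hi1 : Integrable (fun u : ℝ => |u - ℓ| * Real.exp (-(u - ℓ) ^ 2)) :=
    nt_int1.comp_sub_right ℓ
  have hcont : Continuous (fun u : ℝ => R (u / Λ) * Real.exp (-(u - ℓ) ^ 2)) :=
    ((H627SI.t5_cont hR).comp (continuous_id.div_const Λ)).mul (by fun_prop)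
  have hR0 : 0 ≤ R 0 := hR.nonneg 0
  have hRle : ∀ x, R x ≤ R 0 := by
    intro x
    rcases le_total 0 x with h | h
    · exact H627SI.t5_le hR x h
    · rw [← hR.even]; exact H627SI.t5_le hR (-x) (by linarith)
  have hRi : Integrable (fun u : ℝ => R (u / Λ) * Real.exp (-(u - ℓ) ^ 2)) := by
    refine (hi0.const_mul (R 0)).mono' hcont.aestronglyMeasurable (Eventually.of_forall fun u => ?_)
    rw [Real.norm_of_nonneg (mul_nonneg (hR.nonneg _) (Real.exp_pos _).le)]
    exact mul_le_mul_of_nonneg_right (hRle _) (Real.exp_pos _).le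
  -- extend to the half line
  have h1 : ∫ u in (0 : ℝ)..Λ, R (u / Λ) * Real.exp (-(u - ℓ) ^ 2) =
      ∫ u in Set.Ioi (0 : ℝ), R (u / Λ) * Real.exp (-(u - ℓ) ^ 2) := by
    rw [intervalIntegral.integral_of_le hΛ.le]
    have h2 : Set.Ioi (0 : ℝ) = Set.Ioc 0 Λ ∪ Set.Ioi Λ := (Set.Ioc_union_Ioi_eq_Ioi hΛ.le).symm
    rw [h2, setIntegral_union (Set.Ioc_disjoint_Ioi le_rfl) measurableSet_Ioi
      hRi.integrableOn hRi.integrableOn]
    have h3 : ∫ u in Set.Ioi Λ, R (u / Λ) * Real.exp (-(u - ℓ) ^ 2) = 0 := by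
      rw [setIntegral_congr_fun (g := fun _ => (0 : ℝ)) measurableSet_Ioi]
      · simp
      · intro u hu
        simp only
        rw [hR.zero (u / Λ) (by rw [lt_div_iff₀ hΛ, one_mul]; exact hu), zero_mul]
    rw [h3, add_zero]
  rw [h1]
  have h4 := integral_add_compl (measurableSet_Ioi (a := (0 : ℝ))) hRi
  have h5 : ∫ u in (Set.Ioi (0 : ℝ))ᶜ, R (u / Λ) * Real.exp (-(u - ℓ) ^ 2) ≤
      R 0 * Real.sqrt (2 * Real.pi) * Real.exp (-ℓ ^ 2 / 2) := by
    have hi2 : Integrable fun u : ℝ => Real.exp (-(u - ℓ) ^ 2 / 2) := by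
      have := (integrable_exp_neg_mul_sq (b := 1 / 2) (by norm_num)).comp_sub_right ℓ
      refine this.congr (Eventually.of_forall fun u => ?_)
      simp only
      congr 1; ring
    have hg : ∫ u : ℝ, Real.exp (-(u - ℓ) ^ 2 / 2) = Real.sqrt (2 * Real.pi) := by
      rw [integral_sub_right_eq_self (fun v : ℝ => Real.exp (-v ^ 2 / 2)) ℓ]
      have := integral_gaussian (1 / 2)
      rw [show Real.pi / (1 / 2) = 2 * Real.pi by ring] at this
      rw [← this]
      congr 1; funext v; congr 1; ring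
    calc ∫ u in (Set.Ioi (0 : ℝ))ᶜ, R (u / Λ) * Real.exp (-(u - ℓ) ^ 2) ≤
        ∫ u in (Set.Ioi (0 : ℝ))ᶜ, R 0 * Real.exp (-ℓ ^ 2 / 2) * Real.exp (-(u - ℓ) ^ 2 / 2) := by
          refine setIntegral_mono_on hRi.integrableOn (hi2.const_mul _).integrableOn
            measurableSet_Ioi.compl fun u hu => ?_
          have hu0 : u ≤ 0 := by simpa using hu
          rw [mul_assoc, ← Real.exp_add]
          apply mul_le_mul (hRle _) _ (Real.exp_pos _).le hR0
          apply Real.exp_le_exp.2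
          nlinarith
      _ = R 0 * Real.exp (-ℓ ^ 2 / 2) * ∫ u in (Set.Ioi (0 : ℝ))ᶜ,
          Real.exp (-(u - ℓ) ^ 2 / 2) := integral_const_mul _ _
      _ ≤ R 0 * Real.exp (-ℓ ^ 2 / 2) * Real.sqrt (2 * Real.pi) := by
          apply mul_le_mul_of_nonneg_left _ (by positivity)
          rw [← hg]
          exact setIntegral_le_integral hi2 (Eventually.of_forall fun u => (Real.exp_pos _).le)
      _ = _ := by ring
  have h6 : Real.sqrt Real.pi * R (ℓ / Λ) - K / Λ * ntG ≤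
      ∫ u : ℝ, R (u / Λ) * Real.exp (-(u - ℓ) ^ 2) := by
    calc Real.sqrt Real.pi * R (ℓ / Λ) - K / Λ * ntG =
        ∫ u : ℝ, (R (ℓ / Λ) * Real.exp (-(u - ℓ) ^ 2) -
          K / Λ * (|u - ℓ| * Real.exp (-(u - ℓ) ^ 2))) := by
          rw [integral_sub (hi0.const_mul _) (hi1.const_mul _), integral_const_mul,
            integral_const_mul,
            integral_sub_right_eq_self (fun v : ℝ => Real.exp (-v ^ 2)) ℓ,
            integral_sub_right_eq_self (fun v : ℝ => |v| * Real.exp (-v ^ 2)) ℓ, nt_gauss, ntG]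
          ring
      _ ≤ _ := by
          apply integral_mono ((hi0.const_mul _).sub (hi1.const_mul _)) hRi
          intro u
          simp only [Pi.sub_apply]
          have h1 := (neg_abs_le _).trans (le_refl (R (u / Λ) - R (ℓ / Λ)))
          have h0 := hlip (u / Λ) (ℓ / Λ)
          have h2 : |u / Λ - ℓ / Λ| = |u - ℓ| / Λ := by
            rw [← sub_div, abs_div, abs_of_pos hΛ]
          rw [h2] at h0
          have h3 : R (ℓ / Λ) - K / Λ * |u - ℓ| ≤ R (u / Λ) := by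
            have : K * (|u - ℓ| / Λ) = K / Λ * |u - ℓ| := by ring
            linarith
          calc R (ℓ / Λ) * Real.exp (-(u - ℓ) ^ 2) - K / Λ * (|u - ℓ| * Real.exp (-(u - ℓ) ^ 2))
              = (R (ℓ / Λ) - K / Λ * |u - ℓ|) * Real.exp (-(u - ℓ) ^ 2) := by ring
            _ ≤ _ := mul_le_mul_of_nonneg_right h3 (Real.exp_pos _).le
  linarith

/-- the smoothed sum over prime powers, from below -/
theorem lam_lower {R : ℝ → ℝ} (hR : Conv R) : ∃ C : ℝ, 0 < C ∧ ∀ Λ : ℝ, 1 ≤ Λ →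
    Real.sqrt Real.pi * Λ ^ 2 * (∫ α in (0 : ℝ)..1, α * R α) - C * Λ ≤
      ∫ u in (0 : ℝ)..Λ, R (u / Λ) * VV u := by
  obtain ⟨K, hK, hlip⟩ := hR.lip
  obtain ⟨C1, hC1, hlow⟩ := lam_sq_lower
  set w : ℕ → ℝ := fun n => (ArithmeticFunction.vonMangoldt n) ^ 2 / n with hw
  have hw0 : ∀ n, 0 ≤ w n := fun n => by simp only [hw]; positivity
  have hsm : Summable (fun n : ℕ => w n * Real.exp (-(Real.log n) ^ 2 / 8)) := nt_summable
  set C2 : ℝ := ∑' n : ℕ, w n * Real.exp (-(Real.log n) ^ 2 / 8) with hC2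
  have hC20 : 0 ≤ C2 := tsum_nonneg fun n => mul_nonneg (hw0 n) (Real.exp_pos _).le
  have hR0 : 0 ≤ R 0 := hR.nonneg 0
  have hG0 := nt_G_nonneg
  have hRc := H627SI.t5_cont hR
  set sp := Real.sqrt Real.pi with hsp
  have hsp0 : 0 ≤ sp := Real.sqrt_nonneg _
  refine ⟨sp * (C1 * R 0 + (C1 + 1) * R 0) + 50 * K * ntG +
    R 0 * Real.sqrt (2 * Real.pi) * C2 + 1, by positivity, fun Λ hΛ => ?_⟩
  have hΛ0 : 0 < Λ := by linarith
  set N : ℕ := ⌈Real.exp Λ⌉₊ with hN
  have hN0 : Real.exp Λ ≤ N := Nat.le_ceil _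
  have hexp1 : 1 ≤ Real.exp Λ := Real.one_le_exp hΛ0.le
  have hN1 : 1 ≤ N := Nat.one_le_ceil_iff.2 (by positivity)
  have hNl : Λ ≤ Real.log N := by
    rw [Real.le_log_iff_exp_le (by exact_mod_cast hN1)]
    exact hN0
  have hNu : Real.log N ≤ 2 * Λ := by
    have h1 : (N : ℝ) ≤ 2 * Real.exp Λ := by
      have := (Nat.ceil_lt_add_one (Real.exp_pos Λ).le).le
      rw [← hN] at this
      linarith
    have h2 : (2 : ℝ) ≤ Real.exp Λ := by
      have := Real.add_one_le_exp Λ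
      linarith
    have hN' : (0 : ℝ) < N := by exact_mod_cast hN1
    rw [Real.log_le_iff_le_exp hN', two_mul, Real.exp_add]
    nlinarith
  -- finite partial sum
  have hcontn : ∀ n : ℕ, Continuous fun u : ℝ => R (u / Λ) *
      (w n * Real.exp (-(u - Real.log n) ^ 2)) := fun n =>
    (hRc.comp (continuous_id.div_const Λ)).mul (by fun_prop)
  have h1 : ∑ n ∈ Finset.Icc 1 N, ∫ u in (0 : ℝ)..Λ, R (u / Λ) *
      (w n * Real.exp (-(u - Real.log n) ^ 2)) ≤ ∫ u in (0 : ℝ)..Λ, R (u / Λ) * VV u := by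
    rw [← intervalIntegral.integral_finsetSum fun n _ => (hcontn n).intervalIntegrable _ _]
    apply intervalIntegral.integral_mono_on hΛ0.le
    · exact (continuous_finsetSum _ fun n _ => hcontn n).intervalIntegrable _ _
    · apply ContinuousOn.intervalIntegrable
      refine (hRc.comp (continuous_id.div_const Λ)).continuousOn.mul ((VV_cont Λ).mono ?_)
      intro u hu
      rw [Set.uIcc_of_le hΛ0.le] at hu
      exact hu.2
    · intro u _
      rw [← Finset.mul_sum]
      apply mul_le_mul_of_nonneg_left _ (hR.nonneg _)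
      exact (VV_summable u).sum_le_tsum _ fun n _ => VV_term_nonneg u n
  refine le_trans ?_ h1
  -- each term
  have h2 : ∀ n ∈ Finset.Icc 1 N, w n * (sp * R (Real.log n / Λ)) - w n * (K / Λ * ntG) -
      R 0 * Real.sqrt (2 * Real.pi) * (w n * Real.exp (-(Real.log n) ^ 2 / 8)) ≤
      ∫ u in (0 : ℝ)..Λ, R (u / Λ) * (w n * Real.exp (-(u - Real.log n) ^ 2)) := by
    intro n hn
    have hn1 : (1 : ℝ) ≤ n := by exact_mod_cast (Finset.mem_Icc.1 hn).1
    have h3 := In_lower hR K hK hlip Λ (Real.log n) hΛ0 (Real.log_nonneg hn1)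
    have h4 : ∫ u in (0 : ℝ)..Λ, R (u / Λ) * (w n * Real.exp (-(u - Real.log n) ^ 2)) =
        w n * ∫ u in (0 : ℝ)..Λ, R (u / Λ) * Real.exp (-(u - Real.log n) ^ 2) := by
      rw [← intervalIntegral.integral_const_mul]
      apply intervalIntegral.integral_congr
      intro u _
      simp only
      ring
    rw [h4]
    have h5 : Real.exp (-(Real.log n) ^ 2 / 2) ≤ Real.exp (-(Real.log n) ^ 2 / 8) := by
      apply Real.exp_le_exp.2
      have := sq_nonneg (Real.log n)
      linarith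
    have h6 := mul_le_mul_of_nonneg_left h3 (hw0 n)
    have h7 : w n * (R 0 * Real.sqrt (2 * Real.pi) * Real.exp (-(Real.log n) ^ 2 / 2)) ≤
        w n * (R 0 * Real.sqrt (2 * Real.pi) * Real.exp (-(Real.log n) ^ 2 / 8)) := by
      apply mul_le_mul_of_nonneg_left _ (hw0 n)
      gcongr
    nlinarith
  have h3 := Finset.sum_le_sum h2
  refine le_trans ?_ h3
  rw [Finset.sum_sub_distrib, Finset.sum_sub_distrib, ← Finset.mul_sum, ← Finset.sum_mul]
  have hanti : AntitoneOn (fun s : ℝ => R (s / Λ)) (Set.Ici 0) := by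
    intro x hx y hy hxy
    exact hR.anti (Set.mem_Ici.2 (div_nonneg hx hΛ0.le)) (Set.mem_Ici.2 (div_nonneg hy hΛ0.le))
      (div_le_div_of_nonneg_right hxy hΛ0.le)
  have h4 := abel_lower w (fun s => R (s / Λ)) C1 hC1 hanti
    (hRc.comp (continuous_id.div_const Λ)) (fun s => hR.nonneg _) hlow N hN1
  simp only [zero_div] at h4
  have h5 : Λ ^ 2 * (∫ α in (0 : ℝ)..1, α * R α) - C1 * R 0 * Λ ≤
      ∫ s in (0 : ℝ)..(Real.log N), R (s / Λ) * (s - C1) := by
    have hcont : Continuous (fun s : ℝ => R (s / Λ) * (s - C1)) :=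
      (hRc.comp (continuous_id.div_const Λ)).mul (by fun_prop)
    have e1 : ∫ s in Λ..(Real.log N), R (s / Λ) * (s - C1) = 0 := by
      rw [intervalIntegral.integral_of_le hNl,
        setIntegral_congr_fun (g := fun _ => (0 : ℝ)) measurableSet_Ioc]
      · simp
      · intro s hs
        simp only
        rw [hR.zero (s / Λ) (by rw [lt_div_iff₀ hΛ0, one_mul]; exact hs.1), zero_mul]
    rw [← intervalIntegral.integral_add_adjacent_intervals (hcont.intervalIntegrable 0 Λ)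
      (hcont.intervalIntegrable Λ (Real.log N)), e1, add_zero]
    have e2 : ∫ s in (0 : ℝ)..Λ, R (s / Λ) * (s - C1) =
        Λ * ∫ α in (0 : ℝ)..1, R α * (Λ * α - C1) := by
      have h3 := intervalIntegral.integral_comp_div (a := 0) (b := Λ)
        (fun α : ℝ => R α * (Λ * α - C1)) hΛ0.ne'
      rw [zero_div, div_self hΛ0.ne', smul_eq_mul] at h3
      rw [← h3]
      refine intervalIntegral.integral_congr fun s _ => ?_
      show R (s / Λ) * (s - C1) = R (s / Λ) * (Λ * (s / Λ) - C1)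
      rw [mul_div_cancel₀ _ hΛ0.ne']
    rw [e2]
    have hca : Continuous (fun α : ℝ => α * R α) := continuous_id.mul hRc
    have e3 : ∫ α in (0 : ℝ)..1, (Λ * (α * R α) - C1 * R 0) ≤
        ∫ α in (0 : ℝ)..1, R α * (Λ * α - C1) := by
      apply intervalIntegral.integral_mono_on (by norm_num)
      · exact ((continuous_const.mul hca).sub continuous_const).intervalIntegrable _ _
      · exact (hRc.mul (by fun_prop)).intervalIntegrable _ _
      · intro α hα
        have := mul_le_mul_of_nonneg_left (H627SI.t5_le hR α hα.1) hC1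
        nlinarith
    rw [intervalIntegral.integral_sub (f := fun α : ℝ => Λ * (α * R α))
      (g := fun _ : ℝ => C1 * R 0) ((continuous_const.mul hca).intervalIntegrable _ _)
      (continuous_const.intervalIntegrable _ _), intervalIntegral.integral_const_mul,
      intervalIntegral.integral_const] at e3
    simp only [sub_zero, one_smul] at e3
    have e4 := mul_le_mul_of_nonneg_left e3 hΛ0.le
    calc _ = Λ * (Λ * (∫ α in (0 : ℝ)..1, α * R α) - C1 * R 0) := by ring
      _ ≤ _ := e4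
  have h6 : (∑ n ∈ Finset.Icc 1 N, w n) * (K / Λ * ntG) ≤ 50 * K * ntG * Λ := by
    have e1 := lam_sq_sum_nat N hN1
    have e0 : 0 ≤ Real.log N := by linarith
    have e2 : ∑ n ∈ Finset.Icc 1 N, w n ≤ 50 * Λ ^ 2 := by
      refine e1.trans ?_
      nlinarith
    calc (∑ n ∈ Finset.Icc 1 N, w n) * (K / Λ * ntG) ≤ 50 * Λ ^ 2 * (K / Λ * ntG) := by gcongr
      _ = _ := by field_simp
  have h7 : R 0 * Real.sqrt (2 * Real.pi) *
      ∑ n ∈ Finset.Icc 1 N, w n * Real.exp (-(Real.log n) ^ 2 / 8) ≤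
      R 0 * Real.sqrt (2 * Real.pi) * C2 := by
    gcongr
    exact hsm.sum_le_tsum _ fun n _ => mul_nonneg (hw0 n) (Real.exp_pos _).le
  have h8 : ∑ n ∈ Finset.Icc 1 N, w n * (sp * R (Real.log n / Λ)) =
      sp * ∑ n ∈ Finset.Icc 1 N, w n * R (Real.log n / Λ) := by
    rw [Finset.mul_sum]
    exact Finset.sum_congr rfl fun n _ => by ring
  rw [h8]
  have h9 : sp * (Λ ^ 2 * (∫ α in (0 : ℝ)..1, α * R α) - C1 * R 0 * Λ - (C1 + 1) * R 0) ≤
      sp * ∑ n ∈ Finset.Icc 1 N, w n * R (Real.log n / Λ) := by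
    apply mul_le_mul_of_nonneg_left _ hsp0
    have := hR.nonneg (Real.log N / Λ)
    linarith
  have h10 : sp * ((C1 + 1) * R 0) ≤ sp * ((C1 + 1) * R 0) * Λ := by
    have : 0 ≤ sp * ((C1 + 1) * R 0) := by positivity
    nlinarith
  have h11 : R 0 * Real.sqrt (2 * Real.pi) * C2 ≤ R 0 * Real.sqrt (2 * Real.pi) * C2 * Λ := by
    have : 0 ≤ R 0 * Real.sqrt (2 * Real.pi) * C2 := by positivity
    nlinarith
  nlinarith

end H370.A2
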