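import Pool.Agent.H345R2.A2.JJu
import Pool.Agent.H345R2.A2.JJl
import Pool.Agent.H345R2.A2.VVl
import Pool.Agent.H345R2.AS.Exc2
import Pool.Agent.H345R2.AS.PC
import Pool.Agent.H345R2.SI.Count

/-! The pair sum against a test function, two-sided. -/

open Complex Filter Topology Set MeasureTheory
open scoped BigOperators ComplexConjugate

namespace H370.A2

open H295SI H370.AS
open H613SI (conv_cont conv_le)
open H370.SI (nn_short)

/-- the pair sum of the zeros in `(A, B]` against the test function `R`, at scale `Λ` -/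
noncomputable def PS (R : ℝ → ℝ) (F : ℂ → ℂ) (A B Λ : ℝ) : ℝ :=
  2 / Real.sqrt Real.pi * ∫ α in (0 : ℝ)..1, R α * JJ F A B (Λ * α)

lemma gauss_x (b : ℝ) (hb : 0 < b) :
    ∫ α in (0 : ℝ)..1, α * Real.exp (-(b * α) ^ 2) ≤ 1 / (2 * b ^ 2) := by
  have h1 : ∀ α : ℝ, HasDerivAt (fun α : ℝ => -Real.exp (-(b * α) ^ 2) / (2 * b ^ 2))
      (α * Real.exp (-(b * α) ^ 2)) α := by
    intro α
    have h2 : HasDerivAt (fun α : ℝ => -(b * α) ^ 2) (-(2 * (b * α) * b)) α := by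
      have h3 := (((hasDerivAt_id α).const_mul b).fun_pow 2).neg
      refine h3.congr_deriv ?_
      simp only [id]
      push_cast
      ring
    have h4 := (h2.exp.neg).div_const (2 * b ^ 2)
    refine h4.congr_deriv ?_
    field_simp
  have hc : Continuous fun α : ℝ => α * Real.exp (-(b * α) ^ 2) := by fun_prop
  rw [intervalIntegral.integral_eq_sub_of_hasDerivAt (fun x _ => h1 x) (hc.intervalIntegrable _ _)]
  have h5 : 0 < Real.exp (-(b * 1) ^ 2) := Real.exp_pos _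
  have h6 : -Real.exp (-(b * 1) ^ 2) / (2 * b ^ 2) ≤ 0 :=
    div_nonpos_of_nonpos_of_nonneg (by linarith) (by positivity)
  have h7 : -Real.exp (-(b * 0) ^ 2) / (2 * b ^ 2) = -(1 / (2 * b ^ 2)) := by
    simp
    ring
  rw [h7]
  linarith

lemma a1_lower {R : ℝ → ℝ} (hR : Conv R) : ∃ C : ℝ, 0 < C ∧ ∀ b : ℝ, 1 ≤ b →
    R 0 * (Real.sqrt Real.pi / (2 * b)) - C / b ^ 2 ≤
      ∫ α in (0 : ℝ)..1, R α * Real.exp (-(b * α) ^ 2) := by
  obtain ⟨K, hK, hlip⟩ := hR.lip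
  have hRc := conv_cont hR
  have hR0 : 0 ≤ R 0 := hR.nonneg 0
  refine ⟨K + R 0 * (2 * Real.sqrt (2 * Real.pi)) + 1, by positivity, fun b hb => ?_⟩
  have hb0 : 0 < b := by linarith
  have hg : Continuous fun α : ℝ => Real.exp (-(b * α) ^ 2) := by fun_prop
  have hg2 : Continuous fun α : ℝ => α * Real.exp (-(b * α) ^ 2) := by fun_prop
  have h1 : ∫ α in (0 : ℝ)..1, (R 0 * Real.exp (-(b * α) ^ 2) -
      K * (α * Real.exp (-(b * α) ^ 2))) ≤ ∫ α in (0 : ℝ)..1, R α * Real.exp (-(b * α) ^ 2) := by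
    refine intervalIntegral.integral_mono_on zero_le_one
      (((continuous_const.mul hg).sub (continuous_const.mul hg2)).intervalIntegrable _ _)
      ((hRc.mul hg).intervalIntegrable _ _) fun α hα => ?_
    have h2 := hlip 0 α
    rw [zero_sub, abs_neg, abs_of_nonneg hα.1] at h2
    have h3 := (le_abs_self _).trans h2
    have h4 := Real.exp_pos (-(b * α) ^ 2)
    nlinarith
  have hgi : Integrable fun α : ℝ => Real.exp (-(b * α) ^ 2) := by
    have := integrable_exp_neg_mul_sq (b := b ^ 2) (by positivity)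
    refine this.congr (Eventually.of_forall fun α => ?_)
    simp only
    congr 1; ring
  have h2 : Real.sqrt Real.pi / (2 * b) - 2 * Real.sqrt (2 * Real.pi) / b ^ 2 ≤
      ∫ α in (0 : ℝ)..1, Real.exp (-(b * α) ^ 2) := by
    have h3 : ∫ α in Set.Ioi (0 : ℝ), Real.exp (-(b * α) ^ 2) = Real.sqrt Real.pi / (2 * b) := by
      have := integral_gaussian_Ioi (b ^ 2)
      rw [Real.sqrt_div Real.pi_pos.le, Real.sqrt_sq hb0.le] at this
      rw [show Real.sqrt Real.pi / (2 * b) = Real.sqrt Real.pi / b / 2 by field_simp, ← this]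
      congr 1; funext v; congr 1; ring
    have h4 : Set.Ioi (0 : ℝ) = Set.Ioc 0 1 ∪ Set.Ioi 1 :=
      (Set.Ioc_union_Ioi_eq_Ioi zero_le_one).symm
    rw [h4, setIntegral_union (Set.Ioc_disjoint_Ioi le_rfl) measurableSet_Ioi
      hgi.integrableOn hgi.integrableOn, ← intervalIntegral.integral_of_le zero_le_one] at h3
    have h5 : ∫ α in Set.Ioi (1 : ℝ), Real.exp (-(b * α) ^ 2) ≤
        2 * Real.sqrt (2 * Real.pi) / b ^ 2 := by
      have hi2 : Integrable fun u : ℝ => Real.exp (-(b ^ 2 / 2) * u ^ 2) :=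
        integrable_exp_neg_mul_sq (by positivity)
      calc ∫ α in Set.Ioi (1 : ℝ), Real.exp (-(b * α) ^ 2) ≤
          ∫ α in Set.Ioi (1 : ℝ), Real.exp (-(b ^ 2 / 2)) * Real.exp (-(b ^ 2 / 2) * α ^ 2) := by
            refine setIntegral_mono_on hgi.integrableOn (hi2.const_mul _).integrableOn
              measurableSet_Ioi fun α hα => ?_
            rw [← Real.exp_add]
            apply Real.exp_le_exp.2
            have h6 : (1 : ℝ) ≤ α := le_of_lt hα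
            nlinarith [mul_nonneg (sq_nonneg b) (show 0 ≤ α ^ 2 - 1 by nlinarith)]
        _ = Real.exp (-(b ^ 2 / 2)) * ∫ α in Set.Ioi (1 : ℝ), Real.exp (-(b ^ 2 / 2) * α ^ 2) :=
            integral_const_mul _ _
        _ ≤ Real.exp (-(b ^ 2 / 2)) * ∫ α : ℝ, Real.exp (-(b ^ 2 / 2) * α ^ 2) := by
            apply mul_le_mul_of_nonneg_left _ (Real.exp_pos _).le
            exact setIntegral_le_integral hi2 (Eventually.of_forall fun u => (Real.exp_pos _).le)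
        _ = Real.exp (-(b ^ 2 / 2)) * (Real.sqrt (2 * Real.pi) / b) := by
            rw [integral_gaussian, show Real.pi / (b ^ 2 / 2) = 2 * Real.pi / b ^ 2 by
              field_simp, Real.sqrt_div (by positivity), Real.sqrt_sq hb0.le]
        _ ≤ (2 / b ^ 2) * (Real.sqrt (2 * Real.pi) / 1) := by
            have h7 : Real.exp (-(b ^ 2 / 2)) ≤ 2 / b ^ 2 := by
              rw [Real.exp_neg, le_div_iff₀ (by positivity), inv_mul_le_iff₀ (Real.exp_pos _)]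
              have := Real.add_one_le_exp (b ^ 2 / 2)
              linarith
            gcongr
        _ = _ := by ring
    linarith
  rw [intervalIntegral.integral_sub (f := fun α : ℝ => R 0 * Real.exp (-(b * α) ^ 2))
    (g := fun α : ℝ => K * (α * Real.exp (-(b * α) ^ 2)))
    ((continuous_const.mul hg).intervalIntegrable _ _)
    ((continuous_const.mul hg2).intervalIntegrable _ _), intervalIntegral.integral_const_mul,
    intervalIntegral.integral_const_mul] at h1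
  have h3 := gauss_x b hb0
  have h4 : K * ∫ α in (0 : ℝ)..1, α * Real.exp (-(b * α) ^ 2) ≤ K / b ^ 2 := by
    calc K * ∫ α in (0 : ℝ)..1, α * Real.exp (-(b * α) ^ 2) ≤ K * (1 / (2 * b ^ 2)) := by gcongr
      _ = K / b ^ 2 / 2 := by field_simp
      _ ≤ K / b ^ 2 := by
        have : 0 ≤ K / b ^ 2 := by positivity
        linarith
  have h5 := mul_le_mul_of_nonneg_left h2 hR0
  have h6 : 0 ≤ 1 / b ^ 2 := by positivity
  have h7 : (K + R 0 * (2 * Real.sqrt (2 * Real.pi)) + 1) / b ^ 2 =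
      K / b ^ 2 + R 0 * (2 * Real.sqrt (2 * Real.pi) / b ^ 2) + 1 / b ^ 2 := by ring
  rw [h7]
  linarith

lemma a3_lower {R : ℝ → ℝ} (hR : Conv R) : ∃ C : ℝ, 0 < C ∧ ∀ b : ℝ, 1 ≤ b →
    Real.sqrt Real.pi * b * (∫ α in (0 : ℝ)..1, α * R α) - C ≤
      ∫ α in (0 : ℝ)..1, R α * VV (b * α) := by
  obtain ⟨C4, hC4, hlam⟩ := lam_lower hR
  refine ⟨C4, hC4, fun b hb => ?_⟩
  have hb0 : 0 < b := by linarith
  have h1 := hlam b hb
  have h2 : ∫ α in (0 : ℝ)..1, R α * VV (b * α) =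
      b⁻¹ * ∫ u in (0 : ℝ)..b, R (u / b) * VV u := by
    have h3 := intervalIntegral.integral_comp_mul_left (a := (0 : ℝ)) (b := 1)
      (fun u => R (u / b) * VV u) (c := b) hb0.ne'
    rw [mul_zero, mul_one, smul_eq_mul] at h3
    rw [← h3]
    refine intervalIntegral.integral_congr fun α _ => ?_
    show R α * VV (b * α) = R (b * α / b) * VV (b * α)
    rw [mul_div_cancel_left₀ _ hb0.ne']
  rw [h2]
  set I1 := ∫ α in (0 : ℝ)..1, α * R α
  calc Real.sqrt Real.pi * b * I1 - C4 = b⁻¹ * (Real.sqrt Real.pi * b ^ 2 * I1 - C4 * b) := by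
        field_simp
    _ ≤ _ := by gcongr

lemma pow_low (θ : ℝ) (h0 : 0 ≤ θ) (h1 : θ ≤ 1 / 4) : 1 - 4 * θ ≤ (1 - θ) ^ 3 / (1 + θ) := by
  rw [le_div_iff₀ (by linarith)]
  nlinarith [mul_nonneg h0 h0, mul_nonneg (mul_nonneg h0 h0) (sub_nonneg.mpr h1),
    mul_nonneg h0 (sub_nonneg.mpr h1)]

lemma pow_low2 (θ : ℝ) (h0 : 0 ≤ θ) (h1 : θ ≤ 1 / 4) :
    1 - 4 * θ ≤ (1 - θ) / ((1 + θ) * (1 + θ)) := by
  rw [le_div_iff₀ (by positivity)]
  nlinarith [mul_nonneg h0 h0, mul_nonneg (mul_nonneg h0 h0) (sub_nonneg.mpr h1),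
    mul_nonneg h0 (sub_nonneg.mpr h1)]



lemma comb_low (θ H L LT R0 spi μ I1 C1 K1 E C3 K2 i1 i2 i3 i4 i5 J : ℝ) (hθ0 : 0 < θ)
    (hθ4 : θ ≤ 1 / 4) (hH0 : 0 < H) (hLT : 0 < LT) (hL : 0 < L) (hLl : (1 - θ) * LT ≤ L)
    (hL2 : L ≤ 2 * LT) (hR0 : 0 ≤ R0) (hspi : 0 < spi) (hμ : 0 < μ) (hI1 : 0 ≤ I1) (hC1 : 0 < C1)
    (hK1 : 0 < K1) (hE : 0 ≤ E) (hC3 : 0 < C3) (hK2 : 0 < K2)
    (hb1 : R0 * (spi / (2 * (μ * LT))) - C1 / (μ * LT) ^ 2 ≤ i1) (ha2 : i2 ≤ E / (μ * LT))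
    (hb3 : spi * (μ * LT) * I1 - C3 ≤ i3) (ha4 : i4 ≤ R0) (ha5 : i5 ≤ H)
    (hb : 1 / (2 * Real.pi * (1 + θ)) * ((1 - θ) * H * L ^ 2) * i1 +
          (-(1 / (2 * Real.pi * (1 + θ)) * (K1 * (H * L)))) * i2 +
          1 / (2 * Real.pi * (1 + θ)) * ((1 - θ) / (1 + θ) * H) * i3 + (-(K2 * H)) * i4 +
          (-(1 / (2 * Real.pi * (1 + θ)))) * i5 ≤ J) :
    (H * LT / (2 * Real.pi)) * ((1 - 4 * θ) * (R0 / μ + 2 * μ * I1)) -
      H * (2 / spi * (1 / (2 * Real.pi * (1 + θ)) * (4 * C1 / μ ^ 2 + 2 * K1 * E / μ + C3 + 1) +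
        K2 * R0)) ≤ 2 / spi * J := by
  have hpi := Real.pi_pos
  set k : ℝ := 1 / (2 * Real.pi * (1 + θ)) with hk
  have hk0 : 0 < k := by positivity
  have h1θ : 0 ≤ 1 - θ := by linarith
  have t1 : k * ((1 - θ) * H * (((1 - θ) * LT) ^ 2)) * (R0 * (spi / (2 * (μ * LT)))) -
      k * H * (4 * C1 / μ ^ 2) ≤ k * ((1 - θ) * H * L ^ 2) * i1 := by
    have e1 : 0 ≤ k * ((1 - θ) * H * L ^ 2) := by positivity
    have e2 := mul_le_mul_of_nonneg_left hb1 e1
    refine le_trans ?_ e2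
    rw [mul_sub]
    have e3 : ((1 - θ) * LT) ^ 2 ≤ L ^ 2 := by gcongr
    have e4 : k * ((1 - θ) * H * (((1 - θ) * LT) ^ 2)) * (R0 * (spi / (2 * (μ * LT)))) ≤
        k * ((1 - θ) * H * L ^ 2) * (R0 * (spi / (2 * (μ * LT)))) := by gcongr
    have e5 : k * ((1 - θ) * H * L ^ 2) * (C1 / (μ * LT) ^ 2) ≤ k * H * (4 * C1 / μ ^ 2) := by
      calc k * ((1 - θ) * H * L ^ 2) * (C1 / (μ * LT) ^ 2) ≤
          k * (1 * H * (2 * LT) ^ 2) * (C1 / (μ * LT) ^ 2) := by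
            gcongr
            linarith
        _ = k * H * (4 * C1 / μ ^ 2) := by
            field_simp; ring
    linarith
  have t2 : k * (K1 * (H * L)) * i2 ≤ k * H * (2 * K1 * E / μ) := by
    calc k * (K1 * (H * L)) * i2 ≤ k * (K1 * (H * L)) * (E / (μ * LT)) := by gcongr
      _ ≤ k * (K1 * (H * (2 * LT))) * (E / (μ * LT)) := by gcongr
      _ = _ := by field_simp
  have t3 : k * ((1 - θ) / (1 + θ) * H) * (spi * (μ * LT) * I1) - k * H * C3 ≤
      k * ((1 - θ) / (1 + θ) * H) * i3 := by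
    have e1 : 0 ≤ k * ((1 - θ) / (1 + θ) * H) := by positivity
    have e2 := mul_le_mul_of_nonneg_left hb3 e1
    refine le_trans ?_ e2
    rw [mul_sub]
    have e3 : (1 - θ) / (1 + θ) ≤ 1 := by
      rw [div_le_one (by linarith)]; linarith
    have e4 : k * ((1 - θ) / (1 + θ) * H) * C3 ≤ k * (1 * H) * C3 := by gcongr
    linarith
  have t4 : K2 * H * i4 ≤ K2 * H * R0 := by gcongr
  have t5 : k * i5 ≤ k * H := by gcongr
  have htot : k * ((1 - θ) * H * (((1 - θ) * LT) ^ 2)) * (R0 * (spi / (2 * (μ * LT)))) +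
      k * ((1 - θ) / (1 + θ) * H) * (spi * (μ * LT) * I1) -
      (k * H * (4 * C1 / μ ^ 2) + k * H * (2 * K1 * E / μ) +
        k * H * C3 + K2 * H * R0 + k * H) ≤ J := by linarith
  have h2 := mul_le_mul_of_nonneg_left htot (show 0 ≤ 2 / spi by positivity)
  have halg1 : 2 / spi * (k * ((1 - θ) * H * (((1 - θ) * LT) ^ 2)) * (R0 * (spi / (2 * (μ * LT))))) =
      (H * LT / (2 * Real.pi)) * ((1 - θ) ^ 3 / (1 + θ) * (R0 / μ)) := by
    rw [hk]
    field_simp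
  have halg2 : 2 / spi * (k * ((1 - θ) / (1 + θ) * H) * (spi * (μ * LT) * I1)) =
      (H * LT / (2 * Real.pi)) * ((1 - θ) / ((1 + θ) * (1 + θ)) * (2 * μ * I1)) := by
    rw [hk]
    field_simp
  have h3 : (1 - 4 * θ) * (R0 / μ + 2 * μ * I1) ≤ (1 - θ) ^ 3 / (1 + θ) * (R0 / μ) +
        (1 - θ) / ((1 + θ) * (1 + θ)) * (2 * μ * I1) := by
    rw [mul_add]
    have e1 : 0 ≤ R0 / μ := by positivity
    have e2 : 0 ≤ 2 * μ * I1 := by positivity
    have e3 := pow_low θ hθ0.le hθ4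
    have e4 := pow_low2 θ hθ0.le hθ4
    gcongr
  have hM0 : 0 ≤ H * LT / (2 * Real.pi) := by positivity
  have h5 := mul_le_mul_of_nonneg_left h3 hM0
  rw [mul_add] at h5
  refine le_trans ?_ h2
  have e : 2 / spi * (k * ((1 - θ) * H * (((1 - θ) * LT) ^ 2)) * (R0 * (spi / (2 * (μ * LT)))) +
      k * ((1 - θ) / (1 + θ) * H) * (spi * (μ * LT) * I1) -
      (k * H * (4 * C1 / μ ^ 2) + k * H * (2 * K1 * E / μ) +
        k * H * C3 + K2 * H * R0 + k * H)) =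
      2 / spi * (k * ((1 - θ) * H * (((1 - θ) * LT) ^ 2)) * (R0 * (spi / (2 * (μ * LT))))) +
      2 / spi * (k * ((1 - θ) / (1 + θ) * H) * (spi * (μ * LT) * I1)) -
      H * (2 / spi * (k * (4 * C1 / μ ^ 2 + 2 * K1 * E / μ + C3 + 1) + K2 * R0)) := by ring
  rw [e, halg1, halg2]
  linarith

lemma comb_up (θ H L LT R0 spi μ I1 K1 E C4 K2 i1 i2 i3 i4 i5 J : ℝ) (hθ0 : 0 < θ)
    (hθ4 : θ ≤ 1 / 4) (hH0 : 0 < H) (hLT : 0 < LT) (hL : 0 < L) (hLu : L ≤ (1 + θ) * LT)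
    (hL2 : L ≤ 2 * LT) (hR0 : 0 ≤ R0) (hspi : 0 < spi) (hμ : 0 < μ) (hI1 : 0 ≤ I1)
    (hK1 : 0 < K1) (hE : 0 ≤ E) (hK2 : 0 < K2)
    (ha1 : i1 ≤ R0 * (spi / (2 * (μ * LT)))) (ha2 : i2 ≤ E / (μ * LT))
    (ha3 : i3 ≤ spi * (μ * LT) * I1 + C4) (ha4 : i4 ≤ R0) (ha5 : i5 ≤ H)
    (hb : J ≤ (1 + θ) / (2 * Real.pi) * (H * L ^ 2) * i1 +
          (1 + θ) / (2 * Real.pi) * (K1 * (H * L)) * i2 +
          (1 + θ) / (2 * Real.pi) * ((1 + θ) ^ 3 * H) * i3 + K2 * H * i4 +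
          (1 + θ) / (2 * Real.pi) * (1 + θ) ^ 2 * i5) :
    2 / spi * J ≤ (H * LT / (2 * Real.pi)) * ((1 + 15 * θ) * (R0 / μ + 2 * μ * I1)) +
      H * (2 / spi * ((1 + θ) / (2 * Real.pi) * (2 * K1 * E / μ + (1 + θ) ^ 3 * C4 +
        (1 + θ) ^ 2) + K2 * R0)) := by
  have hpi := Real.pi_pos
  set k : ℝ := (1 + θ) / (2 * Real.pi) with hk
  have hk0 : 0 < k := by positivity
  have t1 : k * (H * L ^ 2) * i1 ≤ k * (H * ((1 + θ) * LT) ^ 2) * (R0 * (spi / (2 * (μ * LT)))) := by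
    calc k * (H * L ^ 2) * i1 ≤ k * (H * L ^ 2) * (R0 * (spi / (2 * (μ * LT)))) := by gcongr
      _ ≤ _ := by gcongr
  have t2 : k * (K1 * (H * L)) * i2 ≤ k * H * (2 * K1 * E / μ) := by
    calc k * (K1 * (H * L)) * i2 ≤ k * (K1 * (H * L)) * (E / (μ * LT)) := by gcongr
      _ ≤ k * (K1 * (H * (2 * LT))) * (E / (μ * LT)) := by gcongr
      _ = _ := by field_simp
  have t3 : k * ((1 + θ) ^ 3 * H) * i3 ≤ k * ((1 + θ) ^ 3 * H) * (spi * (μ * LT) * I1 + C4) := by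
    gcongr
  have t4 : K2 * H * i4 ≤ K2 * H * R0 := by gcongr
  have t5 : k * (1 + θ) ^ 2 * i5 ≤ k * (1 + θ) ^ 2 * H := by gcongr
  have htot : J ≤ k * (H * ((1 + θ) * LT) ^ 2) * (R0 * (spi / (2 * (μ * LT)))) +
      k * H * (2 * K1 * E / μ) + k * ((1 + θ) ^ 3 * H) * (spi * (μ * LT) * I1 + C4) +
      K2 * H * R0 + k * (1 + θ) ^ 2 * H := by linarith
  have h2 := mul_le_mul_of_nonneg_left htot (show 0 ≤ 2 / spi by positivity)
  have halg1 : 2 / spi * (k * (H * ((1 + θ) * LT) ^ 2) * (R0 * (spi / (2 * (μ * LT))))) =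
      (H * LT / (2 * Real.pi)) * ((1 + θ) ^ 3 * (R0 / μ)) := by
    rw [hk]
    field_simp
  have halg2 : 2 / spi * (k * ((1 + θ) ^ 3 * H) * (spi * (μ * LT) * I1)) =
      (H * LT / (2 * Real.pi)) * ((1 + θ) ^ 4 * (2 * μ * I1)) := by
    rw [hk]
    field_simp
  have hcube : (1 + θ) ^ 4 ≤ 1 + 15 * θ := pow4_aux θ hθ0.le (by linarith)
  have hcube3 : (1 + θ) ^ 3 ≤ 1 + 15 * θ := by
    refine le_trans ?_ hcube
    exact pow_le_pow_right₀ (by linarith) (by norm_num)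
  have h3 : (1 + θ) ^ 3 * (R0 / μ) + (1 + θ) ^ 4 * (2 * μ * I1) ≤
      (1 + 15 * θ) * (R0 / μ + 2 * μ * I1) := by
    rw [mul_add]
    have e1 : 0 ≤ R0 / μ := by positivity
    have e2 : 0 ≤ 2 * μ * I1 := by positivity
    gcongr
  have hM0 : 0 ≤ H * LT / (2 * Real.pi) := by positivity
  have h5 := mul_le_mul_of_nonneg_left h3 hM0
  rw [mul_add] at h5
  refine h2.trans ?_
  have e : 2 / spi * (k * (H * ((1 + θ) * LT) ^ 2) * (R0 * (spi / (2 * (μ * LT)))) +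
      k * H * (2 * K1 * E / μ) + k * ((1 + θ) ^ 3 * H) * (spi * (μ * LT) * I1 + C4) +
      K2 * H * R0 + k * (1 + θ) ^ 2 * H) =
      2 / spi * (k * (H * ((1 + θ) * LT) ^ 2) * (R0 * (spi / (2 * (μ * LT))))) +
      2 / spi * (k * ((1 + θ) ^ 3 * H) * (spi * (μ * LT) * I1)) +
      H * (2 / spi * (k * (2 * K1 * E / μ + (1 + θ) ^ 3 * C4 + (1 + θ) ^ 2) + K2 * R0)) := by ring
  rw [e, halg1, halg2]
  linarith

lemma abs_log_aux (H L LT C5 N η : ℝ) (hH0 : 0 < H) (hC5 : 0 < C5) (hη : 0 < η)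
    (hLT : |LT - L| ≤ 1) (h1 : |N - H * L / (2 * Real.pi)| ≤ C5 * (H + L ^ 2)) (hLH : L ^ 2 ≤ H)
    (hL7 : 4 * Real.pi * (2 * C5 + 1) / η ≤ LT) :
    |N - H * LT / (2 * Real.pi)| ≤ η * (H * LT / (2 * Real.pi)) := by
  have h2 : C5 * (H + L ^ 2) ≤ 2 * C5 * H := by nlinarith
  have hpi := Real.pi_gt_three
  have h3 : |H * L / (2 * Real.pi) - H * LT / (2 * Real.pi)| ≤ H := by
    rw [← sub_div, ← mul_sub, abs_div, abs_mul, abs_of_pos hH0,
      abs_of_pos (show 0 < 2 * Real.pi by positivity), div_le_iff₀ (by positivity)]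
    have h4 : |L - LT| ≤ 1 := by rw [abs_sub_comm]; exact hLT
    nlinarith
  have h5 : (2 * C5 + 1) * H ≤ η * (H * LT / (2 * Real.pi)) := by
    rw [div_le_iff₀ hη] at hL7
    have e3 : η * (H * LT / (2 * Real.pi)) = H * (LT * η) / (2 * Real.pi) := by ring
    rw [e3, le_div_iff₀ (by positivity)]
    have h7 : 0 ≤ (2 * C5 + 1) * H * (2 * Real.pi) := by positivity
    nlinarith
  calc |N - H * LT / (2 * Real.pi)| ≤
      |N - H * L / (2 * Real.pi)| + |H * L / (2 * Real.pi) - H * LT / (2 * Real.pi)| :=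
        abs_sub_le _ _ _
    _ ≤ C5 * (H + L ^ 2) + H := by
        apply add_le_add h1 h3
    _ ≤ η * (H * LT / (2 * Real.pi)) := by linarith

lemma err_aux (H LT η K : ℝ) (hH0 : 0 < H) (hη : 0 < η) (hL : 4 * Real.pi * K / η ≤ LT) :
    H * K ≤ (H * LT / (2 * Real.pi)) * (η / 2) := by
  have hpi := Real.pi_pos
  rw [div_le_iff₀ hη] at hL
  have e3 : (H * LT / (2 * Real.pi)) * (η / 2) = H * (LT * η) / (4 * Real.pi) := by
    field_simp; ring
  rw [e3, le_div_iff₀ (by positivity)]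
  nlinarith

/-- the pair sum, two-sided -/
theorem pair_two {R : ℝ → ℝ} (hR : Conv R) {F : ℂ → ℂ} (hF : GoodL F) {a : ℕ → ℂ}
    (han : ∀ n, ‖a n‖ = ArithmeticFunction.vonMangoldt n)
    (hld : ∀ s : ℂ, 1 < s.re → 1 ≤ s.im → deriv F s / F s = - ∑' n : ℕ, a n * (n : ℂ) ^ (-s))
    {τ : ℝ} (hτ : 0 ≤ τ) :
    ∀ r μ lam κ η : ℝ, 0 < r → r < 1 → 0 < μ → μ < lam → lam ≤ 1 → 2 * τ * lam < r → 0 < κ →
    0 < η →
    ∃ θ : ℝ, 0 < θ ∧ θ ≤ 1 ∧ ∃ T0 : ℝ, 10 ≤ T0 ∧ ∀ T : ℝ, T0 ≤ T → ∀ LT : ℝ,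
      |LT - Real.log T| ≤ 1 →
    ∀ A B : ℝ, T + 1 ≤ A → B ≤ 2 * T - 1 → T ^ r ≤ B - A →
      (∀ s : ℂ, s ∈ zset F A B →
        (s.im ≤ A + 2 * Real.log T ∨ B - 2 * Real.log T ≤ s.im) → s.re ≤ 1 / 2 + τ) →
      ∀ σ w : ℝ, ∀ X : ℕ, 0 < σ → 0 ≤ w → w ≤ θ / 4 * (B - A) →
      Real.sqrt 2 * Real.exp (-w ^ 2 / (4 * σ ^ 2)) ≤ θ / (1 + θ) →
      (X : ℝ) ^ 4 * (Real.sqrt 2 * Real.exp (-w ^ 2 / (4 * σ ^ 2))) ≤ 1 →
      (lam + κ) * Real.log T ≤ Real.log (X + 1) →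
      ∫ x in (A - w)..(B + w), QE R a (μ * LT) X σ x ≤ B - A →
      |(NN F A B : ℝ) - (B - A) * LT / (2 * Real.pi)| ≤ η * ((B - A) * LT / (2 * Real.pi)) ∧
      |PS R F A B (μ * LT) - ((B - A) * LT / (2 * Real.pi)) * cR R μ| ≤
        η * ((B - A) * LT / (2 * Real.pi)) := by
  have ha : ∀ n, ‖a n‖ ≤ ArithmeticFunction.vonMangoldt n := fun n => (han n).le
  intro r μ lam κ η hr hr1 hμ hμlam hlam1 hgap hκ hη
  have hlam : 0 < lam := hμ.trans hμlam
  set I1 := ∫ α in (0 : ℝ)..1, α * R α with hI1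
  have hI10 : 0 ≤ I1 := intervalIntegral.integral_nonneg zero_le_one fun α hα =>
    mul_nonneg hα.1 (hR.nonneg α)
  have hR0 : 0 ≤ R 0 := hR.nonneg 0
  set Q0 := R 0 / μ + 2 * μ * I1 with hQ0
  have hQ00 : 0 ≤ Q0 := by positivity
  have hcR : cR R μ = Q0 := rfl
  -- choose θ
  set θ : ℝ := min (1 / 4) (η / (30 * (Q0 + 1))) with hθ
  have hθ0 : 0 < θ := lt_min (by norm_num) (by positivity)
  have hθ4 : θ ≤ 1 / 4 := min_le_left _ _
  have hθ1 : θ ≤ 1 := by linarith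
  have hθ2 : 15 * θ * Q0 ≤ η / 2 := by
    have h1 : θ ≤ η / (30 * (Q0 + 1)) := min_le_right _ _
    rw [le_div_iff₀ (by positivity)] at h1
    nlinarith
  obtain ⟨K1, K2, T0, hK1, hK2, hT0, hJu⟩ :=
    JJ_upper hF ha hld hτ r lam κ θ hr hr1 hlam hlam1 hgap hκ hθ0 hθ1
  obtain ⟨K1', K2', T0', hK1', hK2', hT0', hJl⟩ :=
    JJ_lower hF han hld lam κ θ hlam hlam1 hκ hθ0 hθ1
  obtain ⟨C4, hC4, ha3'⟩ := H613SI.a3_aux H627SI.lamSmooth hR
  obtain ⟨C1l, hC1l, ha1l⟩ := a1_lower hR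
  obtain ⟨C3l, hC3l, ha3l⟩ := a3_lower hR
  obtain ⟨C5, hC5, hNN⟩ := nn_short hF
  -- the constants
  set spi := Real.sqrt Real.pi with hspi
  have hspi0 : 0 < spi := Real.sqrt_pos.mpr Real.pi_pos
  set K5 : ℝ := 2 / spi * ((1 + θ) / (2 * Real.pi) * (2 * K1 * (R 0 * (Real.exp 4 * spi)) / μ +
    (1 + θ) ^ 3 * C4 + (1 + θ) ^ 2) + K2 * R 0) with hK5
  have hK50 : 0 ≤ K5 := by positivity
  have hE0 : 0 ≤ R 0 * (Real.exp 4 * spi) := by positivity
  set K6 : ℝ := 2 / spi * (1 / (2 * Real.pi * (1 + θ)) * (4 * C1l / μ ^ 2 +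
    2 * K1' * (R 0 * (Real.exp 4 * spi)) / μ + C3l + 1) + K2' * R 0) with hK6
  have hK60 : 0 ≤ K6 := by positivity
  have evL : ∀ᶠ T : ℝ in atTop, ((4 * Real.pi * K5 / η + 1 ≤ Real.log T ∧
      4 * Real.pi * K6 / η + 1 ≤ Real.log T) ∧
      (4 * Real.pi * (2 * C5 + 1) / η + 1 ≤ Real.log T ∧
      1 / μ + 1 ≤ Real.log T)) ∧ (1 / θ + 1 ≤ Real.log T ∧ μ / (lam - μ) ≤ Real.log T) :=
    (((Real.tendsto_log_atTop.eventually_ge_atTop _).and
      (Real.tendsto_log_atTop.eventually_ge_atTop _)).and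
      ((Real.tendsto_log_atTop.eventually_ge_atTop _).and
        (Real.tendsto_log_atTop.eventually_ge_atTop _))).and
      ((Real.tendsto_log_atTop.eventually_ge_atTop _).and
        (Real.tendsto_log_atTop.eventually_ge_atTop _))
  have ev4 := H613SI.ev_pow r hr
  have ev5 : ∀ᶠ T : ℝ in atTop, 4 * Real.log T ≤ θ * T ^ r := by
    have h1 := (isLittleO_log_rpow_atTop hr).bound (show (0 : ℝ) < θ / 4 by positivity)
    filter_upwards [h1, eventually_ge_atTop 1] with T hT hT1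
    have hl : 0 ≤ Real.log T := Real.log_nonneg hT1
    rw [Real.norm_of_nonneg hl, Real.norm_of_nonneg (by positivity)] at hT
    linarith
  obtain ⟨T6, hT6⟩ := ((evL.and ev4).and ev5).exists_forall_of_atTop
  refine ⟨θ, hθ0, hθ1, max (max T0 T0') T6, (hT0.trans (le_max_left _ _)).trans (le_max_left _ _),
    fun T hT LT hLT => ?_⟩
  have hTT0 : T0 ≤ T := ((le_max_left _ _).trans (le_max_left _ _)).trans hT
  have hTT0' : T0' ≤ T := ((le_max_right _ _).trans (le_max_left _ _)).trans hT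
  obtain ⟨⟨⟨⟨⟨hL5, hL6⟩, hL7, hL2⟩, hL8, hL9⟩, hL10, hL11⟩, hL12⟩ :=
    hT6 T ((le_max_right _ _).trans hT)
  intro A B hA hB hAB hz σ w X hσ hw0 hw1 hmass hmass2 hXlog hQE
  have hJu' := hJu T hTT0 A B hA hB hAB hz σ w X hσ hw0 hw1 hmass hXlog
  have hT10 : 10 ≤ T := hT0.trans hTT0
  have hTpos : 0 < T := by linarith
  have hU : 1 ≤ A := by linarith
  set L := Real.log T with hL
  set H : ℝ := B - A with hHdef
  have hH0 : 0 < H := by linarith
  have hJl' := hJl T hTT0' A B hA hB (by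
    calc 4 * L ≤ θ * T ^ r := hL12
      _ ≤ θ * H := by gcongr) σ w X hσ hw0 hw1 hmass2 hXlog
  obtain ⟨hLT1, hLT2⟩ := abs_le.1 hLT
  have hLLT : L - 1 ≤ LT := by linarith
  have hLLT2 : LT ≤ L + 1 := by linarith
  have hθinv : 1 / θ ≤ LT := by linarith
  have hμinv : 1 / μ ≤ LT := by linarith
  have hLTpos : 0 < LT := lt_of_lt_of_le (by positivity) hθinv
  have hθLT : 1 ≤ θ * LT := by
    rw [div_le_iff₀ hθ0] at hθinv
    linarith
  have hLpos : 0 < L := by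
    have : 0 < 1 / θ := by positivity
    linarith
  -- comparison of the logarithms
  have hLu : L ≤ (1 + θ) * LT := by linarith
  have hLl : (1 - θ) * LT ≤ L := by linarith
  have hL2T : L ≤ 2 * LT := by nlinarith
  refine ⟨?_, ?_⟩
  · have h1 := hNN T hT10 A B (by linarith) (by linarith) (by linarith)
    rw [← hHdef, ← hL] at h1
    exact abs_log_aux H L LT C5 _ η hH0 hC5 hη hLT h1 (hL10.trans hAB) (by linarith)
  · set Λ := μ * LT with hΛ
    have hΛ1 : 1 ≤ Λ := by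
      rw [div_le_iff₀ hμ] at hμinv
      rw [hΛ]; linarith
    have hΛ0 : 0 < Λ := by linarith
    have hΛlam : Λ ≤ lam * L := by
      rw [div_le_iff₀ (by linarith)] at hL9
      rw [hΛ]
      nlinarith
    -- integrability
    have hRc := conv_cont hR
    have hVc : ContinuousOn (fun α : ℝ => VV (Λ * α)) (Set.uIcc 0 1) := by
      refine (VV_cont Λ).comp (by fun_prop) ?_
      intro α hα
      rw [Set.uIcc_of_le zero_le_one] at hα
      simp only [Set.mem_Iic]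
      nlinarith [hα.2]
    have hint1 : IntervalIntegrable (fun α : ℝ => R α * Real.exp (-(Λ * α) ^ 2)) volume 0 1 :=
      (by fun_prop : Continuous fun α : ℝ => R α * Real.exp (-(Λ * α) ^ 2)).intervalIntegrable _ _
    have hint2 : IntervalIntegrable (fun α : ℝ => R α * Real.exp (2 * (Λ * α) - (Λ * α) ^ 2 / 2))
        volume 0 1 :=
      (by fun_prop : Continuous fun α : ℝ =>
        R α * Real.exp (2 * (Λ * α) - (Λ * α) ^ 2 / 2)).intervalIntegrable _ _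
    have hint3 : IntervalIntegrable (fun α : ℝ => R α * VV (Λ * α)) volume 0 1 :=
      (hRc.continuousOn.mul hVc).intervalIntegrable
    have hint4 : IntervalIntegrable R volume 0 1 := hRc.intervalIntegrable _ _
    have hint5 : IntervalIntegrable (fun α : ℝ => R α *
        ∫ x in (A - w)..(B + w), ‖EE (bb a (Λ * α)) X σ x‖ ^ 2) volume 0 1 := by
      have h5 : Continuous fun α : ℝ => R α * ∫ x in (A - w)..(B + w),
          ‖EE (bb a (Λ * α)) X σ x‖ ^ 2 := by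
        apply hRc.mul
        have h6 : Continuous (Function.uncurry fun α x : ℝ => ‖EE (bb a (Λ * α)) X σ x‖ ^ 2) :=
          (EE_cont2 a Λ X σ).norm.pow 2
        exact intervalIntegral.continuous_parametric_intervalIntegral_of_continuous' h6 _ _
      exact h5.intervalIntegrable _ _
    have hintJ : IntervalIntegrable (fun α : ℝ => R α * JJ F A B (Λ * α)) volume 0 1 :=
      (hRc.mul ((JJ_cont hF hU).comp (by fun_prop))).intervalIntegrable _ _
    -- the five integrals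
    set i1 := ∫ α in (0 : ℝ)..1, R α * Real.exp (-(Λ * α) ^ 2) with hi1
    set i2 := ∫ α in (0 : ℝ)..1, R α * Real.exp (2 * (Λ * α) - (Λ * α) ^ 2 / 2) with hi2
    set i3 := ∫ α in (0 : ℝ)..1, R α * VV (Λ * α) with hi3
    set i4 := ∫ α in (0 : ℝ)..1, R α with hi4
    set i5 := ∫ α in (0 : ℝ)..1, R α *
        ∫ x in (A - w)..(B + w), ‖EE (bb a (Λ * α)) X σ x‖ ^ 2 with hi5
    have hsplit : ∀ c1 c2 c3 c4 c5 : ℝ, ∫ α in (0 : ℝ)..1, (c1 * (R α * Real.exp (-(Λ * α) ^ 2)) +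
          c2 * (R α * Real.exp (2 * (Λ * α) - (Λ * α) ^ 2 / 2)) +
          c3 * (R α * VV (Λ * α)) + c4 * R α +
          c5 * (R α * ∫ x in (A - w)..(B + w), ‖EE (bb a (Λ * α)) X σ x‖ ^ 2)) =
        c1 * i1 + c2 * i2 + c3 * i3 + c4 * i4 + c5 * i5 := by
      intro c1 c2 c3 c4 c5
      rw [intervalIntegral.integral_add ((((hint1.const_mul _).add (hint2.const_mul _)).add
          (hint3.const_mul _)).add (hint4.const_mul _)) (hint5.const_mul _),
        intervalIntegral.integral_add (((hint1.const_mul _).add (hint2.const_mul _)).add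
          (hint3.const_mul _)) (hint4.const_mul _),
        intervalIntegral.integral_add ((hint1.const_mul _).add (hint2.const_mul _))
          (hint3.const_mul _),
        intervalIntegral.integral_add (hint1.const_mul _) (hint2.const_mul _),
        intervalIntegral.integral_const_mul, intervalIntegral.integral_const_mul,
        intervalIntegral.integral_const_mul, intervalIntegral.integral_const_mul,
        intervalIntegral.integral_const_mul]
    have hsplitI : ∀ c1 c2 c3 c4 c5 : ℝ, IntervalIntegrable (fun α : ℝ =>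
          (c1 * (R α * Real.exp (-(Λ * α) ^ 2)) +
          c2 * (R α * Real.exp (2 * (Λ * α) - (Λ * α) ^ 2 / 2)) +
          c3 * (R α * VV (Λ * α)) + c4 * R α +
          c5 * (R α * ∫ x in (A - w)..(B + w), ‖EE (bb a (Λ * α)) X σ x‖ ^ 2))) volume 0 1 :=
      fun c1 c2 c3 c4 c5 => ((((hint1.const_mul _).add (hint2.const_mul _)).add
        (hint3.const_mul _)).add (hint4.const_mul _)).add (hint5.const_mul _)
    -- individual bounds
    have ha1 := H613SI.a1_aux hR Λ hΛ0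
    have ha2 := H613SI.a2_aux hR Λ hΛ0
    have ha3 := ha3' Λ hΛ1
    have hb1 := ha1l Λ hΛ1
    have hb3 := ha3l Λ hΛ1
    rw [← hi1] at ha1 hb1
    rw [← hi2] at ha2
    rw [← hi3] at ha3 hb3
    have ha4 : i4 ≤ R 0 := by
      calc ∫ α in (0 : ℝ)..1, R α ≤ ∫ α in (0 : ℝ)..1, R 0 := by
            refine intervalIntegral.integral_mono_on zero_le_one hint4
              (continuous_const.intervalIntegrable _ _) fun α hα => conv_le hR α hα.1
        _ = R 0 := by simp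
    have ha5 : i5 ≤ H := by
      rw [hi5, ← QE_swap hR]
      exact hQE
    have hM0 : 0 ≤ H * LT / (2 * Real.pi) := by positivity
    have hL5' : 4 * Real.pi * K5 / η ≤ LT := by linarith only [hL5, hLLT]
    have hL6' : 4 * Real.pi * K6 / η ≤ LT := by linarith only [hL6, hLLT]
    rw [hcR, abs_le]
    constructor
    · -- lower bound
      have hb : 1 / (2 * Real.pi * (1 + θ)) * ((1 - θ) * H * L ^ 2) * i1 +
          (-(1 / (2 * Real.pi * (1 + θ)) * (K1' * (H * L)))) * i2 +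
          1 / (2 * Real.pi * (1 + θ)) * ((1 - θ) / (1 + θ) * H) * i3 + (-(K2' * H)) * i4 +
          (-(1 / (2 * Real.pi * (1 + θ)))) * i5 ≤ ∫ α in (0 : ℝ)..1, R α * JJ F A B (Λ * α) := by
        rw [← hsplit]
        refine intervalIntegral.integral_mono_on zero_le_one (hsplitI _ _ _ _ _) hintJ
          fun α hα => ?_
        have h1 := hJl' (Λ * α) (mul_nonneg hΛ0.le hα.1) (by
          calc Λ * α ≤ Λ * 1 := mul_le_mul_of_nonneg_left hα.2 hΛ0.le
            _ ≤ lam * L := by linarith)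
        have h2 := mul_le_mul_of_nonneg_left h1 (hR.nonneg α)
        refine le_trans (le_of_eq ?_) h2
        ring
      have h2 := comb_low θ H L LT (R 0) spi μ I1 C1l K1' (R 0 * (Real.exp 4 * spi)) C3l K2'
        i1 i2 i3 i4 i5 _ hθ0 hθ4 hH0 hLTpos hLpos hLl hL2T hR0 hspi0 hμ hI10 hC1l hK1' hE0 hC3l hK2'
        hb1 ha2 hb3 ha4 ha5 hb
      rw [← hK6, ← hQ0] at h2
      have h4 : H * K6 ≤ (H * LT / (2 * Real.pi)) * (η / 2) := err_aux H LT η K6 hH0 hη hL6'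
      have h6 : (H * LT / (2 * Real.pi)) * (4 * θ * Q0) ≤ (H * LT / (2 * Real.pi)) * (η / 2) := by
        apply mul_le_mul_of_nonneg_left _ hM0
        have : 0 ≤ θ * Q0 := mul_nonneg hθ0.le hQ00
        linarith only [this, hθ2]
      unfold PS
      have h7 : (H * LT / (2 * Real.pi)) * ((1 - 4 * θ) * Q0) =
          (H * LT / (2 * Real.pi)) * Q0 - (H * LT / (2 * Real.pi)) * (4 * θ * Q0) := by ring
      linarith only [h2, h4, h6, h7]
    · -- upper bound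
      have hb : ∫ α in (0 : ℝ)..1, R α * JJ F A B (Λ * α) ≤
          (1 + θ) / (2 * Real.pi) * (H * L ^ 2) * i1 +
          (1 + θ) / (2 * Real.pi) * (K1 * (H * L)) * i2 +
          (1 + θ) / (2 * Real.pi) * ((1 + θ) ^ 3 * H) * i3 + K2 * H * i4 +
          (1 + θ) / (2 * Real.pi) * (1 + θ) ^ 2 * i5 := by
        rw [← hsplit]
        refine intervalIntegral.integral_mono_on zero_le_one hintJ (hsplitI _ _ _ _ _)
          fun α hα => ?_
        have h1 := hJu' (Λ * α) (mul_nonneg hΛ0.le hα.1) (by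
          calc Λ * α ≤ Λ * 1 := mul_le_mul_of_nonneg_left hα.2 hΛ0.le
            _ ≤ lam * L := by linarith)
        have h2 := mul_le_mul_of_nonneg_left h1 (hR.nonneg α)
        refine h2.trans (le_of_eq ?_)
        ring
      have h2 := comb_up θ H L LT (R 0) spi μ I1 K1 (R 0 * (Real.exp 4 * spi)) C4 K2
        i1 i2 i3 i4 i5 _ hθ0 hθ4 hH0 hLTpos hLpos hLu hL2T hR0 hspi0 hμ hI10 hK1 hE0 hK2
        ha1 ha2 ha3 ha4 ha5 hb
      rw [← hK5, ← hQ0] at h2
      have h4 : H * K5 ≤ (H * LT / (2 * Real.pi)) * (η / 2) := err_aux H LT η K5 hH0 hη hL5'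
      have h6 : (H * LT / (2 * Real.pi)) * (15 * θ * Q0) ≤ (H * LT / (2 * Real.pi)) * (η / 2) :=
        mul_le_mul_of_nonneg_left hθ2 hM0
      unfold PS
      have h7 : (H * LT / (2 * Real.pi)) * ((1 + 15 * θ) * Q0) =
          (H * LT / (2 * Real.pi)) * Q0 + (H * LT / (2 * Real.pi)) * (15 * θ * Q0) := by ring
      linarith only [h2, h4, h6, h7]

end H370.A2
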