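import Pool.Agent.H345R2.A2.Lin

/-! Pair sums without weights, under the Riemann hypothesis. -/

open Complex Filter Topology Set MeasureTheory
open scoped BigOperators ComplexConjugate

namespace H370.A2

open H370.AS H295SI

/-- zeros near a point -/
lemma near_count {F : ℂ → ℂ} (hF : GoodL F) : ∃ C : ℝ, 0 < C ∧ ∀ T : ℝ, 10 ≤ T →
    ∀ A B : ℝ, T ≤ A → B ≤ 4 * T → ∀ x : ℝ,
    ∑ s ∈ (Zf F A B).filter (fun s => x - 1 < s.im ∧ s.im ≤ x + 1), (mult F s : ℝ) ≤
      C * Real.log T := by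
  classical
  obtain ⟨C, hC, hz⟩ := zcount hF
  refine ⟨3 * C, by positivity, fun T hT A B hA hB x => ?_⟩
  have hLT : 0 ≤ Real.log T := Real.log_nonneg (by linarith)
  rcases ((Zf F A B).filter (fun s => x - 1 < s.im ∧ s.im ≤ x + 1)).eq_empty_or_nonempty with
    he | ⟨s0, hs0⟩
  · rw [he]; simp; positivity
  · rw [Finset.mem_filter, mem_Zf hF (by linarith)] at hs0
    obtain ⟨⟨h1, h2, h3, h4, h5⟩, h6, h7⟩ := hs0
    have hx3 : 3 ≤ x := by linarith
    have hx1 : 1 ≤ x - 1 := by linarith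
    have h8 := hz x hx3
    have h9 : (NN F (x - 1) (x + 1) : ℝ) = ∑ s ∈ Zf F (x - 1) (x + 1), (mult F s : ℝ) := by
      rw [NN_eq hF hx1]; push_cast; rfl
    have h10 : x ≤ T ^ 3 := by
      have : x ≤ 4 * T + 1 := by linarith
      nlinarith [sq_nonneg T]
    calc _ ≤ ∑ s ∈ Zf F (x - 1) (x + 1), (mult F s : ℝ) := by
          refine Finset.sum_le_sum_of_subset_of_nonneg ?_ (fun _ _ _ => Nat.cast_nonneg _)
          intro s hs
          rw [Finset.mem_filter, mem_Zf hF (by linarith)] at hs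
          rw [mem_Zf hF hx1]
          obtain ⟨⟨g1, g2, g3, g4, g5⟩, g6, g7⟩ := hs
          exact ⟨g1, g2, g6, g7, g5⟩
      _ = NN F (x - 1) (x + 1) := h9.symm
      _ ≤ C * Real.log x := h8
      _ ≤ C * (3 * Real.log T) := by
          gcongr
          calc Real.log x ≤ Real.log (T ^ 3) := Real.log_le_log (by linarith) h10
            _ = 3 * Real.log T := by rw [Real.log_pow]; push_cast; ring
      _ = _ := by ring

lemma inv_le_int (d : ℝ) :
    1 / (1 + d ^ 2) ≤ ∫ y in Set.Ico (d - 1) (d + 1), 3 / 2 * (1 + y ^ 2)⁻¹ := by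
  have h2 : ∀ y ∈ Set.Icc (d - 1) (d + 1), 1 / (2 * (1 + d ^ 2)) ≤ 3 / 2 * (1 + y ^ 2)⁻¹ := by
    intro y hy
    have h3 : y ^ 2 ≤ 2 * d ^ 2 + 2 := by
      have h4 : (y - d) ^ 2 ≤ 1 := by
        have h5 := hy.1
        have h6 := hy.2
        nlinarith
      nlinarith [sq_nonneg (y - 2 * d)]
    rw [← div_eq_mul_inv, div_le_div_iff₀ (by positivity) (by positivity)]
    nlinarith
  have hc : Continuous fun y : ℝ => 3 / 2 * (1 + y ^ 2)⁻¹ := by
    apply continuous_const.mul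
    apply Continuous.inv₀ (by fun_prop)
    intro y
    positivity
  rw [integral_Ico_eq_integral_Ioc, ← intervalIntegral.integral_of_le (by linarith)]
  calc 1 / (1 + d ^ 2) = ∫ y in (d - 1)..(d + 1), 1 / (2 * (1 + d ^ 2)) := by
        rw [intervalIntegral.integral_const, smul_eq_mul]
        have : (1 : ℝ) + d ^ 2 ≠ 0 := by positivity
        field_simp
        ring
    _ ≤ _ := intervalIntegral.integral_mono_on (by linarith)
        (continuous_const.intervalIntegrable _ _) (hc.intervalIntegrable _ _) h2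

lemma weight_sum {F : ℂ → ℂ} (hF : GoodL F) : ∃ C : ℝ, 0 < C ∧ ∀ T : ℝ, 10 ≤ T →
    ∀ A B : ℝ, T ≤ A → B ≤ 4 * T → ∀ x : ℝ,
    ∑ s ∈ Zf F A B, (mult F s : ℝ) * (1 / (1 + (s.im - x) ^ 2)) ≤ C * Real.log T := by
  classical
  obtain ⟨C, hC, hz⟩ := near_count hF
  refine ⟨3 / 2 * Real.pi * C, by positivity, fun T hT A B hA hB x => ?_⟩
  set g : ℝ → ℝ := fun y => 3 / 2 * (1 + y ^ 2)⁻¹ with hg
  have hgi : Integrable g := integrable_inv_one_add_sq.const_mul _
  have hg0 : ∀ y, 0 ≤ g y := fun y => by simp only [hg]; positivity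
  have hsi : ∀ s : ℂ, Integrable (fun y => (mult F s : ℝ) *
      (Set.Ico (s.im - x - 1) (s.im - x + 1)).indicator g y) := fun s =>
    (hgi.indicator measurableSet_Ico).const_mul _
  have h1 : ∑ s ∈ Zf F A B, (mult F s : ℝ) * (1 / (1 + (s.im - x) ^ 2)) ≤
      ∫ y, ∑ s ∈ Zf F A B, (mult F s : ℝ) *
        (Set.Ico (s.im - x - 1) (s.im - x + 1)).indicator g y := by
    rw [integral_finsetSum _ fun s _ => hsi s]
    refine Finset.sum_le_sum fun s _ => ?_
    rw [integral_const_mul, integral_indicator measurableSet_Ico]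
    exact mul_le_mul_of_nonneg_left (inv_le_int _) (Nat.cast_nonneg _)
  have h2 : ∀ y, ∑ s ∈ Zf F A B, (mult F s : ℝ) *
        (Set.Ico (s.im - x - 1) (s.im - x + 1)).indicator g y ≤ (C * Real.log T) * g y := by
    intro y
    have h3 : ∀ s : ℂ, (mult F s : ℝ) * (Set.Ico (s.im - x - 1) (s.im - x + 1)).indicator g y =
        if (x + y) - 1 < s.im ∧ s.im ≤ (x + y) + 1 then (mult F s : ℝ) * g y else 0 := by
      intro s
      by_cases h : y ∈ Set.Ico (s.im - x - 1) (s.im - x + 1)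
      · rw [Set.indicator_of_mem h, if_pos ⟨by linarith [h.2], by linarith [h.1]⟩]
      · rw [Set.indicator_of_notMem h, if_neg, mul_zero]
        rintro ⟨h4, h5⟩
        exact h ⟨by linarith, by linarith⟩
    simp_rw [h3]
    rw [← Finset.sum_filter, ← Finset.sum_mul]
    exact mul_le_mul_of_nonneg_right (hz T hT A B hA hB (x + y)) (hg0 y)
  calc _ ≤ _ := h1
    _ ≤ ∫ y, (C * Real.log T) * g y :=
        integral_mono (integrable_finsetSum _ fun s _ => hsi s) (hgi.const_mul _) h2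
    _ = 3 / 2 * Real.pi * C * Real.log T := by
        rw [integral_const_mul]
        simp only [hg]
        rw [integral_const_mul, integral_univ_inv_one_add_sq]
        ring

lemma pair_weight {F : ℂ → ℂ} (hF : GoodL F) : ∃ C : ℝ, 0 < C ∧ ∀ T : ℝ, 10 ≤ T →
    ∀ A B : ℝ, T ≤ A → B ≤ 4 * T →
    ∑ s ∈ Zf F A B, ∑ s' ∈ Zf F A B, (mult F s : ℝ) * (mult F s' : ℝ) *
      (1 / (1 + (s.im - s'.im) ^ 2)) ≤ C * Real.log T * NN F A B := by
  obtain ⟨C, hC, hz⟩ := weight_sum hF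
  refine ⟨C, hC, fun T hT A B hA hB => ?_⟩
  have hNN : (NN F A B : ℝ) = ∑ s ∈ Zf F A B, (mult F s : ℝ) := by
    rw [NN_eq hF (by linarith)]; push_cast; rfl
  rw [hNN, Finset.mul_sum]
  refine Finset.sum_le_sum fun s _ => ?_
  have h1 := hz T hT A B hA hB s.im
  calc ∑ s' ∈ Zf F A B, (mult F s : ℝ) * (mult F s' : ℝ) * (1 / (1 + (s.im - s'.im) ^ 2)) =
      (mult F s : ℝ) * ∑ s' ∈ Zf F A B, (mult F s' : ℝ) * (1 / (1 + (s'.im - s.im) ^ 2)) := by
        rw [Finset.mul_sum]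
        refine Finset.sum_congr rfl fun s' _ => ?_
        have : (s.im - s'.im) ^ 2 = (s'.im - s.im) ^ 2 := by ring
        rw [this]; ring
    _ ≤ (mult F s : ℝ) * (C * Real.log T) := by gcongr
    _ = _ := by ring

lemma rh_line (hRH : RiemannHypothesis) {A B : ℝ} {s : ℂ}
    (hs : s ∈ zset riemannZeta A B) : s.re = 1 / 2 := by
  obtain ⟨h1, h2, h3, h4, h5⟩ := hs
  apply hRH s h5
  · rintro ⟨n, hn⟩
    have : s.re = -2 * (n + 1) := by rw [hn]; simp
    have hn0 : (0 : ℝ) ≤ n := Nat.cast_nonneg n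
    linarith
  · intro h
    rw [h] at h2
    simp at h2

lemma zz_line {s : ℂ} (h : s.re = 1 / 2) : zz s = (s.im : ℂ) := by
  unfold zz
  apply Complex.ext
  · simp
  · simp [h]

lemma exp_re_aux (u d : ℝ) : (cexp (I * u * (d : ℂ)) * cexp (-(d : ℂ) ^ 2 / 4)).re =
    Real.cos (u * d) * Real.exp (-d ^ 2 / 4) := by
  rw [← Complex.exp_add, Complex.exp_re]
  have e : I * u * (d : ℂ) + -(d : ℂ) ^ 2 / 4 = ((-d ^ 2 / 4 : ℝ) : ℂ) + ((u * d : ℝ) : ℂ) * I := by
    push_cast; ring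
  rw [e]
  simp only [Complex.add_re, Complex.ofReal_re, Complex.mul_re, Complex.I_re, Complex.ofReal_im,
    Complex.I_im, Complex.add_im, Complex.mul_im]
  ring_nf

lemma JN_rh (hRH : RiemannHypothesis) {A B : ℝ} (hA : 1 ≤ A) (u : ℝ) :
    JN riemannZeta A B u = ∑ s ∈ Zf riemannZeta A B, ∑ s' ∈ Zf riemannZeta A B,
      (mult riemannZeta s : ℝ) * (mult riemannZeta s' : ℝ) *
        (Real.cos (u * (s.im - s'.im)) * Real.exp (-(s.im - s'.im) ^ 2 / 4)) := by
  have hpi : Real.sqrt Real.pi ≠ 0 := by positivity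
  have h1 := congrArg Complex.re (JJ_eq (U2 := B) good_zeta hA u)
  rw [Complex.ofReal_re, Complex.re_ofReal_mul, Complex.re_sum] at h1
  unfold JN
  rw [h1, mul_div_assoc, mul_comm, div_mul_cancel₀ _ hpi]
  refine Finset.sum_congr rfl fun s hs => ?_
  rw [Complex.re_sum]
  refine Finset.sum_congr rfl fun s' hs' => ?_
  rw [mem_Zf good_zeta hA] at hs hs'
  rw [zz_line (rh_line hRH hs), zz_line (rh_line hRH hs')]
  have e1 : ((s.im : ℂ) - (s'.im : ℂ)) = ((s.im - s'.im : ℝ) : ℂ) := by push_cast; ring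
  have e2 : (mult riemannZeta s : ℂ) * (mult riemannZeta s' : ℂ) =
      (((mult riemannZeta s : ℝ) * (mult riemannZeta s' : ℝ) : ℝ) : ℂ) := by push_cast; ring
  rw [e1, e2, Complex.re_ofReal_mul, exp_re_aux]

/-- the function whose transform is `ψ` -/
noncomputable def RR (ψ : ℝ → ℝ) (μ x : ℝ) : ℝ := ∫ α in (-μ)..μ, ψ α * Real.cos (2 * Real.pi * α * x)

lemma int_JN (hRH : RiemannHypothesis) {A B : ℝ} (hA : 1 ≤ A) {ψ : ℝ → ℝ} (hψ : Continuous ψ)
    (μ L : ℝ) : ∫ α in (-μ)..μ, ψ α * JN riemannZeta A B (α * L) =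
      ∑ s ∈ Zf riemannZeta A B, ∑ s' ∈ Zf riemannZeta A B,
      (mult riemannZeta s : ℝ) * (mult riemannZeta s' : ℝ) *
        (RR ψ μ ((s.im - s'.im) * L / (2 * Real.pi)) * Real.exp (-(s.im - s'.im) ^ 2 / 4)) := by
  simp_rw [JN_rh hRH hA, Finset.mul_sum]
  have hc : ∀ s s' : ℂ, Continuous fun α : ℝ => ψ α * ((mult riemannZeta s : ℝ) *
      (mult riemannZeta s' : ℝ) *
        (Real.cos (α * L * (s.im - s'.im)) * Real.exp (-(s.im - s'.im) ^ 2 / 4))) := by
    intro s s'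
    fun_prop
  rw [intervalIntegral.integral_finsetSum]
  swap
  · intro s _
    exact (continuous_finsetSum _ fun s' _ => hc s s').intervalIntegrable _ _
  refine Finset.sum_congr rfl fun s _ => ?_
  rw [intervalIntegral.integral_finsetSum]
  swap
  · intro s' _
    exact (hc s s').intervalIntegrable _ _
  refine Finset.sum_congr rfl fun s' _ => ?_
  unfold RR
  rw [← intervalIntegral.integral_mul_const, ← intervalIntegral.integral_const_mul]
  refine intervalIntegral.integral_congr fun α _ => ?_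
  have e : 2 * Real.pi * α * ((s.im - s'.im) * L / (2 * Real.pi)) = α * L * (s.im - s'.im) := by
    have := Real.pi_pos
    field_simp
  show _ = _ * (ψ α * Real.cos (2 * Real.pi * α * ((s.im - s'.im) * L / (2 * Real.pi))) * _)
  rw [e]
  ring

lemma weight_free (L d C r : ℝ) (hL : 0 < L) (hC : 0 ≤ C)
    (hr : |r| * (d * L / (2 * Real.pi)) ^ 2 ≤ C) :
    |r * Real.exp (-d ^ 2 / 4) - r| ≤ 50 * C / L ^ 2 * (1 / (1 + d ^ 2)) := by
  have hpi := Real.pi_pos
  have hpi2 : Real.pi ^ 2 < 10 := by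
    have := Real.pi_lt_d2
    have h3 := Real.pi_gt_three
    nlinarith
  rcases eq_or_ne d 0 with h0 | h0
  · rw [h0]
    simp
    positivity
  have hd2 : 0 < d ^ 2 := by positivity
  have he1 : 0 ≤ 1 - Real.exp (-d ^ 2 / 4) := by
    have : Real.exp (-d ^ 2 / 4) ≤ 1 := by
      rw [Real.exp_le_one_iff]
      have : 0 ≤ d ^ 2 := hd2.le
      linarith
    linarith
  have he2 : (1 - Real.exp (-d ^ 2 / 4)) * (1 + d ^ 2) ≤ 5 / 4 * d ^ 2 := by
    have h1 := Real.add_one_le_exp (-d ^ 2 / 4)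
    have h2 := Real.exp_pos (-d ^ 2 / 4)
    rcases le_total (d ^ 2) 4 with h | h
    · nlinarith
    · nlinarith
  have e1 : |r * Real.exp (-d ^ 2 / 4) - r| = |r| * (1 - Real.exp (-d ^ 2 / 4)) := by
    have : r * Real.exp (-d ^ 2 / 4) - r = -(r * (1 - Real.exp (-d ^ 2 / 4))) := by ring
    rw [this, abs_neg, abs_mul, abs_of_nonneg he1]
  rw [e1, mul_one_div, le_div_iff₀ (by positivity)]
  have e2 : |r| * (d * L / (2 * Real.pi)) ^ 2 = |r| * d ^ 2 * (L ^ 2 / (4 * Real.pi ^ 2)) := by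
    field_simp
    ring
  rw [e2] at hr
  have h3 : |r| * d ^ 2 ≤ C * (4 * Real.pi ^ 2) / L ^ 2 := by
    rw [le_div_iff₀ (by positivity)]
    have h4 := mul_le_mul_of_nonneg_right hr (by positivity : 0 ≤ 4 * Real.pi ^ 2)
    have h5 : |r| * d ^ 2 * (L ^ 2 / (4 * Real.pi ^ 2)) * (4 * Real.pi ^ 2) = |r| * d ^ 2 * L ^ 2 := by
      field_simp
    linarith
  have hr0 := abs_nonneg r
  calc |r| * (1 - Real.exp (-d ^ 2 / 4)) * (1 + d ^ 2) =
      |r| * ((1 - Real.exp (-d ^ 2 / 4)) * (1 + d ^ 2)) := by ring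
    _ ≤ |r| * (5 / 4 * d ^ 2) := by gcongr
    _ = 5 / 4 * (|r| * d ^ 2) := by ring
    _ ≤ 5 / 4 * (C * (4 * Real.pi ^ 2) / L ^ 2) := by gcongr
    _ ≤ 5 / 4 * (C * (4 * 10) / L ^ 2) := by gcongr
    _ = 50 * C / L ^ 2 := by ring

/-- the unweighted pair sum of the zeros in `(A, B]` -/
noncomputable def PP (ψ : ℝ → ℝ) (μ A B L : ℝ) : ℝ :=
  ∑ᶠ s ∈ zset riemannZeta A B, ∑ᶠ s' ∈ zset riemannZeta A B,
    (mult riemannZeta s : ℝ) * (mult riemannZeta s' : ℝ) *
      RR ψ μ ((s.im - s'.im) * L / (2 * Real.pi))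

/-- under the Riemann hypothesis: pair sums in almost all short intervals -/
theorem almost_smooth (hRH : RiemannHypothesis) (η0 μ ε : ℝ) (hη0 : 0 < η0)
    (hη1 : η0 < 1) (hμ : 0 < μ) (hgap : 2 * μ < 1 + η0)
    (hε : 0 < ε) (ψ : ℝ → ℝ) (K : ℝ) (hlip : ∀ x y, |ψ x - ψ y| ≤ K * |x - y|)
    (hz : ∀ x, μ ≤ |x| → ψ x = 0) (C : ℝ) (hC : ∀ x, |RR ψ μ x| * x ^ 2 ≤ C) :
    ∃ δ : ℝ, 0 < δ ∧ ∃ T0 : ℝ, 10 ≤ T0 ∧ ∀ T : ℝ, T0 ≤ T → ∀ H : ℝ,
      T ^ η0 ≤ H → H ≤ T / 8 →
      volume {t : ℝ | t ∈ Set.Icc T (2 * T) ∧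
        ¬ (|PP ψ μ t (t + H) (Real.log T) -
            (H * Real.log T / (2 * Real.pi)) * (ψ 0 + ∫ α in (-μ)..μ, |α| * ψ α)| ≤
            ε * (H * Real.log T / (2 * Real.pi)))} ≤
        ENNReal.ofReal (T ^ (1 - δ)) := by
  have hK : 0 ≤ K := by
    have h1 := hlip 1 0
    have h2 := abs_nonneg (ψ 1 - ψ 0)
    simp at h1
    linarith
  have hψc : Continuous ψ := by
    have : LipschitzWith K.toNNReal ψ := by
      refine LipschitzWith.of_dist_le_mul fun x y => ?_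
      rw [Real.dist_eq, Real.dist_eq, Real.coe_toNNReal _ hK]
      exact hlip x y
    exact this.continuous
  have hC0 : 0 ≤ C := by
    have := hC 0
    simp at this
    exact this
  obtain ⟨Cw, hCw, hw⟩ := pair_weight good_zeta
  obtain ⟨δ, hδ, T0, hT0, h⟩ := almost_psi good_zeta lamC_norm (fun s hs _ => ld_zeta s hs)
    le_rfl (bz_rh hRH) η0 μ (min 1 (ε / 2)) hη0 hη1 hμ hgap (by linarith)
    (lt_min one_pos (by positivity)) ψ K hlip hz
  obtain ⟨T1, hT1⟩ := (Real.tendsto_log_atTop.eventually_ge_atTop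
    (200 * C * Cw / ε)).exists_forall_of_atTop
  refine ⟨δ, hδ, max T0 T1, hT0.trans (le_max_left _ _), fun T hT H hH1 hH2 =>
    (measure_mono ?_).trans (h T ((le_max_left _ _).trans hT) H hH1 hH2)⟩
  have hTT1 := hT1 T ((le_max_right _ _).trans hT)
  have hT10 : 10 ≤ T := (hT0.trans (le_max_left _ _)).trans hT
  have hTpos : 0 < T := by linarith
  have hL : 0 < Real.log T := Real.log_pos (by linarith)
  have hHpos : 0 < H := lt_of_lt_of_le (Real.rpow_pos_of_pos hTpos _) hH1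
  set L := Real.log T with hLdef
  have hM0 : 0 < H * L / (2 * Real.pi) := by have := Real.pi_pos; positivity
  rintro t ⟨ht1, ht2⟩
  refine ⟨ht1, fun hcon => ht2 ?_⟩
  obtain ⟨g1, g2⟩ := hcon
  have hU : 1 ≤ t := by linarith [ht1.1]
  rw [int_JN hRH hU hψc] at g2
  have hPP : PP ψ μ t (t + H) L = ∑ s ∈ Zf riemannZeta t (t + H), ∑ s' ∈ Zf riemannZeta t (t + H),
      (mult riemannZeta s : ℝ) * (mult riemannZeta s' : ℝ) *
      RR ψ μ ((s.im - s'.im) * L / (2 * Real.pi)) := by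
    unfold PP
    rw [finsum_Zf good_zeta hU]
    refine Finset.sum_congr rfl fun s _ => ?_
    rw [finsum_Zf good_zeta hU]
  have hdiff : |(∑ s ∈ Zf riemannZeta t (t + H), ∑ s' ∈ Zf riemannZeta t (t + H),
      (mult riemannZeta s : ℝ) * (mult riemannZeta s' : ℝ) *
        (RR ψ μ ((s.im - s'.im) * L / (2 * Real.pi)) * Real.exp (-(s.im - s'.im) ^ 2 / 4))) -
      PP ψ μ t (t + H) L| ≤ 50 * C / L ^ 2 * (Cw * L * NN riemannZeta t (t + H)) := by
    rw [hPP, ← Finset.sum_sub_distrib]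
    simp_rw [← Finset.sum_sub_distrib]
    have h1 := hw T hT10 t (t + H) ht1.1 (by linarith [ht1.2])
    calc _ ≤ ∑ s ∈ Zf riemannZeta t (t + H), ∑ s' ∈ Zf riemannZeta t (t + H),
        |(mult riemannZeta s : ℝ) * (mult riemannZeta s' : ℝ) *
        (RR ψ μ ((s.im - s'.im) * L / (2 * Real.pi)) * Real.exp (-(s.im - s'.im) ^ 2 / 4)) -
        (mult riemannZeta s : ℝ) * (mult riemannZeta s' : ℝ) *
        RR ψ μ ((s.im - s'.im) * L / (2 * Real.pi))| :=
          (Finset.abs_sum_le_sum_abs _ _).trans (Finset.sum_le_sum fun s _ =>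
            Finset.abs_sum_le_sum_abs _ _)
      _ ≤ ∑ s ∈ Zf riemannZeta t (t + H), ∑ s' ∈ Zf riemannZeta t (t + H),
          50 * C / L ^ 2 * ((mult riemannZeta s : ℝ) * (mult riemannZeta s' : ℝ) *
          (1 / (1 + (s.im - s'.im) ^ 2))) := by
          refine Finset.sum_le_sum fun s _ => Finset.sum_le_sum fun s' _ => ?_
          rw [← mul_sub, abs_mul, abs_of_nonneg (by positivity : (0 : ℝ) ≤
            (mult riemannZeta s : ℝ) * (mult riemannZeta s' : ℝ))]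
          have h2 := weight_free L (s.im - s'.im) C _ hL hC0
            (hC ((s.im - s'.im) * L / (2 * Real.pi)))
          calc _ ≤ (mult riemannZeta s : ℝ) * (mult riemannZeta s' : ℝ) *
              (50 * C / L ^ 2 * (1 / (1 + (s.im - s'.im) ^ 2))) := by gcongr
            _ = _ := by ring
      _ = 50 * C / L ^ 2 * ∑ s ∈ Zf riemannZeta t (t + H), ∑ s' ∈ Zf riemannZeta t (t + H),
          ((mult riemannZeta s : ℝ) * (mult riemannZeta s' : ℝ) *
          (1 / (1 + (s.im - s'.im) ^ 2))) := by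
          rw [Finset.mul_sum]
          refine Finset.sum_congr rfl fun s _ => ?_
          rw [Finset.mul_sum]
      _ ≤ _ := by gcongr
  have hNN : (NN riemannZeta t (t + H) : ℝ) ≤ 2 * (H * L / (2 * Real.pi)) := by
    have h3 := (abs_le.1 g1).2
    have h4 : min 1 (ε / 2) * (H * L / (2 * Real.pi)) ≤ 1 * (H * L / (2 * Real.pi)) := by
      gcongr; exact min_le_left _ _
    linarith
  have herr : 50 * C / L ^ 2 * (Cw * L * NN riemannZeta t (t + H)) ≤
      ε / 2 * (H * L / (2 * Real.pi)) := by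
    rw [div_le_iff₀ hε] at hTT1
    calc 50 * C / L ^ 2 * (Cw * L * NN riemannZeta t (t + H)) ≤
        50 * C / L ^ 2 * (Cw * L * (2 * (H * L / (2 * Real.pi)))) := by gcongr
      _ = (100 * C * Cw / L) * (H * L / (2 * Real.pi)) := by
          field_simp
          ring
      _ ≤ ε / 2 * (H * L / (2 * Real.pi)) := by
          apply mul_le_mul_of_nonneg_right _ hM0.le
          rw [div_le_iff₀ hL]
          linarith
  have h5 : min 1 (ε / 2) * (H * L / (2 * Real.pi)) ≤ ε / 2 * (H * L / (2 * Real.pi)) := by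
    gcongr; exact min_le_right _ _
  rw [abs_sub_comm] at hdiff
  have h6 := abs_sub_le (PP ψ μ t (t + H) L) (∑ s ∈ Zf riemannZeta t (t + H),
      ∑ s' ∈ Zf riemannZeta t (t + H),
      (mult riemannZeta s : ℝ) * (mult riemannZeta s' : ℝ) *
        (RR ψ μ ((s.im - s'.im) * L / (2 * Real.pi)) * Real.exp (-(s.im - s'.im) ^ 2 / 4)))
      ((H * L / (2 * Real.pi)) * (ψ 0 + ∫ α in (-μ)..μ, |α| * ψ α))
  linarith

end H370.A2
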